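import Mathlib

set_option autoImplicit false

namespace Pool.Agent.Helper542

open Subgroup
open scoped Classical

section Conj

variable {G : Type*} [Group G]

/-- The conjugate subgroup `g K g⁻¹`. -/
def cj (g : G) (K : Subgroup G) : Subgroup G := K.map (MulAut.conj g).toMonoidHom

lemma mem_cj {g : G} {K : Subgroup G} {x : G} : x ∈ cj g K ↔ g⁻¹ * x * g ∈ K := by
  rw [cj, Subgroup.mem_map_equiv]
  simp [MulAut.conj_symm_apply]

lemma conj_mem_cj {g : G} {K : Subgroup G} {x : G} : g * x * g⁻¹ ∈ cj g K ↔ x ∈ K := by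
  rw [mem_cj]
  have : g⁻¹ * (g * x * g⁻¹) * g = x := by group
  rw [this]

lemma cj_one (K : Subgroup G) : cj 1 K = K := by
  ext x; rw [mem_cj]; simp

lemma cj_cj (g h : G) (K : Subgroup G) : cj g (cj h K) = cj (g * h) K := by
  ext x; rw [mem_cj, mem_cj, mem_cj]
  have : h⁻¹ * (g⁻¹ * x * g) * h = (g * h)⁻¹ * x * (g * h) := by group
  rw [this]

lemma cj_inv_cj (g : G) (K : Subgroup G) : cj g⁻¹ (cj g K) = K := by
  rw [cj_cj, inv_mul_cancel, cj_one]

lemma cj_cj_inv (g : G) (K : Subgroup G) : cj g (cj g⁻¹ K) = K := by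
  rw [cj_cj, mul_inv_cancel, cj_one]

lemma cj_injective (g : G) : Function.Injective (cj g) := by
  intro K L h
  have := congrArg (cj g⁻¹) h
  rwa [cj_inv_cj, cj_inv_cj] at this

lemma cj_le_cj {g : G} {K L : Subgroup G} : cj g K ≤ cj g L ↔ K ≤ L := by
  constructor
  · intro h x hx
    exact conj_mem_cj.mp (h (conj_mem_cj.mpr hx))
  · intro h x hx
    rw [mem_cj] at hx ⊢
    exact h hx

lemma cj_le_iff {g : G} {K L : Subgroup G} : cj g K ≤ L ↔ K ≤ cj g⁻¹ L := by
  rw [← cj_le_cj (g := g⁻¹), cj_inv_cj]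

lemma le_cj_iff {g : G} {K L : Subgroup G} : K ≤ cj g L ↔ cj g⁻¹ K ≤ L := by
  rw [← cj_le_cj (g := g⁻¹), cj_inv_cj]

lemma cj_sup (g : G) (K L : Subgroup G) : cj g (K ⊔ L) = cj g K ⊔ cj g L :=
  Subgroup.map_sup _ _ _

lemma cj_zpowers (g x : G) : cj g (Subgroup.zpowers x) = Subgroup.zpowers (g * x * g⁻¹) := by
  rw [cj, MonoidHom.map_zpowers]; rfl

lemma card_cj (g : G) (K : Subgroup G) : Nat.card (cj g K) = Nat.card K :=
  Subgroup.card_map_of_injective (MulAut.conj g).injective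

lemma cj_normal (g : G) (K : Subgroup G) [hK : K.Normal] : cj g K = K := by
  ext x
  rw [mem_cj]
  have h := hK.mem_comm_iff (a := g⁻¹ * x) (b := g)
  rw [h]
  have : g * (g⁻¹ * x) = x := by group
  rw [this]

lemma cj_of_mem {g : G} {K : Subgroup G} (hg : g ∈ K) : cj g K = K := by
  ext x
  rw [mem_cj]
  constructor
  · intro h
    have : x = g * (g⁻¹ * x * g) * g⁻¹ := by group
    rw [this]
    exact mul_mem (mul_mem hg h) (inv_mem hg)
  · intro h
    exact mul_mem (mul_mem (inv_mem hg) h) hg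

lemma cj_bot (g : G) : cj g (⊥ : Subgroup G) = ⊥ := cj_normal g ⊥

lemma normal_of_cj {K : Subgroup G} (h : ∀ g, cj g K = K) : K.Normal := by
  constructor
  intro n hn g
  have := (conj_mem_cj (g := g) (K := K) (x := n)).mpr hn
  rwa [h g] at this

/-- conjugacy of subgroups -/
def Cj (K L : Subgroup G) : Prop := ∃ g : G, L = cj g K

lemma Cj.refl (K : Subgroup G) : Cj K K := ⟨1, (cj_one K).symm⟩

lemma Cj.symm {K L : Subgroup G} (h : Cj K L) : Cj L K := by
  obtain ⟨g, rfl⟩ := h
  exact ⟨g⁻¹, (cj_inv_cj g K).symm⟩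

lemma Cj.trans {K L M : Subgroup G} (h : Cj K L) (h' : Cj L M) : Cj K M := by
  obtain ⟨g, rfl⟩ := h
  obtain ⟨g', rfl⟩ := h'
  exact ⟨g' * g, cj_cj _ _ _⟩

lemma Cj.card {K L : Subgroup G} (h : Cj K L) : Nat.card L = Nat.card K := by
  obtain ⟨g, rfl⟩ := h
  exact card_cj g K

lemma cj_eq_of_le [Finite G] {g : G} {K : Subgroup G} (h : K ≤ cj g K) : cj g K = K :=
  (Subgroup.eq_of_le_of_card_ge h (le_of_eq (card_cj g K))).symm

end Conj

section GSet

variable {G : Type} [Group G]

/-- number of fixed points -/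
noncomputable def fx (X : Type) [MulAction G X] (K : Subgroup G) : ℤ :=
  ((Nat.card {x : X // ∀ k ∈ K, k • x = x} : ℕ) : ℤ)

lemma fixed_iff {X : Type} [MulAction G X] (K : Subgroup G) (x : X) :
    (∀ k ∈ K, k • x = x) ↔ K ≤ MulAction.stabilizer G x := Iff.rfl

lemma fixed_sup {X : Type} [MulAction G X] (K : Subgroup G) (g : G) (x : X) :
    (∀ k ∈ K ⊔ Subgroup.zpowers g, k • x = x) ↔ ((∀ k ∈ K, k • x = x) ∧ g • x = x) := by
  rw [fixed_iff, sup_le_iff, fixed_iff, Subgroup.zpowers_le]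
  rfl

lemma fixed_cj {X : Type} [MulAction G X] (K : Subgroup G) (g : G) (x : X) :
    (∀ k ∈ cj g K, k • (g • x) = g • x) ↔ (∀ k ∈ K, k • x = x) := by
  constructor
  · intro h k hk
    have h1 := h (g * k * g⁻¹) (conj_mem_cj.mpr hk)
    rw [← mul_smul] at h1
    have h2 : g * k * g⁻¹ * g = g * k := by group
    rw [h2, mul_smul] at h1
    exact MulAction.injective g h1
  · intro h k hk
    rw [mem_cj] at hk
    have h1 := h _ hk
    calc k • g • x = g • (g⁻¹ * k * g) • x := by
          rw [← mul_smul, ← mul_smul]; congr 1; group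
      _ = g • x := by rw [h1]

lemma fx_cj (X : Type) [MulAction G X] (K : Subgroup G) (g : G) :
    fx X (cj g K) = fx X K := by
  unfold fx
  congr 1
  symm
  apply Nat.card_congr
  refine ⟨fun x => ⟨g • x.1, (fixed_cj K g x.1).mpr x.2⟩,
    fun y => ⟨g⁻¹ • y.1, ?_⟩, ?_, ?_⟩
  · rw [← fixed_cj K g, smul_inv_smul]; exact y.2
  · intro x; apply Subtype.ext; simp
  · intro y; apply Subtype.ext; simp

lemma fx_sum (X Y : Type) [MulAction G X] [MulAction G Y] [Finite X] [Finite Y]
    (K : Subgroup G) : fx (X ⊕ Y) K = fx X K + fx Y K := by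
  unfold fx
  rw [← Nat.cast_add, ← Nat.card_sum]
  congr 1
  apply Nat.card_congr
  refine ⟨fun z => ?_, fun z => ?_, ?_, ?_⟩
  · rcases z with ⟨x | y, h⟩
    · exact Sum.inl ⟨x, fun k hk => Sum.inl_injective (h k hk)⟩
    · exact Sum.inr ⟨y, fun k hk => Sum.inr_injective (h k hk)⟩
  · rcases z with x | y
    · exact ⟨Sum.inl x.1, fun k hk => congrArg Sum.inl (x.2 k hk)⟩
    · exact ⟨Sum.inr y.1, fun k hk => congrArg Sum.inr (y.2 k hk)⟩
  · rintro ⟨x | y, h⟩ <;> rfl
  · rintro (x | y) <;> rfl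

lemma fx_prod (X Y : Type) [MulAction G X] [MulAction G Y]
    (K : Subgroup G) : fx (X × Y) K = fx X K * fx Y K := by
  unfold fx
  rw [← Nat.cast_mul, ← Nat.card_prod]
  congr 1
  apply Nat.card_congr
  refine ⟨fun z => (⟨z.1.1, fun k hk => congrArg Prod.fst (z.2 k hk)⟩,
    ⟨z.1.2, fun k hk => congrArg Prod.snd (z.2 k hk)⟩),
    fun z => ⟨(z.1.1, z.2.1), fun k hk => Prod.ext (z.1.2 k hk) (z.2.2 k hk)⟩, ?_, ?_⟩
  · intro z; rfl
  · intro z; rfl

lemma fx_unit (K : Subgroup G) : fx PUnit K = 1 := by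
  unfold fx
  have : Nat.card {x : PUnit // ∀ k ∈ K, k • x = x} = 1 := by
    rw [Nat.card_eq_one_iff_unique]
    constructor
    · constructor
      intro a b
      exact Subtype.ext rfl
    · exact ⟨PUnit.unit, fun k _ => rfl⟩
  rw [this]; rfl

/-- A class of subgroups closed under conjugation. -/
def CC (C : Subgroup G → Prop) : Prop := ∀ (g : G) (K : Subgroup G), C K → C (cj g K)

lemma CC.iff {C : Subgroup G → Prop} (hC : CC C) (g : G) (K : Subgroup G) :
    C (cj g K) ↔ C K := by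
  constructor
  · intro h
    have := hC g⁻¹ _ h
    rwa [cj_inv_cj] at this
  · exact hC g K

/-- the weight of `V` -/
noncomputable def tt [Fintype G] (L V : Subgroup G) : ℕ :=
  (Finset.univ.filter (fun g : G => cj g L = L ∧ L ⊔ Subgroup.zpowers g = V)).card

/-- the total weight -/
noncomputable def TT [Fintype G] [Fintype (Subgroup G)] (C : Subgroup G → Prop)
    (V : Subgroup G) : ℤ :=
  ∑ L : Subgroup G, if C L then (tt L V : ℤ) else 0

lemma sum_tt [Fintype G] [Fintype (Subgroup G)] (L : Subgroup G) (x : Subgroup G → ℤ) :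
    ∑ V : Subgroup G, (tt L V : ℤ) * x V
      = ∑ g : G, if cj g L = L then x (L ⊔ Subgroup.zpowers g) else 0 := by
  rw [← Finset.sum_filter]
  rw [← Finset.sum_fiberwise (Finset.univ.filter (fun g : G => cj g L = L))
    (fun g => L ⊔ Subgroup.zpowers g) (fun g => x (L ⊔ Subgroup.zpowers g))]
  apply Finset.sum_congr rfl
  intro V _
  rw [Finset.filter_filter]
  have : ∀ g ∈ (Finset.univ.filter
      (fun g : G => cj g L = L ∧ L ⊔ Subgroup.zpowers g = V)),
      x (L ⊔ Subgroup.zpowers g) = x V := by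
    intro g hg
    rw [Finset.mem_filter] at hg
    rw [hg.2.2]
  rw [Finset.sum_congr rfl this, Finset.sum_const, tt]
  simp

lemma sum_TT [Fintype G] [Fintype (Subgroup G)] (C : Subgroup G → Prop)
    (x : Subgroup G → ℤ) :
    ∑ V : Subgroup G, TT C V * x V
      = ∑ L : Subgroup G, if C L then ∑ V : Subgroup G, (tt L V : ℤ) * x V else 0 := by
  unfold TT
  simp_rw [Finset.sum_mul]
  rw [Finset.sum_comm]
  apply Finset.sum_congr rfl
  intro L _
  by_cases h : C L
  · simp [h]
  · simp [h]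

theorem congr_GSet [Fintype G] [Fintype (Subgroup G)] (C : Subgroup G → Prop) (hC : CC C)
    (X : Type) [MulAction G X] [Finite X] :
    (Nat.card G : ℤ) ∣ ∑ V : Subgroup G, TT C V * fx X V := by
  let P := {q : Subgroup G × X // C q.1 ∧ ∀ k ∈ q.1, k • q.2 = q.2}
  let _ : MulAction G P :=
    { smul := fun g q => ⟨(cj g q.1.1, g • q.1.2), hC g _ q.2.1, (fixed_cj _ g _).mpr q.2.2⟩
      one_smul := fun q => by
        apply Subtype.ext
        exact Prod.ext (cj_one _) (one_smul _ _)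
      mul_smul := fun g h q => by
        apply Subtype.ext
        exact Prod.ext (cj_cj g h _).symm (mul_smul g h _) }
  have hfin : Finite P := inferInstance
  have := Fintype.ofFinite P
  have key := MulAction.sum_card_fixedBy_eq_card_orbits_mul_card_group G P
  have h1 : ∀ g : G, (Fintype.card (MulAction.fixedBy P g) : ℤ)
      = ∑ L : Subgroup G, if (C L ∧ cj g L = L) then fx X (L ⊔ Subgroup.zpowers g) else 0 := by
    intro g
    rw [← Nat.card_eq_fintype_card]
    let e : MulAction.fixedBy P g ≃ Σ L : {L : Subgroup G // C L ∧ cj g L = L},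
        {x : X // ∀ k ∈ L.1 ⊔ Subgroup.zpowers g, k • x = x} :=
      { toFun := fun q => ⟨⟨q.1.1.1, q.1.2.1, congrArg (fun z : P => z.1.1) q.2⟩,
          ⟨q.1.1.2, (fixed_sup _ _ _).mpr ⟨q.1.2.2, congrArg (fun z : P => z.1.2) q.2⟩⟩⟩
        invFun := fun z => ⟨⟨(z.1.1, z.2.1), z.1.2.1, ((fixed_sup _ _ _).mp z.2.2).1⟩, by
          apply Subtype.ext
          exact Prod.ext z.1.2.2 ((fixed_sup _ _ _).mp z.2.2).2⟩
        left_inv := fun q => rfl
        right_inv := fun z => rfl }
    rw [Nat.card_congr e, Nat.card_sigma, Nat.cast_sum, ← Finset.sum_filter]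
    rw [Finset.sum_subtype (p := fun L : Subgroup G => C L ∧ cj g L = L) _ (by simp)
      (fun L => fx X (L ⊔ Subgroup.zpowers g))]
    rfl
  have h2 : (∑ g : G, (Fintype.card (MulAction.fixedBy P g) : ℤ))
      = (Fintype.card (Quotient (MulAction.orbitRel G P)) : ℤ) * (Nat.card G : ℤ) := by
    rw [Nat.card_eq_fintype_card]
    exact_mod_cast key
  rw [Finset.sum_congr rfl (fun g _ => h1 g), Finset.sum_comm] at h2
  rw [sum_TT]
  refine ⟨(Fintype.card (Quotient (MulAction.orbitRel G P)) : ℤ), ?_⟩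
  rw [mul_comm, ← h2]
  apply Finset.sum_congr rfl
  intro L _
  by_cases h : C L
  · simp only [h, true_and, if_true]
    rw [sum_tt]
  · simp [h]

/-! ### The Burnside ring -/

/-- The mark of the transitive set `G / L`. -/
noncomputable def mark (L : Subgroup G) : Subgroup G → ℤ :=
  fun K => ((Nat.card {x : G ⧸ L // ∀ k ∈ K, k • x = x} : ℕ) : ℤ)

/-- The Burnside ring, embedded in its ghost ring. -/
def BG (G : Type) [Group G] : Subring (Subgroup G → ℤ) :=
  Subring.closure (Set.range (mark (G := G)))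

lemma mark_mem (L : Subgroup G) : mark L ∈ BG G := Subring.subset_closure ⟨L, rfl⟩

theorem BG_rep [Finite G] (x : Subgroup G → ℤ) (hx : x ∈ BG G) :
    ∃ (X Y : Type) (_ : MulAction G X) (_ : MulAction G Y) (_ : Finite X) (_ : Finite Y),
      ∀ K : Subgroup G, x K = fx X K - fx Y K := by
  induction hx using Subring.closure_induction with
  | mem x hx =>
    obtain ⟨L, rfl⟩ := hx
    refine ⟨(G ⧸ L) ⊕ PUnit, PUnit, inferInstance, inferInstance, inferInstance, inferInstance, ?_⟩
    intro K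
    rw [fx_sum, fx_unit]
    show fx (G ⧸ L) K = _
    ring
  | zero =>
    refine ⟨PUnit, PUnit, inferInstance, inferInstance, inferInstance, inferInstance, ?_⟩
    intro K
    simp
  | one =>
    refine ⟨PUnit ⊕ PUnit, PUnit, inferInstance, inferInstance, inferInstance, inferInstance, ?_⟩
    intro K
    rw [fx_sum, fx_unit]
    simp
  | add x y _ _ ihx ihy =>
    obtain ⟨X, Y, _, _, _, _, h⟩ := ihx
    obtain ⟨X', Y', _, _, _, _, h'⟩ := ihy
    refine ⟨X ⊕ X', Y ⊕ Y', inferInstance, inferInstance, inferInstance, inferInstance, ?_⟩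
    intro K
    rw [fx_sum, fx_sum, Pi.add_apply, h, h']
    ring
  | neg x _ ihx =>
    obtain ⟨X, Y, _, _, _, _, h⟩ := ihx
    refine ⟨Y, X, inferInstance, inferInstance, inferInstance, inferInstance, ?_⟩
    intro K
    rw [Pi.neg_apply, h]
    ring
  | mul x y _ _ ihx ihy =>
    obtain ⟨X, Y, _, _, _, _, h⟩ := ihx
    obtain ⟨X', Y', _, _, _, _, h'⟩ := ihy
    refine ⟨(X × X') ⊕ (Y × Y'), (X × Y') ⊕ (Y × X'), inferInstance, inferInstance,
      inferInstance, inferInstance, ?_⟩
    intro K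
    rw [fx_sum, fx_sum, fx_prod, fx_prod, fx_prod, fx_prod, Pi.mul_apply, h, h']
    ring

/-- Good functions: conjugation invariant and satisfying all congruences. -/
def Good [Fintype G] [Fintype (Subgroup G)] (x : Subgroup G → ℤ) : Prop :=
  (∀ (g : G) (K : Subgroup G), x (cj g K) = x K) ∧
    ∀ C : Subgroup G → Prop, CC C → (Nat.card G : ℤ) ∣ ∑ V : Subgroup G, TT C V * x V

theorem good_of_mem [Fintype G] [Fintype (Subgroup G)] (x : Subgroup G → ℤ) (hx : x ∈ BG G) :
    Good x := by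
  obtain ⟨X, Y, _, _, _, _, h⟩ := BG_rep x hx
  constructor
  · intro g K
    rw [h, h, fx_cj, fx_cj]
  · intro C hC
    have h1 := dvd_sub (congr_GSet C hC X) (congr_GSet C hC Y)
    have e : ∑ V : Subgroup G, TT C V * x V
        = ∑ V : Subgroup G, TT C V * fx X V - ∑ V : Subgroup G, TT C V * fx Y V := by
      rw [← Finset.sum_sub_distrib]
      apply Finset.sum_congr rfl
      intro V _
      rw [h]; ring
    rw [e]
    exact h1

end GSet

end Pool.Agent.Helper542
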