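import Mathlib
import Pool.Agent.Helper542.Base

set_option autoImplicit false

namespace Pool.Agent.Helper542

open Subgroup
open scoped Classical

variable {G : Type} [Group G]

lemma mk_fixed_iff (L K : Subgroup G) (g : G) :
    (∀ k ∈ K, k • (QuotientGroup.mk g : G ⧸ L) = QuotientGroup.mk g) ↔ K ≤ cj g L := by
  constructor
  · intro h k hk
    have h1 := h k hk
    rw [MulAction.Quotient.smul_mk, QuotientGroup.eq] at h1
    rw [mem_cj]
    have h2 : g⁻¹ * k * g = ((k • g)⁻¹ * g)⁻¹ := by rw [smul_eq_mul]; group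
    rw [h2]
    exact inv_mem h1
  · intro h k hk
    rw [MulAction.Quotient.smul_mk, QuotientGroup.eq]
    have h1 := h hk
    rw [mem_cj] at h1
    have h2 : (k • g)⁻¹ * g = (g⁻¹ * k * g)⁻¹ := by rw [smul_eq_mul]; group
    rw [h2]
    exact inv_mem h1

lemma mark_mul_card (L K : Subgroup G) :
    mark L K * (Nat.card L : ℤ) = ((Nat.card {g : G // K ≤ cj g L} : ℕ) : ℤ) := by
  unfold mark
  rw [← Nat.cast_mul, ← Nat.card_prod]
  congr 1
  symm
  apply Nat.card_congr
  let e : G ≃ (G ⧸ L) × L := Subgroup.groupEquivQuotientProdSubgroup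
  have he : ∀ g : G, (e g).1 = QuotientGroup.mk g := fun g => rfl
  refine (Equiv.subtypeEquiv e (q := fun z : (G ⧸ L) × L => ∀ k ∈ K, k • z.1 = z.1) ?_).trans ?_
  · intro g
    rw [← mk_fixed_iff, he]
  · exact Equiv.prodSubtypeFstEquivSubtypeProd (p := fun x : G ⧸ L => ∀ k ∈ K, k • x = x)

lemma mark_ne_zero_iff [Finite G] (L K : Subgroup G) : mark L K ≠ 0 ↔ ∃ g : G, K ≤ cj g L := by
  have h1 := mark_mul_card L K
  have hL : (Nat.card L : ℤ) ≠ 0 := by
    exact_mod_cast (Nat.card_pos (α := L)).ne'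
  constructor
  · intro h
    have h2 : ((Nat.card {g : G // K ≤ cj g L} : ℕ) : ℤ) ≠ 0 := by
      rw [← h1]; exact mul_ne_zero h hL
    have h3 : Nat.card {g : G // K ≤ cj g L} ≠ 0 := by exact_mod_cast h2
    obtain ⟨⟨g, hg⟩⟩ := (Nat.card_ne_zero.mp h3).1
    exact ⟨g, hg⟩
  · rintro ⟨g, hg⟩ h
    rw [h, zero_mul] at h1
    have h3 : Nat.card {g : G // K ≤ cj g L} = 0 := by exact_mod_cast h1.symm
    have : Nonempty {g : G // K ≤ cj g L} := ⟨⟨g, hg⟩⟩
    exact (Nat.card_pos (α := {g : G // K ≤ cj g L})).ne' h3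

lemma mark_nonneg (L K : Subgroup G) : 0 ≤ mark L K := by
  unfold mark; positivity

lemma mark_self_pos [Finite G] (L : Subgroup G) : 0 < mark L L := by
  have h := (mark_ne_zero_iff L L).mpr ⟨1, by rw [cj_one]⟩
  exact lt_of_le_of_ne (mark_nonneg L L) (Ne.symm h)

/-- If `K` has order at least the order of `L` and the mark is nonzero then they are conjugate. -/
lemma cj_of_mark_ne_zero [Finite G] {L K : Subgroup G} (h : mark L K ≠ 0)
    (hc : Nat.card L ≤ Nat.card K) : Cj L K := by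
  obtain ⟨g, hg⟩ := (mark_ne_zero_iff L K).mp h
  refine ⟨g, ?_⟩
  exact Subgroup.eq_of_le_of_card_ge hg (by rw [card_cj]; exact hc)

lemma card_le_of_mark_ne_zero [Finite G] {L K : Subgroup G} (h : mark L K ≠ 0) :
    Nat.card K ≤ Nat.card L := by
  obtain ⟨g, hg⟩ := (mark_ne_zero_iff L K).mp h
  rw [← card_cj g L]
  exact Subgroup.card_le_of_le hg

/-- class size -/
noncomputable def cl (K : Subgroup G) : ℕ := Nat.card {K' : Subgroup G // Cj K K'}

lemma cl_pos [Finite G] (K : Subgroup G) : 0 < cl K := by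
  have : Nonempty {K' : Subgroup G // Cj K K'} := ⟨⟨K, Cj.refl K⟩⟩
  exact Nat.card_pos

lemma cl_mul [Finite G] (K : Subgroup G) :
    (cl K : ℤ) * (mark K K * (Nat.card K : ℤ)) = (Nat.card G : ℤ) := by
  rw [mark_mul_card, cl, ← Nat.cast_mul, ← Nat.card_prod]
  congr 1
  apply Nat.card_congr
  have h : ∀ K' : {K' : Subgroup G // Cj K K'}, ∃ g : G, K'.1 = cj g K := fun K' => K'.2
  choose s hs using h
  exact
    { toFun := fun z => s z.1 * z.2.1
      invFun := fun g => (⟨cj g K, ⟨g, rfl⟩⟩, ⟨(s ⟨cj g K, ⟨g, rfl⟩⟩)⁻¹ * g, by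
        rw [← cj_cj, ← cj_le_cj (g := s ⟨cj g K, ⟨g, rfl⟩⟩), cj_cj_inv, ← hs]⟩)
      left_inv := by
        rintro ⟨⟨K', hK'⟩, ⟨g, hg⟩⟩
        have hg' : cj g K = K := cj_eq_of_le hg
        have h1 : cj (s ⟨K', hK'⟩ * g) K = K' := by
          rw [← cj_cj, hg', ← hs]
        have h2 : (⟨cj (s ⟨K', hK'⟩ * g) K, ⟨_, rfl⟩⟩ : {K' : Subgroup G // Cj K K'})
          = ⟨K', hK'⟩ := Subtype.ext h1
        apply Prod.ext
        · exact h2
        · apply Subtype.ext
          show (s ⟨cj (s ⟨K', hK'⟩ * g) K, ⟨_, rfl⟩⟩)⁻¹ * (s ⟨K', hK'⟩ * g) = g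
          rw [h2]; group
      right_inv := by
        intro g
        show s _ * ((s _)⁻¹ * g) = g
        group }

lemma cl_cj [Finite G] (g : G) (K : Subgroup G) : cl (cj g K) = cl K := by
  unfold cl
  congr 1
  have : ∀ K' : Subgroup G, Cj (cj g K) K' ↔ Cj K K' := by
    intro K'
    constructor
    · intro h; exact Cj.trans ⟨g, rfl⟩ h
    · intro h; exact Cj.trans (Cj.symm ⟨g, rfl⟩) h
  simp_rw [this]

/-! ### weights -/

section W

variable [Fintype G]

lemma tt_cj (h : G) (L V : Subgroup G) : tt (cj h L) (cj h V) = tt L V := by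
  unfold tt
  symm
  apply Finset.card_bij (fun g _ => h * g * h⁻¹)
  · intro g hg
    rw [Finset.mem_filter] at hg ⊢
    refine ⟨Finset.mem_univ _, ?_, ?_⟩
    · rw [cj_cj]
      have : h * g * h⁻¹ * h = h * g := by group
      rw [this, ← cj_cj, hg.2.1]
    · rw [← cj_zpowers, ← cj_sup, hg.2.2]
  · intro a _ b _ hab
    have := mul_right_cancel hab
    exact mul_left_cancel this
  · intro g hg
    rw [Finset.mem_filter] at hg
    refine ⟨h⁻¹ * g * h, ?_, by group⟩
    rw [Finset.mem_filter]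
    refine ⟨Finset.mem_univ _, ?_, ?_⟩
    · apply cj_injective h
      rw [cj_cj]
      have : h * (h⁻¹ * g * h) = g * h := by group
      rw [this, ← cj_cj, hg.2.1]
    · apply cj_injective h
      rw [cj_sup, cj_zpowers]
      have : h * (h⁻¹ * g * h) * h⁻¹ = g := by group
      rw [this, hg.2.2]

lemma TT_cj [Fintype (Subgroup G)] {C : Subgroup G → Prop} (hC : CC C) (h : G)
    (V : Subgroup G) : TT C (cj h V) = TT C V := by
  unfold TT
  symm
  apply Fintype.sum_equiv ⟨cj h, cj h⁻¹, cj_inv_cj h, cj_cj_inv h⟩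
  intro L
  show _ = (if C (cj h L) then (tt (cj h L) (cj h V) : ℤ) else 0)
  rw [tt_cj, hC.iff]

lemma tt_ne_zero {L V : Subgroup G} (h : tt L V ≠ 0) :
    ∃ g : G, cj g L = L ∧ L ⊔ Subgroup.zpowers g = V := by
  unfold tt at h
  rw [Finset.card_ne_zero] at h
  obtain ⟨g, hg⟩ := h
  rw [Finset.mem_filter] at hg
  exact ⟨g, hg.2⟩

lemma tt_le {L V : Subgroup G} (h : tt L V ≠ 0) : L ≤ V := by
  obtain ⟨g, _, rfl⟩ := tt_ne_zero h
  exact le_sup_left

lemma tt_self (L : Subgroup G) : tt L L = Nat.card L := by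
  unfold tt
  rw [Nat.card_eq_fintype_card, Fintype.card_subtype]
  congr 1
  apply Finset.filter_congr
  intro g _
  constructor
  · rintro ⟨_, h⟩
    rw [sup_eq_left, Subgroup.zpowers_le] at h
    exact h
  · intro h
    refine ⟨cj_of_mem h, ?_⟩
    rw [sup_eq_left, Subgroup.zpowers_le]
    exact h

end W

/-! ### indicator functions -/

/-- indicator of the class of `K` -/
noncomputable def ind (K : Subgroup G) : Subgroup G → ℤ := fun V => if Cj K V then 1 else 0

lemma ind_self (K : Subgroup G) : ind K K = 1 := if_pos (Cj.refl K)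

lemma ind_cj (K : Subgroup G) (g : G) (V : Subgroup G) : ind K (cj g V) = ind K V := by
  unfold ind
  congr 1
  apply propext
  constructor
  · intro h; exact h.trans (Cj.symm ⟨g, rfl⟩)
  · intro h; exact h.trans ⟨g, rfl⟩

lemma sum_mul_class [Fintype (Subgroup G)] (K : Subgroup G) (f : Subgroup G → ℤ)
    (hf : ∀ (g : G), f (cj g K) = f K) :
    ∑ V : Subgroup G, f V * ind K V = (cl K : ℤ) * f K := by
  unfold ind
  simp_rw [mul_ite, mul_one, mul_zero]
  rw [← Finset.sum_filter]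
  have h1 : ∀ V ∈ Finset.univ.filter (fun V : Subgroup G => Cj K V), f V = f K := by
    intro V hV
    rw [Finset.mem_filter] at hV
    obtain ⟨_, g, rfl⟩ := hV
    exact hf g
  rw [Finset.sum_congr rfl h1, Finset.sum_const, cl, Nat.card_eq_fintype_card,
    Fintype.card_subtype]
  simp

end Pool.Agent.Helper542
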