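import Mathlib
import Pool.Agent.Helper542.Marks

set_option autoImplicit false

namespace Pool.Agent.Helper542

open Subgroup
open scoped Classical

/-- number of elements generating modulo a normal subgroup -/
lemma card_gen_quot {V : Type*} [Group V] [Finite V] {p : ℕ} (hp : p.Prime) (hV : IsPGroup p V)
    (L : Subgroup V) [L.Normal] (hL : L ≠ ⊤) (g0 : V) (hg0 : L ⊔ Subgroup.zpowers g0 = ⊤) :
    p * Nat.card {v : V // L ⊔ Subgroup.zpowers v = ⊤} = (p - 1) * Nat.card V := by
  have hpf := Fact.mk hp
  let π := QuotientGroup.mk' L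
  have hπ : Function.Surjective π := QuotientGroup.mk'_surjective L
  have key : ∀ v : V, L ⊔ Subgroup.zpowers v = ⊤ ↔ Subgroup.zpowers (π v) = ⊤ := by
    intro v
    have h1 : (Subgroup.zpowers (π v)).comap π = L ⊔ Subgroup.zpowers v := by
      rw [← MonoidHom.map_zpowers, Subgroup.comap_map_eq, QuotientGroup.ker_mk', sup_comm]
    rw [← h1]
    constructor
    · intro h
      have := Subgroup.map_comap_eq_self_of_surjective hπ (Subgroup.zpowers (π v))
      rw [← this, h, Subgroup.map_top_of_surjective π hπ]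
    · intro h
      rw [h, Subgroup.comap_top]
  have hcyc : IsCyclic (V ⧸ L) := isCyclic_iff_exists_zpowers_eq_top.mpr ⟨π g0, (key g0).mp hg0⟩
  obtain ⟨k, hk⟩ := IsPGroup.iff_card.mp (hV.to_quotient L)
  have hk0 : k ≠ 0 := by
    rintro rfl
    rw [pow_zero, ← Subgroup.index_eq_card, Subgroup.index_eq_one] at hk
    exact hL hk
  have := Fintype.ofFinite (V ⧸ L)
  have h2 : Nat.card {q : V ⧸ L // Subgroup.zpowers q = ⊤} = Nat.totient (p ^ k) := by
    have h3 := IsCyclic.card_orderOf_eq_totient (α := V ⧸ L) (d := Fintype.card (V ⧸ L)) dvd_rfl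
    rw [← Nat.card_eq_fintype_card, hk] at h3
    rw [← h3, Nat.card_eq_fintype_card, Fintype.card_subtype]
    congr 1
    apply Finset.filter_congr
    intro q _
    rw [← hk]
    constructor
    · intro h
      rw [← Nat.card_zpowers, h]; simp
    · intro h
      apply Subgroup.eq_top_of_card_eq
      rw [Nat.card_zpowers, h]
  have h4 : Nat.card {v : V // L ⊔ Subgroup.zpowers v = ⊤}
      = Nat.card {q : V ⧸ L // Subgroup.zpowers q = ⊤} * Nat.card L := by
    rw [← Nat.card_prod]
    apply Nat.card_congr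
    let e : V ≃ (V ⧸ L) × L := Subgroup.groupEquivQuotientProdSubgroup
    refine (Equiv.subtypeEquiv e (q := fun z : (V ⧸ L) × L => Subgroup.zpowers z.1 = ⊤) ?_).trans ?_
    · intro g
      exact key g
    · exact Equiv.prodSubtypeFstEquivSubtypeProd (p := fun q : V ⧸ L => Subgroup.zpowers q = ⊤)
  rw [h4, h2, Subgroup.card_eq_card_quotient_mul_card_subgroup L, hk]
  obtain ⟨k', rfl⟩ := Nat.exists_eq_succ_of_ne_zero hk0
  rw [Nat.succ_eq_add_one, Nat.totient_prime_pow_succ hp]
  ring

section

variable {G : Type} [Group G] [Fintype G]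

/-- The weight of a proper cyclic extension. -/
lemma tt_count {p : ℕ} (hp : p.Prime) (hG : IsPGroup p G) {L V : Subgroup G} (hLV : L ≠ V)
    (h : tt L V ≠ 0) : p * tt L V = (p - 1) * Nat.card V := by
  obtain ⟨g0, hg0, hg0V⟩ := tt_ne_zero h
  have hLle : L ≤ V := tt_le h
  have hg0mem : g0 ∈ V := by
    rw [← hg0V]; exact Subgroup.mem_sup_right (Subgroup.mem_zpowers g0)
  -- V normalizes L
  have hnorm : ∀ v ∈ V, cj v L = L := by
    let S : Subgroup G :=
      { carrier := {v | cj v L = L}
        one_mem' := cj_one L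
        mul_mem' := by
          intro a b ha hb
          show cj (a * b) L = L
          rw [← cj_cj, show cj b L = L from hb, show cj a L = L from ha]
        inv_mem' := by
          intro a ha
          show cj a⁻¹ L = L
          have := cj_inv_cj a L
          rwa [show cj a L = L from ha] at this }
    have : V ≤ S := by
      rw [← hg0V]
      apply sup_le
      · intro l hl
        exact cj_of_mem hl
      · rw [Subgroup.zpowers_le]
        exact hg0
    intro v hv
    exact this hv
  have hn : (L.subgroupOf V).Normal := by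
    constructor
    intro n hn v
    rw [Subgroup.mem_subgroupOf] at hn ⊢
    have h1 := (conj_mem_cj (g := (v : G)) (K := L) (x := (n : G))).mpr hn
    rw [hnorm v v.2] at h1
    exact h1
  have key : ∀ v : V, L ⊔ Subgroup.zpowers (v : G) = V
      ↔ L.subgroupOf V ⊔ Subgroup.zpowers v = ⊤ := by
    intro v
    have h1 : (L.subgroupOf V ⊔ Subgroup.zpowers v).map V.subtype
        = L ⊔ Subgroup.zpowers (v : G) := by
      rw [Subgroup.map_sup, MonoidHom.map_zpowers]
      have : (L.subgroupOf V).map V.subtype = L := by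
        rw [Subgroup.subgroupOf_map_subtype]
        exact inf_eq_left.mpr hLle
      rw [this]; rfl
    have h2 : (⊤ : Subgroup V).map V.subtype = V := by
      rw [← MonoidHom.range_eq_map, Subgroup.range_subtype]
    constructor
    · intro h3
      apply Subgroup.map_injective V.subtype_injective
      rw [h1, h2, h3]
    · intro h3
      rw [← h1, h3, h2]
  have hne : L.subgroupOf V ≠ ⊤ := by
    intro h1
    rw [Subgroup.subgroupOf_eq_top] at h1
    exact hLV (le_antisymm hLle h1)
  have main := card_gen_quot hp (hG.to_subgroup V) (L.subgroupOf V) hne ⟨g0, hg0mem⟩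
    ((key ⟨g0, hg0mem⟩).mp hg0V)
  rw [← main]
  congr 1
  unfold tt
  rw [← Fintype.card_subtype, ← Nat.card_eq_fintype_card]
  apply Nat.card_congr
  exact
    { toFun := fun g => ⟨⟨g.1, (le_of_eq g.2.2)
        (Subgroup.mem_sup_right (Subgroup.mem_zpowers g.1))⟩, (key _).mp g.2.2⟩
      invFun := fun v => ⟨v.1.1, hnorm _ v.1.2, (key _).mpr v.2⟩
      left_inv := fun g => rfl
      right_inv := fun v => rfl }

lemma normal_of_card_mul {V : Type*} [Group V] [Finite V] {p : ℕ} (hp : p.Prime)
    (hV : IsPGroup p V) (L : Subgroup V) (hL : L.index = p) : L.Normal := by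
  apply Subgroup.normal_of_index_eq_minFac_card
  have := Fact.mk hp
  obtain ⟨k, hk⟩ := IsPGroup.iff_card.mp hV
  rw [hL, hk]
  have hk0 : k ≠ 0 := by
    rintro rfl
    have h1 : L.index ∣ Nat.card V := Subgroup.index_dvd_card L
    rw [hL, hk, pow_zero, Nat.dvd_one] at h1
    exact hp.one_lt.ne' h1
  rw [hp.pow_minFac hk0]

lemma tt_index_p {p : ℕ} (hp : p.Prime) (hG : IsPGroup p G) {L V : Subgroup G} (hLV : L ≤ V)
    (hc : p * Nat.card L = Nat.card V) : tt L V ≠ 0 := by
  have hne : ¬ V ≤ L := by
    intro h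
    have h1 := Subgroup.card_le_of_le h
    rw [← hc] at h1
    have h2 : 0 < Nat.card L := Nat.card_pos
    have h3 := hp.two_le
    nlinarith
  obtain ⟨g, hgV, hgL⟩ := SetLike.not_le_iff_exists.mp hne
  have hidx : (L.subgroupOf V).index = p := by
    have h1 := (L.subgroupOf V).card_mul_index
    have h2 : Nat.card (L.subgroupOf V) = Nat.card L :=
      Nat.card_congr (Subgroup.subgroupOfEquivOfLe hLV).toEquiv
    rw [h2, ← hc, mul_comm p] at h1
    exact Nat.eq_of_mul_eq_mul_left Nat.card_pos h1
  have hn : (L.subgroupOf V).Normal := normal_of_card_mul hp (hG.to_subgroup V) _ hidx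
  have hcj : cj g L = L := by
    apply cj_eq_of_le
    intro x hx
    rw [mem_cj]
    have h1 := hn.conj_mem ⟨x, hLV hx⟩ (by rw [Subgroup.mem_subgroupOf]; exact hx)
      (⟨g, hgV⟩⁻¹ : V)
    rw [Subgroup.mem_subgroupOf] at h1
    simpa using h1
  have hsup : L ⊔ Subgroup.zpowers g = V := by
    apply Subgroup.eq_of_le_of_card_ge
    · exact sup_le hLV (by rw [Subgroup.zpowers_le]; exact hgV)
    · rw [← hc]
      have hlt : L < L ⊔ Subgroup.zpowers g := by
        refine lt_of_le_of_ne le_sup_left ?_
        intro h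
        apply hgL
        rw [h]
        exact Subgroup.mem_sup_right (Subgroup.mem_zpowers g)
      have h1 := Subgroup.relIndex_mul_relIndex ⊥ L (L ⊔ Subgroup.zpowers g) bot_le hlt.le
      rw [Subgroup.relIndex_bot_left, Subgroup.relIndex_bot_left] at h1
      have := Fact.mk hp
      obtain ⟨k, hk⟩ := IsPGroup.iff_card.mp (hG.to_subgroup (L ⊔ Subgroup.zpowers g))
      have h2 : L.relIndex (L ⊔ Subgroup.zpowers g) ∣ p ^ k := by
        rw [← hk, ← h1]; exact Dvd.intro_left _ rfl
      obtain ⟨j, _, hj⟩ := (Nat.dvd_prime_pow hp).mp h2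
      have hj0 : j ≠ 0 := by
        rintro rfl
        rw [pow_zero, Subgroup.relIndex_eq_one] at hj
        exact absurd hj (not_le_of_gt hlt)
      rw [hj] at h1
      rw [← h1, mul_comm]
      apply Nat.mul_le_mul_left
      calc p = p ^ 1 := (pow_one p).symm
        _ ≤ p ^ j := Nat.pow_le_pow_right hp.pos (Nat.one_le_iff_ne_zero.mpr hj0)
  intro h
  unfold tt at h
  rw [Finset.card_eq_zero] at h
  have : g ∈ Finset.univ.filter (fun g : G => cj g L = L ∧ L ⊔ Subgroup.zpowers g = V) := by
    rw [Finset.mem_filter]; exact ⟨Finset.mem_univ _, hcj, hsup⟩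
  rw [h] at this
  exact absurd this (Finset.notMem_empty _)

end

end Pool.Agent.Helper542
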