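import Mathlib

set_option autoImplicit false

namespace Pool.Agent.Helper542

open Subgroup
open scoped commutatorElement

lemma card_ge_of_comm {X : Type*} [Group X] [Finite X] (u v z : X) (huv : u * v = z * (v * u))
    (hz : ∀ x : X, z * x = x * z) : (orderOf z) ^ 3 ≤ Nat.card X := by
  have hzc : ∀ (r : ℕ) (x : X), z ^ r * x = x * z ^ r := by
    intro r x
    exact ((show Commute z x from hz x).pow_left r)
  have h1 : ∀ r : ℕ, u ^ r * v = z ^ r * (v * u ^ r) := by
    intro r
    induction r with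
    | zero => simp
    | succ r ih =>
      calc u ^ (r + 1) * v = u ^ r * (u * v) := by rw [pow_succ]; group
        _ = u ^ r * (z * (v * u)) := by rw [huv]
        _ = (u ^ r * z) * (v * u) := by group
        _ = (z * u ^ r) * (v * u) := by rw [hz]
        _ = z * (u ^ r * v) * u := by group
        _ = z * (z ^ r * (v * u ^ r)) * u := by rw [ih]
        _ = z ^ (r + 1) * (v * u ^ (r + 1)) := by rw [pow_succ' z r, pow_succ u r]; group
  have h2 : ∀ s : ℕ, u * v ^ s = z ^ s * (v ^ s * u) := by
    intro s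
    induction s with
    | zero => simp
    | succ s ih =>
      calc u * v ^ (s + 1) = (u * v ^ s) * v := by rw [pow_succ]; group
        _ = z ^ s * v ^ s * (u * v) := by rw [ih]; group
        _ = z ^ s * v ^ s * (z * (v * u)) := by rw [huv]
        _ = z ^ s * (v ^ s * z) * (v * u) := by group
        _ = z ^ s * (z * v ^ s) * (v * u) := by rw [hz]
        _ = z ^ (s + 1) * (v ^ (s + 1) * u) := by rw [pow_succ z s, pow_succ v s]; group
  let f : Fin (orderOf z) × Fin (orderOf z) × Fin (orderOf z) → X :=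
    fun a => u ^ (a.1 : ℕ) * v ^ (a.2.1 : ℕ) * z ^ (a.2.2 : ℕ)
  have hf : Function.Injective f := by
    rintro ⟨r, s, t⟩ ⟨r', s', t'⟩ hab
    have hab' : u ^ (r : ℕ) * v ^ (s : ℕ) * z ^ (t : ℕ)
      = u ^ (r' : ℕ) * v ^ (s' : ℕ) * z ^ (t' : ℕ) := hab
    have key : ∀ r s t : ℕ, (u ^ r * v ^ s * z ^ t) * v = z ^ r * (v * (u ^ r * v ^ s * z ^ t)) := by
      intro r s t
      calc (u ^ r * v ^ s * z ^ t) * v = u ^ r * v ^ s * (z ^ t * v) := by group
        _ = u ^ r * v ^ s * (v * z ^ t) := by rw [hzc]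
        _ = (u ^ r * v) * (v ^ s * z ^ t) := by group
        _ = (z ^ r * (v * u ^ r)) * (v ^ s * z ^ t) := by rw [h1]
        _ = _ := by group
    have e1 : z ^ (r : ℕ) = z ^ (r' : ℕ) := by
      have k1 := key r s t
      have k2 := key r' s' t'
      rw [← hab', k1] at k2
      exact mul_right_cancel k2
    have e2 : (r : ℕ) = r' := pow_injOn_Iio_orderOf r.2 r'.2 e1
    have hab2 : v ^ (s : ℕ) * z ^ (t : ℕ) = v ^ (s' : ℕ) * z ^ (t' : ℕ) := by
      rw [e2, mul_assoc, mul_assoc] at hab'
      exact mul_left_cancel hab'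
    have key2 : ∀ s t : ℕ, u * (v ^ s * z ^ t) = z ^ s * ((v ^ s * z ^ t) * u) := by
      intro s t
      calc u * (v ^ s * z ^ t) = (u * v ^ s) * z ^ t := by group
        _ = z ^ s * (v ^ s * u) * z ^ t := by rw [h2]
        _ = z ^ s * v ^ s * (u * z ^ t) := by group
        _ = z ^ s * v ^ s * (z ^ t * u) := by rw [hzc t u]
        _ = _ := by group
    have e3 : z ^ (s : ℕ) = z ^ (s' : ℕ) := by
      have k1 := key2 s t
      have k2 := key2 s' t'
      rw [← hab2, k1] at k2
      exact mul_right_cancel k2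
    have e4 : (s : ℕ) = s' := pow_injOn_Iio_orderOf s.2 s'.2 e3
    have e5 : z ^ (t : ℕ) = z ^ (t' : ℕ) := by
      rw [e4] at hab2
      exact mul_left_cancel hab2
    have e6 : (t : ℕ) = t' := pow_injOn_Iio_orderOf t.2 t'.2 e5
    ext <;> assumption
  have := Nat.card_le_card_of_injective f hf
  rw [Nat.card_prod, Nat.card_prod, Nat.card_eq_fintype_card (α := Fin (orderOf z)),
    Fintype.card_fin] at this
  calc (orderOf z) ^ 3 = orderOf z * (orderOf z * orderOf z) := by ring
    _ ≤ _ := this

/-- Lower bound for the order of a `p`-group whose last lower central term is cyclic. -/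
theorem lower_bound {X : Type*} [Group X] [Finite X] {p : ℕ} (hp : p.Prime) (hX : IsPGroup p X)
    (c : ℕ) (w : X) (hw : (⊤ : Subgroup X).lowerCentralSeries (c + 1) = Subgroup.zpowers w)
    (hc : (⊤ : Subgroup X).lowerCentralSeries (c + 2) = ⊥) :
    (orderOf w) ^ 3 ≤ Nat.card X := by
  have hcen : ∀ z ∈ (⊤ : Subgroup X).lowerCentralSeries (c + 1), ∀ x : X, z * x = x * z := by
    intro z hz x
    have h1 : ⁅z, x⁆ ∈ (⊤ : Subgroup X).lowerCentralSeries (c + 2) := by
      rw [Subgroup.lowerCentralSeries_succ]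
      exact Subgroup.commutator_mem_commutator hz (Subgroup.mem_top x)
    rw [hc, Subgroup.mem_bot, commutatorElement_eq_one_iff_mul_comm] at h1
    exact h1
  obtain ⟨k, hk⟩ : ∃ k, orderOf w = p ^ k := by
    have := Fact.mk hp
    exact (IsPGroup.iff_orderOf.mp hX) w
  by_cases hw1 : w = 1
  · rw [hw1, orderOf_one, one_pow]
    exact Nat.one_le_iff_ne_zero.mpr Nat.card_pos.ne'
  -- find a commutator that generates
  have hex : ∃ u v : X, u ∈ (⊤ : Subgroup X).lowerCentralSeries c ∧
      Subgroup.zpowers ⁅u, v⁆ = Subgroup.zpowers w := by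
    by_contra hcon
    push Not at hcon
    have hall : ∀ u ∈ (⊤ : Subgroup X).lowerCentralSeries c, ∀ v ∈ (⊤ : Subgroup X),
        ⁅u, v⁆ ∈ Subgroup.zpowers (w ^ p) := by
      intro u hu v _
      have hm : ⁅u, v⁆ ∈ Subgroup.zpowers w := by
        rw [← hw, Subgroup.lowerCentralSeries_succ]
        exact Subgroup.commutator_mem_commutator hu (Subgroup.mem_top v)
      obtain ⟨i, hi⟩ := (mem_powers_iff_mem_zpowers).mpr hm
      have hi' : w ^ i = ⁅u, v⁆ := hi
      by_cases hpi : p ∣ i
      · obtain ⟨j, rfl⟩ := hpi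
        rw [← hi', pow_mul]
        exact pow_mem (Subgroup.mem_zpowers _) _
      · exfalso
        apply hcon u v hu
        rw [← hi']
        apply le_antisymm
        · rw [Subgroup.zpowers_le]
          exact pow_mem (Subgroup.mem_zpowers _) _
        · have hco : (orderOf w).Coprime i := by
            rw [hk]
            exact Nat.Coprime.pow_left k ((Nat.Prime.coprime_iff_not_dvd hp).mpr hpi)
          have h1 : orderOf (w ^ i) = orderOf w := by
            rw [orderOf_pow, hco.gcd_eq_one, Nat.div_one]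
          have h2 : Subgroup.zpowers (w ^ i) ≤ Subgroup.zpowers w := by
            rw [Subgroup.zpowers_le]
            exact pow_mem (Subgroup.mem_zpowers _) _
          have h3 := Subgroup.eq_of_le_of_card_ge h2 (by rw [Nat.card_zpowers, Nat.card_zpowers, h1])
          rw [h3]
    have hle : Subgroup.zpowers w ≤ Subgroup.zpowers (w ^ p) := by
      rw [← hw, Subgroup.lowerCentralSeries_succ, Subgroup.commutator_le]
      exact hall
    have h4 := Subgroup.card_le_of_le hle
    rw [Nat.card_zpowers, Nat.card_zpowers, orderOf_pow, hk] at h4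
    have hk0 : k ≠ 0 := by
      rintro rfl
      rw [pow_zero] at hk
      exact hw1 (orderOf_eq_one_iff.mp hk)
    obtain ⟨k', rfl⟩ := Nat.exists_eq_succ_of_ne_zero hk0
    have h5 : (p ^ (k' + 1)).gcd p = p := Nat.gcd_eq_right (dvd_pow_self p (Nat.succ_ne_zero k'))
    rw [Nat.succ_eq_add_one, h5, pow_succ, Nat.mul_div_cancel _ hp.pos] at h4
    have h6 : p ^ k' * 1 < p ^ k' * p :=
      Nat.mul_lt_mul_of_pos_left hp.one_lt (pow_pos hp.pos k')
    omega
  obtain ⟨u, v, hu, huv⟩ := hex
  have hz : ∀ x : X, ⁅u, v⁆ * x = x * ⁅u, v⁆ := by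
    apply hcen
    rw [Subgroup.lowerCentralSeries_succ]
    exact Subgroup.commutator_mem_commutator hu (Subgroup.mem_top v)
  have h7 := card_ge_of_comm u v ⁅u, v⁆ (by rw [commutatorElement_def]; group) hz
  have h8 : orderOf ⁅u, v⁆ = orderOf w := by
    rw [← Nat.card_zpowers, huv, Nat.card_zpowers]
  rwa [h8] at h7

end Pool.Agent.Helper542
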