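import Mathlib

set_option autoImplicit false

namespace Pool.Agent.Helper542

open Subgroup
open scoped commutatorElement

section Split

variable {H : Type*} [Group H]

/-- Iterated commutator of a subgroup with the whole group. -/
def iterComm (M : Subgroup H) : ℕ → Subgroup H
  | 0 => M
  | n + 1 => ⁅iterComm M n, (⊤ : Subgroup H)⁆

/-- The relative upper central series (as a predicate) inside the centralizer of `M`. -/
def CP (M : Subgroup H) : ℕ → H → Prop
  | 0, x => x ∈ M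
  | l + 1, x => x ∈ Subgroup.centralizer (M : Set H) ∧ ∀ a : H, CP M l ⁅a, x⁆

/-- The splitting map. -/
def dl (h : H) (q : ℕ) : ℕ → H → H
  | 0, x => x
  | l + 1, x => (dl h q l ⁅h, x⁆) ^ q

lemma comm_mul_right' (a x x' : H) : ⁅a, x * x'⁆ = ⁅a, x⁆ * (x * ⁅a, x'⁆ * x⁻¹) := by
  simp only [commutatorElement_def]; group

lemma comm_mul_left' (a b x : H) : ⁅a * b, x⁆ = (a * ⁅b, x⁆ * a⁻¹) * ⁅a, x⁆ := by
  simp only [commutatorElement_def]; group

lemma comm_conj' (a b x : H) : ⁅a, b * x * b⁻¹⁆ = b * ⁅b⁻¹ * a * b, x⁆ * b⁻¹ := by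
  simp only [commutatorElement_def]; group

lemma CP_conj (M : Subgroup H) [hM : M.Normal] (l : ℕ) :
    ∀ (x b : H), CP M l x → CP M l (b * x * b⁻¹) := by
  induction l with
  | zero => intro x b hx; exact hM.conj_mem x hx b
  | succ l ih =>
    intro x b hx
    refine ⟨(inferInstance : (Subgroup.centralizer (M : Set H)).Normal).conj_mem x hx.1 b, ?_⟩
    intro a
    rw [comm_conj']
    exact ih _ _ (hx.2 _)

lemma CP_mul (M : Subgroup H) [hM : M.Normal] (l : ℕ) :
    ∀ (x x' : H), CP M l x → CP M l x' → CP M l (x * x') := by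
  induction l with
  | zero => intro x x' hx hx'; exact mul_mem hx hx'
  | succ l ih =>
    intro x x' hx hx'
    refine ⟨mul_mem hx.1 hx'.1, ?_⟩
    intro a
    rw [comm_mul_right']
    exact ih _ _ (hx.2 _) (CP_conj M l _ _ (hx'.2 _))

lemma CP_of_mem (M : Subgroup H) [hM : M.Normal] (hcomm : ∀ m ∈ M, ∀ m' ∈ M, m * m' = m' * m)
    (l : ℕ) : ∀ x ∈ M, CP M l x := by
  induction l with
  | zero => intro x hx; exact hx
  | succ l ih =>
    intro x hx
    refine ⟨?_, ?_⟩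
    · rw [Subgroup.mem_centralizer_iff]
      intro m hm
      exact hcomm m hm x hx
    · intro a
      apply ih
      rw [commutatorElement_def]
      exact mul_mem (hM.conj_mem x hx a) (inv_mem hx)

lemma CP_centralizer (M : Subgroup H) (hcomm : ∀ m ∈ M, ∀ m' ∈ M, m * m' = m' * m)
    (l : ℕ) (x : H) (hx : CP M l x) : x ∈ Subgroup.centralizer (M : Set H) := by
  cases l with
  | zero =>
    rw [Subgroup.mem_centralizer_iff]
    intro m hm
    exact hcomm m hm x hx
  | succ l => exact hx.1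

lemma CP_top (M : Subgroup H) [hM : M.Normal] (κ : ℕ)
    (hκ : (⊤ : Subgroup H).lowerCentralSeries κ ≤ M) (l : ℕ) (hl : l ≤ κ) :
    ∀ x ∈ Subgroup.centralizer (M : Set H), x ∈ (⊤ : Subgroup H).lowerCentralSeries (κ - l) →
      CP M l x := by
  induction l with
  | zero => intro x _ hx; exact hκ (by simpa using hx)
  | succ l ih =>
    intro x hx hx'
    refine ⟨hx, fun a => ?_⟩
    apply ih (by omega)
    · have hn : (Subgroup.centralizer (M : Set H)).Normal := inferInstance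
      rw [commutatorElement_def]
      exact mul_mem (hn.conj_mem x hx a) (inv_mem hx)
    · have e : κ - l = (κ - (l + 1)) + 1 := by omega
      rw [e, ← inv_mem_iff, commutatorElement_inv]
      exact Subgroup.commutator_mem_commutator hx' (Subgroup.mem_top a)

/-- The standing data for the splitting map. -/
structure SplitData (M : Subgroup H) (h : H) (lam κ : ℕ) : Prop where
  normal : M.Normal
  comm : ∀ m ∈ M, ∀ m' ∈ M, m * m' = m' * m
  pow : ∀ m ∈ M, ⁅h, m⁆ = m ^ lam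
  abel : ∀ a b : H, ⁅a, b⁆ ∈ Subgroup.centralizer (M : Set H)
  top : ∀ x ∈ Subgroup.centralizer (M : Set H), CP M κ x

lemma centr_comm {M : Subgroup H} {x m : H} (hx : x ∈ Subgroup.centralizer (M : Set H))
    (hm : m ∈ M) : x * m = m * x := by
  rw [Subgroup.mem_centralizer_iff] at hx
  exact (hx m hm).symm

lemma centr_conj {M : Subgroup H} {x m : H} (hx : x ∈ Subgroup.centralizer (M : Set H))
    (hm : m ∈ M) : x * m * x⁻¹ = m := by
  rw [centr_comm hx hm]; group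

theorem dl_main {M : Subgroup H} {h : H} {lam κ : ℕ} (S : SplitData M h lam κ) (l : ℕ) :
    (∀ x, CP M l x → dl h (lam ^ κ) l x ∈ M) ∧
    (∀ x x', CP M l x → CP M l x' →
      dl h (lam ^ κ) l (x * x') = dl h (lam ^ κ) l x * dl h (lam ^ κ) l x') ∧
    (∀ x b, CP M l x → dl h (lam ^ κ) l (b * x * b⁻¹) = b * dl h (lam ^ κ) l x * b⁻¹) ∧
    (∀ m ∈ M, dl h (lam ^ κ) l m = m ^ ((lam * lam ^ κ) ^ l)) := by
  have := S.normal
  induction l with
  | zero =>
    refine ⟨fun x hx => hx, fun x x' _ _ => rfl, fun x b _ => rfl, fun m _ => ?_⟩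
    simp [dl]
  | succ l ih =>
    obtain ⟨ihA, ihB, ihC, ihD⟩ := ih
    set q := lam ^ κ with hq
    -- the pairing
    have hM : ∀ x, CP M (l + 1) x → ∀ a : H, dl h q l ⁅a, x⁆ ∈ M := fun x hx a => ihA _ (hx.2 a)
    have h1 : dl h q l 1 = 1 := by
      have h11 := ihB 1 1 (CP_of_mem M S.comm l 1 (one_mem M)) (CP_of_mem M S.comm l 1 (one_mem M))
      rw [mul_one] at h11
      exact (mul_eq_left.mp h11.symm)
    have e1 : ∀ x x' a : H, CP M (l + 1) x → CP M (l + 1) x' →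
        dl h q l ⁅a, x * x'⁆ = dl h q l ⁅a, x⁆ * dl h q l ⁅a, x'⁆ := by
      intro x x' a hx hx'
      rw [comm_mul_right', ihB _ _ (hx.2 a) (CP_conj M l _ _ (hx'.2 a)), ihC _ _ (hx'.2 a),
        centr_conj hx.1 (hM x' hx' a)]
    have e2 : ∀ x a b : H, CP M (l + 1) x →
        dl h q l ⁅a * b, x⁆ = (a * dl h q l ⁅b, x⁆ * a⁻¹) * dl h q l ⁅a, x⁆ := by
      intro x a b hx
      rw [comm_mul_left', ihB _ _ (CP_conj M l _ _ (hx.2 b)) (hx.2 a), ihC _ _ (hx.2 b)]
    have e3 : ∀ x, CP M (l + 1) x → ∀ m ∈ M, dl h q l ⁅m, x⁆ = 1 := by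
      intro x hx m hm
      have : ⁅m, x⁆ = 1 := by
        rw [commutatorElement_eq_one_iff_mul_comm]
        exact (centr_comm hx.1 hm).symm
      rw [this, h1]
    have e4 : ∀ x a : H, CP M (l + 1) x → a ∈ Subgroup.centralizer (M : Set H) →
        (dl h q l ⁅a, x⁆) ^ lam = dl h q l ⁅⁅h, a⁆, x⁆ := by
      intro x a hx ha
      have k1 := e2 x h a hx
      have k2 : h * a = ⁅h, a⁆ * (a * h) := by
        simp only [commutatorElement_def]; group
      have k3 := e2 x ⁅h, a⁆ (a * h) hx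
      have k4 := e2 x a h hx
      rw [centr_conj ha (hM x hx h)] at k4
      rw [← k2, centr_conj (S.abel h a) (hM x hx _), k1, k4] at k3
      have m1 := hM x hx a
      have m2 := hM x hx h
      have m3 := hM x hx ⁅h, a⁆
      have k5 : ⁅h, dl h q l ⁅a, x⁆⁆ = (dl h q l ⁅a, x⁆) ^ lam := S.pow _ m1
      rw [← k5, commutatorElement_def]
      -- k3 : h * ε(a) * h⁻¹ * ε(h) = ε(h) * ε(a) * ε([h,a])
      have k6 : h * dl h q l ⁅a, x⁆ * h⁻¹ ∈ M := S.normal.conj_mem _ m1 h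
      generalize dl h q l ⁅a, x⁆ = A at *
      generalize dl h q l ⁅h, x⁆ = B at *
      generalize dl h q l ⁅⁅h, a⁆, x⁆ = D at *
      have k7 : h * A * h⁻¹ * B = B * (h * A * h⁻¹) := S.comm _ k6 _ m2
      have k8 : h * A * h⁻¹ = A * D := by
        have : B * (h * A * h⁻¹) = B * (A * D) := by rw [← k7, k3, mul_assoc]
        exact mul_left_cancel this
      rw [k8, S.comm A m1 D m3]; group
    have e5 : ∀ s, ∀ x a : H, CP M (l + 1) x → CP M s a → (dl h q l ⁅a, x⁆) ^ (lam ^ s) = 1 := by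
      intro s
      induction s with
      | zero => intro x a hx ha; rw [e3 x hx a ha]; simp
      | succ s ihs =>
        intro x a hx ha
        rw [pow_succ', pow_mul, e4 x a hx ha.1]
        exact ihs x _ hx (ha.2 h)
    refine ⟨?_, ?_, ?_, ?_⟩
    · intro x hx
      exact pow_mem (hM x hx h) q
    · intro x x' hx hx'
      show (dl h q l ⁅h, x * x'⁆) ^ q = (dl h q l ⁅h, x⁆) ^ q * (dl h q l ⁅h, x'⁆) ^ q
      rw [e1 x x' h hx hx']
      exact (show Commute _ _ from S.comm _ (hM x hx h) _ (hM x' hx' h)).mul_pow q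
    · intro x b hx
      show (dl h q l ⁅h, b * x * b⁻¹⁆) ^ q = b * (dl h q l ⁅h, x⁆) ^ q * b⁻¹
      rw [comm_conj', ihC _ _ (hx.2 _), conj_pow]
      congr 2
      have k1 : b⁻¹ * h * b = ⁅b⁻¹, h⁆ * h := by
        simp only [commutatorElement_def]; group
      rw [k1, e2 x _ h hx, centr_conj (S.abel b⁻¹ h) (hM x hx h)]
      rw [(show Commute _ _ from S.comm _ (hM x hx h) _ (hM x hx _)).mul_pow q]
      rw [e5 κ x _ hx (S.top _ (S.abel b⁻¹ h)), mul_one]
    · intro m hm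
      show (dl h q l ⁅h, m⁆) ^ q = _
      rw [S.pow m hm, ihD _ (pow_mem hm lam), ← pow_mul, ← pow_mul]
      congr 1
      ring

lemma iterComm_cyclic (M : Subgroup H) (y : H) (d : ℕ) (hMy : M = Subgroup.zpowers y)
    (hd : ∀ a : H, ∃ r : ℤ, ⁅a, y⁆ = y ^ ((d : ℤ) * r)) (s : ℕ) :
    iterComm M s ≤ Subgroup.zpowers (y ^ (d ^ s)) := by
  induction s with
  | zero => simp [iterComm, hMy]
  | succ s ih =>
    show ⁅iterComm M s, (⊤ : Subgroup H)⁆ ≤ _
    rw [Subgroup.commutator_le]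
    intro g1 hg1 a _
    obtain ⟨i, hi⟩ := Subgroup.mem_zpowers_iff.mp (ih hg1)
    obtain ⟨r, hr⟩ := hd a
    have hay : a * y * a⁻¹ = y ^ ((d : ℤ) * r + 1) := by
      rw [zpow_add, zpow_one, ← hr, commutatorElement_def]; group
    have hg : g1 = y ^ ((d : ℤ) ^ s * i) := by
      rw [← hi, zpow_mul]; congr 1; rw [← zpow_natCast]; push_cast; rfl
    rw [Subgroup.mem_zpowers_iff]
    refine ⟨-(r * i), ?_⟩
    have h3 : ⁅g1, a⁆ = g1 * (a * g1 * a⁻¹)⁻¹ := by
      rw [commutatorElement_def]; group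
    have h4 : a * g1 * a⁻¹ = y ^ (((d : ℤ) * r + 1) * ((d : ℤ) ^ s * i)) := by
      rw [hg, ← conj_zpow, hay, ← zpow_mul]
    rw [h3, h4, hg, ← zpow_neg, ← zpow_add, ← zpow_natCast, ← zpow_mul]
    congr 1
    push_cast
    ring

/-- The key splitting lemma. -/
theorem split_lemma [Finite H] {p : ℕ} (hp : p.Prime) (M : Subgroup H) [M.Normal]
    (y : H) (hMy : M = Subgroup.zpowers y) (e : ℕ) (hMp : Nat.card M = p ^ e) (κ : ℕ)
    (hκ : (⊤ : Subgroup H).lowerCentralSeries κ ≤ M)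
    (hyp : ∀ K : Subgroup H, K.Normal → (K.relIndex M) ^ 3 ≤ K.index) :
    iterComm M (3 * ((κ + 1) * κ)) = ⊥ := by
  have hMn : M.Normal := inferInstance
  have hyM : y ∈ M := by rw [hMy]; exact Subgroup.mem_zpowers y
  have hmem : ∀ m ∈ M, ∃ i : ℕ, m = y ^ i := by
    intro m hm
    rw [hMy] at hm
    obtain ⟨i, hi⟩ := (mem_powers_iff_mem_zpowers (x := y) (y := m)).mpr hm
    exact ⟨i, hi.symm⟩
  have hord : orderOf y = p ^ e := by
    rw [← Nat.card_zpowers, ← hMy, hMp]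
  have hcomm : ∀ m ∈ M, ∀ m' ∈ M, m * m' = m' * m := by
    intro m hm m' hm'
    obtain ⟨i, rfl⟩ := hmem m hm
    obtain ⟨j, rfl⟩ := hmem m' hm'
    rw [← pow_add, ← pow_add, add_comm]
  have hcen : ∀ x : H, x * y = y * x → x ∈ Subgroup.centralizer (M : Set H) := by
    intro x hx
    rw [Subgroup.mem_centralizer_iff]
    intro m hm
    obtain ⟨i, rfl⟩ := hmem m hm
    exact ((show Commute x y from hx).pow_right i).symm
  -- conjugation acts by powers
  have hconj : ∀ a : H, ∃ i : ℕ, a * y * a⁻¹ = y ^ i := fun a => hmem _ (hMn.conj_mem y hyM a)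
  have habel : ∀ a b : H, ⁅a, b⁆ ∈ Subgroup.centralizer (M : Set H) := by
    intro a b
    apply hcen
    obtain ⟨i, hi⟩ := hconj a⁻¹
    obtain ⟨j, hj⟩ := hconj b⁻¹
    have h1 : (a⁻¹ * b⁻¹) * y * (a⁻¹ * b⁻¹)⁻¹ = y ^ (i * j) := by
      calc (a⁻¹ * b⁻¹) * y * (a⁻¹ * b⁻¹)⁻¹ = a⁻¹ * (b⁻¹ * y * b⁻¹⁻¹) * a⁻¹⁻¹ := by group
        _ = y ^ (i * j) := by rw [hj, ← conj_pow, hi, ← pow_mul]
    have h2 : (b⁻¹ * a⁻¹) * y * (b⁻¹ * a⁻¹)⁻¹ = y ^ (i * j) := by
      calc (b⁻¹ * a⁻¹) * y * (b⁻¹ * a⁻¹)⁻¹ = b⁻¹ * (a⁻¹ * y * a⁻¹⁻¹) * b⁻¹⁻¹ := by group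
        _ = y ^ (i * j) := by rw [hi, ← conj_pow, hj, ← pow_mul, mul_comm]
    have h3 : (a⁻¹ * b⁻¹) * y * (a⁻¹ * b⁻¹)⁻¹ = (b⁻¹ * a⁻¹) * y * (b⁻¹ * a⁻¹)⁻¹ := by
      rw [h1, h2]
    have h4 : (a * b * a⁻¹ * b⁻¹) * y * (a * b * a⁻¹ * b⁻¹)⁻¹ = y := by
      calc (a * b * a⁻¹ * b⁻¹) * y * (a * b * a⁻¹ * b⁻¹)⁻¹
          = (b⁻¹ * a⁻¹)⁻¹ * ((a⁻¹ * b⁻¹) * y * (a⁻¹ * b⁻¹)⁻¹) * (b⁻¹ * a⁻¹) := by group
        _ = (b⁻¹ * a⁻¹)⁻¹ * ((b⁻¹ * a⁻¹) * y * (b⁻¹ * a⁻¹)⁻¹) * (b⁻¹ * a⁻¹) := by rw [h3]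
        _ = y := by group
    rw [commutatorElement_def]
    exact mul_inv_eq_iff_eq_mul.mp h4
  -- commutators with y
  have hlam : ∀ a : H, ∃ l : ℕ, ⁅a, y⁆ = y ^ l := by
    intro a
    apply hmem
    rw [commutatorElement_def]
    exact mul_mem (hMn.conj_mem y hyM a) (inv_mem hyM)
  choose lam hlam using hlam
  obtain ⟨h, hh⟩ := Finite.exists_min (fun a : H => Nat.gcd (p ^ e) (lam a))
  set n := p ^ e with hn
  have hnpos : 0 < n := pow_pos hp.pos e
  set d := Nat.gcd n (lam h) with hd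
  have hdvd : ∀ a : H, d ∣ lam a := by
    intro a
    obtain ⟨k1, _, hk1⟩ := (Nat.dvd_prime_pow hp).mp (Nat.gcd_dvd_left n (lam h))
    obtain ⟨k2, _, hk2⟩ := (Nat.dvd_prime_pow hp).mp (Nat.gcd_dvd_left n (lam a))
    have h1 : p ^ k1 ≤ p ^ k2 := by rw [← hk1, ← hk2]; exact hh a
    have h2 : k1 ≤ k2 := (Nat.pow_le_pow_iff_right hp.one_lt).mp h1
    calc d = p ^ k1 := hk1
      _ ∣ p ^ k2 := pow_dvd_pow p h2
      _ = Nat.gcd n (lam a) := hk2.symm
      _ ∣ lam a := Nat.gcd_dvd_right _ _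
  have hdr : ∀ a : H, ∃ r : ℤ, ⁅a, y⁆ = y ^ ((d : ℤ) * r) := by
    intro a
    obtain ⟨r, hr⟩ := hdvd a
    refine ⟨r, ?_⟩
    rw [hlam a, hr, ← zpow_natCast]
    push_cast
    rfl
  -- the power action of h
  have hpow : ∀ m ∈ M, ⁅h, m⁆ = m ^ (lam h) := by
    intro m hm
    obtain ⟨i, rfl⟩ := hmem m hm
    have h1 : h * y * h⁻¹ = y ^ (lam h + 1) := by
      rw [pow_succ, ← hlam h, commutatorElement_def]; group
    rw [commutatorElement_def, ← conj_pow, h1, ← pow_mul, ← pow_mul, mul_inv_eq_iff_eq_mul,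
      ← pow_add]
    congr 1; ring
  have S : SplitData M h (lam h) κ := by
    refine ⟨hMn, hcomm, hpow, habel, ?_⟩
    intro x hx
    refine CP_top M κ hκ κ le_rfl x hx ?_
    simp
  obtain ⟨hA, hB, hC, hD⟩ := dl_main S κ
  set q := (lam h) ^ κ with hq
  set C := Subgroup.centralizer (M : Set H) with hCdef
  -- the homomorphism on the centralizer
  let Δ : C →* H :=
    { toFun := fun x => dl h q κ x
      map_one' := by
        have := hD 1 (one_mem M)
        simpa using this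
      map_mul' := fun x x' => hB x x' (S.top x x.2) (S.top x' x'.2) }
  let K : Subgroup H := Δ.ker.map C.subtype
  have hKmem : ∀ x : H, x ∈ K ↔ x ∈ C ∧ dl h q κ x = 1 := by
    intro x
    constructor
    · rintro ⟨z, hz, rfl⟩
      exact ⟨z.2, hz⟩
    · rintro ⟨h1, h2⟩
      exact ⟨⟨x, h1⟩, h2, rfl⟩
  have hCn : C.Normal := inferInstance
  have hKn : K.Normal := by
    constructor
    intro x hx b
    rw [hKmem] at hx ⊢
    refine ⟨hCn.conj_mem x hx.1 b, ?_⟩
    rw [hC x b (S.top x hx.1), hx.2]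
    group
  have hKC : K ≤ C := fun x hx => ((hKmem x).mp hx).1
  have hMC : M ≤ C := fun x hx => CP_centralizer M hcomm 0 x hx
  -- index of C
  have hCi : C.index ≤ n := by
    have : Nat.card (H ⧸ C) ≤ Nat.card M := by
      let f : H ⧸ C → M := fun z => Quotient.liftOn' z
        (fun a => (⟨a * y * a⁻¹, hMn.conj_mem y hyM a⟩ : M)) (by
          intro a b hab
          have hab' : a⁻¹ * b ∈ C := (QuotientGroup.leftRel_apply).mp hab
          apply Subtype.ext
          show a * y * a⁻¹ = b * y * b⁻¹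
          have := centr_conj hab' hyM
          calc a * y * a⁻¹ = a * ((a⁻¹ * b) * y * (a⁻¹ * b)⁻¹) * a⁻¹ := by rw [this]
            _ = b * y * b⁻¹ := by group)
      apply Nat.card_le_card_of_injective f
      intro z w
      induction z using QuotientGroup.induction_on with
      | H a =>
      induction w using QuotientGroup.induction_on with
      | H b =>
      intro hab
      have hab' : a * y * a⁻¹ = b * y * b⁻¹ := congrArg Subtype.val hab
      rw [QuotientGroup.eq]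
      apply hcen
      have : (a⁻¹ * b) * y * (a⁻¹ * b)⁻¹ = y := by
        calc (a⁻¹ * b) * y * (a⁻¹ * b)⁻¹ = a⁻¹ * (b * y * b⁻¹) * a := by group
          _ = a⁻¹ * (a * y * a⁻¹) * a := by rw [hab']
          _ = y := by group
      exact mul_inv_eq_iff_eq_mul.mp this
    rw [hMp] at this
    exact this
  -- relative index of K in C
  have hKCi : K.relIndex C ≤ n := by
    have h1 : K.relIndex C = Nat.card Δ.range := by
      rw [← Subgroup.index_ker Δ]
      show (K.subgroupOf C).index = _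
      congr 1
      exact Subgroup.comap_map_eq_self_of_injective C.subtype_injective _
    rw [h1]
    have h2 : Δ.range ≤ M := by
      rintro _ ⟨x, rfl⟩
      exact hA x (S.top x x.2)
    calc Nat.card Δ.range ≤ Nat.card M := Subgroup.card_le_of_le h2
      _ = n := hMp
  have hKi : K.index ≤ n * n := by
    rw [← Subgroup.relIndex_mul_index hKC]
    exact Nat.mul_le_mul hKCi hCi
  -- relative index of K in M
  set Λ := (lam h * q) ^ κ with hΛ
  have hKM : K.relIndex M = orderOf (y ^ Λ) := by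
    let Δ' : M →* H := Δ.comp (Subgroup.inclusion hMC)
    have h1 : K.subgroupOf M = Δ'.ker := by
      ext x
      rw [Subgroup.mem_subgroupOf, MonoidHom.mem_ker, hKmem]
      constructor
      · rintro ⟨_, h2⟩; exact h2
      · intro h2; exact ⟨hMC x.2, h2⟩
    have h2 : K.relIndex M = Nat.card Δ'.range := by
      rw [← Subgroup.index_ker Δ', ← h1]; rfl
    have h3 : Δ'.range = Subgroup.zpowers (y ^ Λ) := by
      ext z
      constructor
      · rintro ⟨x, rfl⟩
        obtain ⟨i, hi⟩ := hmem x x.2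
        have : Δ' x = (x : H) ^ Λ := hD x x.2
        rw [this, hi, ← pow_mul, mul_comm, pow_mul]
        exact pow_mem (Subgroup.mem_zpowers _) _
      · intro hz
        obtain ⟨i, rfl⟩ := Subgroup.mem_zpowers_iff.mp hz
        refine ⟨⟨y, hyM⟩ ^ i, ?_⟩
        rw [map_zpow]
        congr 1
        exact hD y hyM
    rw [h2, h3, Nat.card_zpowers]
  have h5 := hyp K hKn
  rw [hKM, orderOf_pow, hord] at h5
  have h6 : (n / n.gcd Λ) ^ 3 ≤ n * n := h5.trans hKi
  have h7 : n ∣ Λ ^ 3 := by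
    obtain ⟨k, hk, hk'⟩ := (Nat.dvd_prime_pow hp).mp (Nat.gcd_dvd_left n Λ)
    rw [hk', hn, Nat.pow_div hk hp.pos, ← pow_mul, ← pow_add] at h6
    have h8 := (Nat.pow_le_pow_iff_right hp.one_lt).mp h6
    have h9 : e ≤ k * 3 := by omega
    calc n ∣ p ^ (k * 3) := pow_dvd_pow p h9
      _ = (n.gcd Λ) ^ 3 := by rw [hk', pow_mul]
      _ ∣ Λ ^ 3 := pow_dvd_pow_of_dvd (Nat.gcd_dvd_right _ _) 3
  have h10 : Λ ^ 3 = (lam h) ^ (3 * ((κ + 1) * κ)) := by
    rw [hΛ, hq]; ring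
  set t := 3 * ((κ + 1) * κ) with ht
  have h11 : n ∣ d ^ t := by
    rcases Nat.eq_zero_or_pos t with h0 | h0
    · rw [h0, pow_zero]
      rw [h10, h0, pow_zero] at h7
      exact h7
    · rw [hd, ← Nat.pow_gcd_pow]
      apply Nat.dvd_gcd
      · exact dvd_pow_self n h0.ne'
      · rw [← h10]; exact h7
  have h12 := iterComm_cyclic M y d hMy hdr t
  have h13 : y ^ (d ^ t) = 1 := by
    rw [← orderOf_dvd_iff_pow_eq_one, hord]; exact h11
  rw [h13, Subgroup.zpowers_one_eq_bot] at h12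
  exact le_bot_iff.mp h12

end Split

end Pool.Agent.Helper542
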