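import Mathlib
import Pool.Agent.Helper542.Split
import Pool.Agent.Helper542.Lower

set_option autoImplicit false

namespace Pool.Agent.Helper542

open Subgroup
open scoped commutatorElement IsMulCommutative

/-- Separating elements by normal subgroups with cyclic quotient. -/
theorem exists_cyclic_quot {G : Type*} [Group G] [Finite G] (A N : Subgroup G) [hA : A.Normal]
    [hN : N.Normal] (hAN : A ≤ N) (hcomm : ∀ n ∈ N, ∀ g : G, ⁅n, g⁆ ∈ A) (x : G) (hx : x ∈ N)
    (hxA : x ∉ A) :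
    ∃ E : Subgroup G, E.Normal ∧ A ≤ E ∧ E ≤ N ∧ (∃ k : G, E ⊔ Subgroup.zpowers k = N) ∧
      x ∉ E := by
  have hcen : ∀ n : N, (QuotientGroup.mk' A) (n : G) ∈ Subgroup.center (G ⧸ A) := by
    intro n
    rw [Subgroup.mem_center_iff]
    intro q
    induction q using QuotientGroup.induction_on with
    | H g =>
      have h1 : ⁅(QuotientGroup.mk' A) (n : G), (QuotientGroup.mk' A) g⁆ = 1 := by
        rw [← map_commutatorElement]
        exact (QuotientGroup.eq_one_iff _).mpr (hcomm n n.2 g)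
      exact (commutatorElement_eq_one_iff_mul_comm.mp h1).symm
  let j : N →* Subgroup.center (G ⧸ A) := ((QuotientGroup.mk' A).comp N.subtype).codRestrict _ hcen
  have hjx : j ⟨x, hx⟩ ≠ 1 := by
    intro h
    have h' : (QuotientGroup.mk' A) x = 1 := congrArg Subtype.val h
    exact hxA ((QuotientGroup.eq_one_iff _).mp h')
  obtain ⟨φ, hφ⟩ := CommGroup.exists_apply_ne_one_of_hasEnoughRootsOfUnity
    (Subgroup.center (G ⧸ A)) ℂ hjx
  let f : N →* ℂˣ := φ.comp j
  let E : Subgroup G := f.ker.map N.subtype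
  have hE : ∀ g : G, g ∈ E ↔ ∃ h : g ∈ N, f ⟨g, h⟩ = 1 := by
    intro g
    constructor
    · rintro ⟨z, hz, rfl⟩
      exact ⟨z.2, hz⟩
    · rintro ⟨h, hz⟩
      exact ⟨⟨g, h⟩, hz, rfl⟩
  refine ⟨E, ?_, ?_, ?_, ?_, ?_⟩
  · constructor
    intro n hn g
    rw [hE] at hn ⊢
    obtain ⟨hn1, hn2⟩ := hn
    have hn3 : g * n * g⁻¹ ∈ N := hN.conj_mem n hn1 g
    refine ⟨hn3, ?_⟩
    have : j ⟨g * n * g⁻¹, hn3⟩ = j ⟨n, hn1⟩ := by
      apply Subtype.ext
      show (QuotientGroup.mk' A) (g * n * g⁻¹) = (QuotientGroup.mk' A) n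
      have h1 := Subgroup.mem_center_iff.mp (hcen ⟨n, hn1⟩) ((QuotientGroup.mk' A) g)
      rw [map_mul, map_mul, h1, map_inv]
      group
    show φ (j _) = 1
    rw [this]
    exact hn2
  · intro a ha
    rw [hE]
    refine ⟨hAN ha, ?_⟩
    have : j ⟨a, hAN ha⟩ = 1 := by
      apply Subtype.ext
      exact (QuotientGroup.eq_one_iff _).mpr ha
    show φ (j _) = 1
    rw [this, map_one]
  · intro g hg
    rw [hE] at hg
    exact hg.1
  · have hfin : Finite f.range := Finite.of_surjective _ f.rangeRestrict_surjective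
    have hcyc : IsCyclic f.range := inferInstance
    obtain ⟨⟨_, ⟨k, rfl⟩⟩, hk⟩ := hcyc.exists_generator
    refine ⟨k, ?_⟩
    apply le_antisymm
    · apply sup_le
      · intro g hg
        rw [hE] at hg
        exact hg.1
      · rw [Subgroup.zpowers_le]
        exact k.2
    · intro n hn
      obtain ⟨i, hi⟩ := Subgroup.mem_zpowers_iff.mp (hk ⟨f ⟨n, hn⟩, ⟨_, rfl⟩⟩)
      have hi' : (f k) ^ i = f ⟨n, hn⟩ := congrArg Subtype.val hi
      have h1 : n * ((k : G) ^ i)⁻¹ ∈ E := by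
        rw [hE]
        refine ⟨mul_mem hn (inv_mem (zpow_mem k.2 i)), ?_⟩
        have : (⟨n * ((k : G) ^ i)⁻¹, mul_mem hn (inv_mem (zpow_mem k.2 i))⟩ : N)
          = ⟨n, hn⟩ * (k ^ i)⁻¹ := by
          apply Subtype.ext
          simp
        rw [this, map_mul, map_inv, map_zpow, hi', mul_inv_cancel]
      have h2 : n = (n * ((k : G) ^ i)⁻¹) * (k : G) ^ i := by group
      rw [h2]
      exact Subgroup.mul_mem_sup h1 (zpow_mem (Subgroup.mem_zpowers _) i)
  · rw [hE]
    rintro ⟨_, h2⟩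
    exact hφ h2

/-- An isomorphism of the lattices of normal subgroups preserving orders and cyclic sections. -/
structure LatIso (G H : Type*) [Group G] [Group H] where
  ψ : {N : Subgroup G // N.Normal} ≃o {M : Subgroup H // M.Normal}
  card_eq : ∀ N, Nat.card (ψ N).1 = Nat.card N.1
  cyc : ∀ N K, N ≤ K → (∃ k : G, N.1 ⊔ Subgroup.zpowers k = K.1) →
    ∃ v : H, (ψ N).1 ⊔ Subgroup.zpowers v = (ψ K).1

/-- The bounding function. -/
def bound : ℕ → ℕ
  | 0 => 0
  | 1 => 1
  | (c + 2) => bound (c + 1) + 3 * ((bound (c + 1) + 1) * bound (c + 1))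

lemma iterComm_normal {H : Type*} [Group H] (M : Subgroup H) [hM : M.Normal] (n : ℕ) :
    (iterComm M n).Normal := by
  induction n with
  | zero => exact hM
  | succ n ih =>
    show (⁅iterComm M n, (⊤ : Subgroup H)⁆ : Subgroup H).Normal
    infer_instance

lemma iterComm_le {H : Type*} [Group H] (M : Subgroup H) [hM : M.Normal] (n : ℕ) :
    iterComm M n ≤ M := by
  induction n with
  | zero => exact le_rfl
  | succ n ih =>
    have := iterComm_normal M n
    show (⁅iterComm M n, (⊤ : Subgroup H)⁆ : Subgroup H) ≤ M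
    exact (Subgroup.commutator_le_left _ _).trans ih

lemma lcs_le_iterComm {H : Type*} [Group H] (M : Subgroup H) (κ : ℕ)
    (hκ : (⊤ : Subgroup H).lowerCentralSeries κ ≤ M) (n : ℕ) :
    (⊤ : Subgroup H).lowerCentralSeries (κ + n) ≤ iterComm M n := by
  induction n with
  | zero => exact hκ
  | succ n ih =>
    show (⊤ : Subgroup H).lowerCentralSeries ((κ + n) + 1) ≤ ⁅iterComm M n, (⊤ : Subgroup H)⁆
    rw [Subgroup.lowerCentralSeries_succ]
    exact Subgroup.commutator_mono ih le_rfl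

lemma map_iterComm {H K : Type*} [Group H] [Group K] (f : H →* K) (hf : Function.Surjective f)
    (M : Subgroup H) (n : ℕ) : (iterComm M n).map f = iterComm (M.map f) n := by
  induction n with
  | zero => rfl
  | succ n ih =>
    show (⁅iterComm M n, (⊤ : Subgroup H)⁆ : Subgroup H).map f
      = ⁅iterComm (M.map f) n, (⊤ : Subgroup K)⁆
    rw [Subgroup.map_commutator, ih, Subgroup.map_top_of_surjective f hf]

section

variable {G H : Type*} [Group G] [Group H] [Finite G] [Finite H]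

omit [Finite G] [Finite H] in
lemma LatIso.card_group (I : LatIso G H) : Nat.card H = Nat.card G := by
  have h1 := I.card_eq ⟨⊤, inferInstance⟩
  have h2 : (I.ψ ⟨⊤, inferInstance⟩).1 = ⊤ := by
    have h3 : (⟨⊤, inferInstance⟩ : {M : Subgroup H // M.Normal})
        ≤ I.ψ ⟨⊤, inferInstance⟩ := by
      rw [← I.ψ.symm.le_iff_le, OrderIso.symm_apply_apply]
      exact (le_top : _ ≤ (⊤ : Subgroup G))
    exact top_le_iff.mp h3
  rw [h2] at h1
  simpa using h1

omit [Finite H] in
lemma LatIso.index_eq (I : LatIso G H) (N : {N : Subgroup G // N.Normal}) :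
    (I.ψ N).1.index = N.1.index := by
  have h1 := I.card_eq N
  have h2 := (I.ψ N).1.card_mul_index
  have h3 := N.1.card_mul_index
  rw [I.card_group, ← h3, h1] at h2
  exact Nat.eq_of_mul_eq_mul_left Nat.card_pos h2

omit [Finite H] in
lemma LatIso.relIndex_eq (I : LatIso G H) (K N : {N : Subgroup G // N.Normal}) :
    (I.ψ K).1.relIndex (I.ψ N).1 = K.1.relIndex N.1 := by
  have hn1 : (K.1 ⊓ N.1).Normal := by
    have := K.2; have := N.2; infer_instance
  have hn2 : ((I.ψ K).1 ⊓ (I.ψ N).1).Normal := by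
    have := (I.ψ K).2; have := (I.ψ N).2; infer_instance
  have h1 : (I.ψ ⟨K.1 ⊓ N.1, hn1⟩) = ⟨(I.ψ K).1 ⊓ (I.ψ N).1, hn2⟩ := by
    apply le_antisymm
    · show (I.ψ ⟨K.1 ⊓ N.1, hn1⟩).1 ≤ (I.ψ K).1 ⊓ (I.ψ N).1
      apply le_inf
      · exact I.ψ.monotone (show K.1 ⊓ N.1 ≤ K.1 from inf_le_left)
      · exact I.ψ.monotone (show K.1 ⊓ N.1 ≤ N.1 from inf_le_right)
    · rw [← I.ψ.symm.le_iff_le, OrderIso.symm_apply_apply]
      show (I.ψ.symm ⟨(I.ψ K).1 ⊓ (I.ψ N).1, hn2⟩).1 ≤ K.1 ⊓ N.1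
      apply le_inf
      · have : I.ψ.symm ⟨(I.ψ K).1 ⊓ (I.ψ N).1, hn2⟩ ≤ K := by
          rw [← I.ψ.le_iff_le, OrderIso.apply_symm_apply]
          exact (inf_le_left : (I.ψ K).1 ⊓ (I.ψ N).1 ≤ (I.ψ K).1)
        exact this
      · have : I.ψ.symm ⟨(I.ψ K).1 ⊓ (I.ψ N).1, hn2⟩ ≤ N := by
          rw [← I.ψ.le_iff_le, OrderIso.apply_symm_apply]
          exact (inf_le_right : (I.ψ K).1 ⊓ (I.ψ N).1 ≤ (I.ψ N).1)
        exact this
  have h2 := I.card_eq ⟨K.1 ⊓ N.1, hn1⟩
  rw [h1] at h2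
  have h3 := Subgroup.relIndex_mul_relIndex ⊥ (K.1 ⊓ N.1) N.1 bot_le inf_le_right
  have h4 := Subgroup.relIndex_mul_relIndex ⊥ ((I.ψ K).1 ⊓ (I.ψ N).1) (I.ψ N).1 bot_le inf_le_right
  simp only [Subgroup.relIndex_bot_left, Subgroup.inf_relIndex_right] at h3 h4
  rw [I.card_eq N, ← h3] at h4
  change Nat.card ↥((I.ψ K).1 ⊓ (I.ψ N).1) = Nat.card ↥(K.1 ⊓ N.1) at h2
  rw [h2] at h4
  exact Nat.eq_of_mul_eq_mul_left Nat.card_pos h4

/-- The step on a cyclic section. -/
theorem cyclic_step {p : ℕ} (hp : p.Prime) (hG : IsPGroup p G) (hH : IsPGroup p H)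
    (I : LatIso G H) (c κ : ℕ) (A N E : {N : Subgroup G // N.Normal})
    (hc : (⊤ : Subgroup G).lowerCentralSeries (c + 2) ≤ A.1)
    (hN : N.1 = (⊤ : Subgroup G).lowerCentralSeries (c + 1) ⊔ A.1)
    (hκ : (⊤ : Subgroup H).lowerCentralSeries κ ≤ (I.ψ N).1)
    (hAE : A.1 ≤ E.1) (hEN : E.1 ≤ N.1) (k : G) (hk : E.1 ⊔ Subgroup.zpowers k = N.1) :
    iterComm (I.ψ N).1 (3 * ((κ + 1) * κ)) ≤ (I.ψ E).1 := by
  have hpf := Fact.mk hp
  obtain ⟨v, hv⟩ := I.cyc E N hEN ⟨k, hk⟩
  have hE'n : (I.ψ E).1.Normal := (I.ψ E).2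
  have hMn : (I.ψ N).1.Normal := (I.ψ N).2
  set E' : Subgroup H := (I.ψ E).1 with hE'
  set M : Subgroup H := (I.ψ N).1 with hM
  let π := QuotientGroup.mk' E'
  have hπ : Function.Surjective π := QuotientGroup.mk'_surjective E'
  have hMmap : M.map π = Subgroup.zpowers (π v) := by
    rw [← hv, Subgroup.map_sup, MonoidHom.map_zpowers]
    have : E'.map π = ⊥ := by
      rw [Subgroup.map_eq_bot_iff]
      rw [QuotientGroup.ker_mk']
    rw [this, bot_sup_eq]
  have hMmn : (M.map π).Normal := hMn.map π hπ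
  have hq : IsPGroup p (H ⧸ E') := hH.to_quotient E'
  obtain ⟨e, he⟩ := IsPGroup.iff_card.mp (hq.to_subgroup (M.map π))
  have hκ' : (⊤ : Subgroup (H ⧸ E')).lowerCentralSeries κ ≤ M.map π := by
    have h1 := Subgroup.map_lowerCentralSeries (⊤ : Subgroup H) π κ
    rw [Subgroup.map_top_of_surjective π hπ] at h1
    rw [← h1]
    exact Subgroup.map_mono hκ
  have key := split_lemma hp (M.map π) (π v) hMmap e he κ hκ' (by
    intro K' hK'
    have hKn : (K'.comap π).Normal := hK'.comap π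
    have hEK : E' ≤ K'.comap π := by
      intro x hx
      rw [Subgroup.mem_comap]
      have : π x = 1 := (QuotientGroup.eq_one_iff x).mpr hx
      rw [this]; exact one_mem _
    have e1 : (K'.comap π).index = K'.index := Subgroup.index_comap_of_surjective K' hπ
    have e2 : (K'.comap π).relIndex M = K'.relIndex (M.map π) := Subgroup.relIndex_comap K' π M
    rw [← e1, ← e2]
    set K : {M : Subgroup H // M.Normal} := ⟨K'.comap π, hKn⟩ with hK
    set KG := I.ψ.symm K with hKG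
    have hKG' : I.ψ KG = K := by rw [hKG, OrderIso.apply_symm_apply]
    have e3 : (K'.comap π).index = KG.1.index := by
      rw [← I.index_eq KG, hKG']
    have e4 : (K'.comap π).relIndex M = KG.1.relIndex N.1 := by
      rw [← I.relIndex_eq KG N, hKG']
    rw [e3, e4]
    have hEKG : E ≤ KG := by
      rw [← I.ψ.le_iff_le, hKG']
      exact hEK
    have hEKG' : E.1 ≤ KG.1 := hEKG
    have hKGn : KG.1.Normal := KG.2
    -- work in G / KG
    let ρ := QuotientGroup.mk' KG.1
    have hρ : Function.Surjective ρ := QuotientGroup.mk'_surjective KG.1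
    have hkill : ∀ B : Subgroup G, B ≤ KG.1 → B.map ρ = ⊥ := by
      intro B hB
      rw [Subgroup.map_eq_bot_iff, QuotientGroup.ker_mk']
      exact hB
    have hNmap : N.1.map ρ = Subgroup.zpowers (ρ k) := by
      rw [← hk, Subgroup.map_sup, MonoidHom.map_zpowers, hkill _ hEKG', bot_sup_eq]
    have hl1 : (⊤ : Subgroup (G ⧸ KG.1)).lowerCentralSeries (c + 1) = Subgroup.zpowers (ρ k) := by
      have h1 := Subgroup.map_lowerCentralSeries (⊤ : Subgroup G) ρ (c + 1)
      rw [Subgroup.map_top_of_surjective ρ hρ] at h1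
      rw [← h1, ← hNmap, hN, Subgroup.map_sup, hkill _ (hAE.trans hEKG'), sup_bot_eq]
    have hl2 : (⊤ : Subgroup (G ⧸ KG.1)).lowerCentralSeries (c + 2) = ⊥ := by
      have h1 := Subgroup.map_lowerCentralSeries (⊤ : Subgroup G) ρ (c + 2)
      rw [Subgroup.map_top_of_surjective ρ hρ] at h1
      rw [← h1]
      exact hkill _ (hc.trans (hAE.trans hEKG'))
    have h5 := lower_bound hp (hG.to_quotient KG.1) c (ρ k) hl1 hl2
    rw [← Nat.card_zpowers, ← hNmap, ← Subgroup.relIndex_ker, QuotientGroup.ker_mk'] at h5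
    rw [Subgroup.index_eq_card]
    exact h5)
  rw [← map_iterComm π hπ, Subgroup.map_eq_bot_iff, QuotientGroup.ker_mk'] at key
  exact key

/-- Main group theoretic theorem. -/
theorem class_bound {p : ℕ} (hp : p.Prime) (hG : IsPGroup p G) (hH : IsPGroup p H)
    (I : LatIso G H) (c : ℕ) : ∀ A : {N : Subgroup G // N.Normal},
    (⊤ : Subgroup G).lowerCentralSeries c ≤ A.1 →
      (⊤ : Subgroup H).lowerCentralSeries (bound c) ≤ (I.ψ A).1 := by
  -- a general principle
  have principle : ∀ (A N : {N : Subgroup G // N.Normal}) (D : Subgroup H), D.Normal → A ≤ N →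
      (∀ n ∈ N.1, ∀ g : G, ⁅n, g⁆ ∈ A.1) → D ≤ (I.ψ N).1 →
      (∀ E : {N : Subgroup G // N.Normal}, A.1 ≤ E.1 → E.1 ≤ N.1 →
        (∃ k : G, E.1 ⊔ Subgroup.zpowers k = N.1) → D ≤ (I.ψ E).1) → D ≤ (I.ψ A).1 := by
    intro A N D hD hAN hcomm hDN hall
    have hAn := A.2
    have hNn := N.2
    set D' := I.ψ.symm ⟨D, hD⟩ with hD'
    have hD'' : I.ψ D' = ⟨D, hD⟩ := by rw [hD', OrderIso.apply_symm_apply]
    have h1 : D' ≤ A := by
      show D'.1 ≤ A.1
      intro x hx
      by_contra hxA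
      have hxN : x ∈ N.1 := by
        have : D' ≤ N := by
          rw [← I.ψ.le_iff_le, hD'']; exact hDN
        exact this hx
      obtain ⟨E, hE, hAE, hEN, hk, hxE⟩ := exists_cyclic_quot A.1 N.1 hAN hcomm x hxN hxA
      have h2 := hall ⟨E, hE⟩ hAE hEN hk
      have h3 : D' ≤ ⟨E, hE⟩ := by
        rw [← I.ψ.le_iff_le, hD'']; exact h2
      exact hxE (h3 hx)
    have h4 : I.ψ D' ≤ I.ψ A := I.ψ.monotone h1
    rw [hD''] at h4
    exact h4
  induction c with
  | zero =>
    intro A hA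
    have h1 : A = ⟨⊤, inferInstance⟩ := Subtype.ext (top_le_iff.mp (by simpa using hA))
    have h2 : (⟨⊤, inferInstance⟩ : {M : Subgroup H // M.Normal}) ≤ I.ψ A := by
      rw [← I.ψ.symm.le_iff_le, OrderIso.symm_apply_apply, h1]
      exact (le_top : _ ≤ (⊤ : Subgroup G))
    exact le_top.trans h2
  | succ c ih =>
    cases c with
    | zero =>
      intro A hA
      have hN : (⊤ : Subgroup G).Normal := inferInstance
      have hcomm : ∀ n ∈ (⊤ : Subgroup G), ∀ g : G, ⁅n, g⁆ ∈ A.1 := by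
        intro n hn g
        apply hA
        exact Subgroup.commutator_mem_commutator hn (Subgroup.mem_top g)
      apply principle A ⟨⊤, hN⟩ _ inferInstance (show A.1 ≤ ⊤ from le_top) hcomm
      · have := ih ⟨⊤, hN⟩ (by simp)
        refine le_trans ?_ this
        exact Subgroup.lowerCentralSeries_antitone (⊤ : Subgroup H) (Nat.zero_le _)
      · intro E hAE _ hk
        obtain ⟨v, hv⟩ := I.cyc E ⟨⊤, hN⟩ (show E.1 ≤ ⊤ from le_top) hk
        have h2 : (I.ψ ⟨⊤, hN⟩).1 = ⊤ := by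
          have h3 : (⟨⊤, inferInstance⟩ : {M : Subgroup H // M.Normal})
              ≤ I.ψ ⟨⊤, inferInstance⟩ := by
            rw [← I.ψ.symm.le_iff_le, OrderIso.symm_apply_apply]
            exact (le_top : _ ≤ (⊤ : Subgroup G))
          exact top_le_iff.mp h3
        rw [h2] at hv
        have hEn : (I.ψ E).1.Normal := (I.ψ E).2
        show (⁅(⊤ : Subgroup H).lowerCentralSeries 0, (⊤ : Subgroup H)⁆ : Subgroup H) ≤ _
        have hmem : ∀ a : H, ∃ i : ℤ, (QuotientGroup.mk' (I.ψ E).1) a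
            = (QuotientGroup.mk' (I.ψ E).1 v) ^ i := by
          intro a
          have ha : a ∈ (I.ψ E).1 ⊔ Subgroup.zpowers v := by rw [hv]; exact Subgroup.mem_top a
          rw [Subgroup.mem_sup_of_normal_left] at ha
          obtain ⟨x, hx, z, hz, rfl⟩ := ha
          obtain ⟨i, rfl⟩ := Subgroup.mem_zpowers_iff.mp hz
          refine ⟨i, ?_⟩
          rw [map_mul, map_zpow]
          have : (QuotientGroup.mk' (I.ψ E).1) x = 1 := (QuotientGroup.eq_one_iff x).mpr hx
          rw [this, one_mul]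
        rw [Subgroup.commutator_le]
        intro a _ b _
        rw [← QuotientGroup.eq_one_iff]
        change (QuotientGroup.mk' (I.ψ E).1) ⁅a, b⁆ = 1
        obtain ⟨i, hi⟩ := hmem a
        obtain ⟨j, hj⟩ := hmem b
        rw [map_commutatorElement, hi, hj, commutatorElement_eq_one_iff_mul_comm, ← zpow_add,
          ← zpow_add, add_comm]
    | succ c =>
      intro A hA
      have hAn := A.2
      have hNn : ((⊤ : Subgroup G).lowerCentralSeries (c + 1) ⊔ A.1).Normal := inferInstance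
      set N : {N : Subgroup G // N.Normal} :=
        ⟨(⊤ : Subgroup G).lowerCentralSeries (c + 1) ⊔ A.1, hNn⟩ with hN
      have hκ := ih N le_sup_left
      have hMn : (I.ψ N).1.Normal := (I.ψ N).2
      have hcomm : ∀ n ∈ N.1, ∀ g : G, ⁅n, g⁆ ∈ A.1 := by
        intro n hn g
        have hn' : n ∈ (⊤ : Subgroup G).lowerCentralSeries (c + 1) ⊔ A.1 := hn
        obtain ⟨x, hx, a, ha, rfl⟩ := Subgroup.mem_sup_of_normal_right.mp hn'
        rw [comm_mul_left']
        apply mul_mem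
        · apply hAn.conj_mem
          rw [commutatorElement_def]
          have : a * g * a⁻¹ * g⁻¹ = a * (g * a⁻¹ * g⁻¹) := by group
          rw [this]
          exact mul_mem ha (hAn.conj_mem _ (inv_mem ha) g)
        · exact hA (Subgroup.commutator_mem_commutator hx (Subgroup.mem_top g))
      have hD := lcs_le_iterComm (I.ψ N).1 (bound (c + 1)) hκ
        (3 * ((bound (c + 1) + 1) * bound (c + 1)))
      refine le_trans hD ?_
      apply principle A N _ (iterComm_normal _ _) (show A.1 ≤ N.1 from le_sup_right) hcomm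
        (iterComm_le _ _)
      intro E hAE hEN ⟨k, hk⟩
      exact cyclic_step hp hG hH I c (bound (c + 1)) A N E hA rfl hκ hAE hEN k hk

end

end Pool.Agent.Helper542
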