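import Mathlib
import Pool.Agent.Helper542.Marks

set_option autoImplicit false

namespace Pool.Agent.Helper542

open Subgroup
open scoped Classical

variable {G : Type} [Group G] [Fintype G] [Fintype (Subgroup G)]

lemma CC_Cj (K : Subgroup G) : CC (Cj K) := fun g L h => h.trans ⟨g, rfl⟩

lemma TT_lt {C : Subgroup G → Prop} {n : ℕ} (hC : ∀ L, C L → Nat.card L = n) {V : Subgroup G}
    (hV : Nat.card V < n) : TT C V = 0 := by
  unfold TT
  apply Finset.sum_eq_zero
  intro L _
  by_cases h : C L
  · rw [if_pos h]
    have : tt L V = 0 := by
      by_contra h1
      have h2 := Subgroup.card_le_of_le (tt_le h1)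
      rw [hC L h] at h2
      omega
    rw [this]; rfl
  · rw [if_neg h]

lemma TT_eq {C : Subgroup G → Prop} {n : ℕ} (hC : ∀ L, C L → Nat.card L = n) {V : Subgroup G}
    (hV : Nat.card V = n) : TT C V = if C V then (Nat.card V : ℤ) else 0 := by
  unfold TT
  rw [Finset.sum_eq_single V]
  · rw [tt_self]
  · intro L _ hLV
    by_cases h : C L
    · rw [if_pos h]
      have : tt L V = 0 := by
        by_contra h1
        exact hLV (Subgroup.eq_of_le_of_card_ge (tt_le h1) (by rw [hC L h, hV]))
      rw [this]; rfl
    · rw [if_neg h]
  · intro h
    exact absurd (Finset.mem_univ _) h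

lemma Good.sub {x y : Subgroup G → ℤ} (hx : Good x) (hy : Good y) : Good (x - y) := by
  constructor
  · intro g K
    rw [Pi.sub_apply, Pi.sub_apply, hx.1, hy.1]
  · intro C hC
    have h1 := dvd_sub (hx.2 C hC) (hy.2 C hC)
    have e : ∑ V : Subgroup G, TT C V * (x - y) V
        = ∑ V : Subgroup G, TT C V * x V - ∑ V : Subgroup G, TT C V * y V := by
      rw [← Finset.sum_sub_distrib]
      apply Finset.sum_congr rfl
      intro V _
      rw [Pi.sub_apply]; ring
    rw [e]
    exact h1

/-- The value at a maximal element of the support is divisible by the mark. -/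
lemma mark_dvd_of_top {x : Subgroup G → ℤ} (hx : Good x) (K : Subgroup G)
    (htop : ∀ V : Subgroup G, Nat.card K < Nat.card V → x V = 0) : mark K K ∣ x K := by
  have h1 := hx.2 (Cj K) (CC_Cj K)
  have hC : ∀ L, Cj K L → Nat.card L = Nat.card K := fun L h => h.card
  have h2 : ∑ V : Subgroup G, TT (Cj K) V * x V
      = ∑ V : Subgroup G, ((Nat.card V : ℤ) * x V) * ind K V := by
    apply Finset.sum_congr rfl
    intro V _
    rcases lt_trichotomy (Nat.card V) (Nat.card K) with h | h | h
    · rw [TT_lt hC h, zero_mul]
      have : ¬ Cj K V := fun h' => by rw [h'.card] at h; exact lt_irrefl _ h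
      rw [ind, if_neg this, mul_zero]
    · rw [TT_eq hC h, ind]
      by_cases h' : Cj K V
      · rw [if_pos h', if_pos h', mul_one]
      · rw [if_neg h', if_neg h', mul_zero, zero_mul]
    · rw [htop V h]; ring
  rw [h2, sum_mul_class K (fun V => (Nat.card V : ℤ) * x V)
    (fun g => by rw [card_cj, hx.1]), ← cl_mul K] at h1
  have hcl : (cl K : ℤ) ≠ 0 := by exact_mod_cast (cl_pos K).ne'
  have h3 := (mul_dvd_mul_iff_left hcl).mp h1
  rw [mul_comm] at h3
  have hK : (Nat.card K : ℤ) ≠ 0 := by exact_mod_cast (Nat.card_pos (α := K)).ne'
  exact (mul_dvd_mul_iff_left hK).mp h3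

theorem mem_of_good (x : Subgroup G → ℤ) (hx : Good x) : x ∈ BG G := by
  have main : ∀ n : ℕ, ∀ x : Subgroup G → ℤ, Good x →
      (∀ V : Subgroup G, n < Nat.card V → x V = 0) → x ∈ BG G := by
    intro n
    induction n with
    | zero =>
      intro x _ h
      have : x = 0 := by
        funext V
        exact h V Nat.card_pos
      rw [this]; exact zero_mem _
    | succ n ih =>
      have inner : ∀ m : ℕ, ∀ x : Subgroup G → ℤ, Good x →
          (∀ V : Subgroup G, n + 1 < Nat.card V → x V = 0) →
          (Finset.univ.filter (fun V : Subgroup G => Nat.card V = n + 1 ∧ x V ≠ 0)).card ≤ m →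
          x ∈ BG G := by
        intro m
        induction m with
        | zero =>
          intro x hx h hm
          apply ih x hx
          intro V hV
          rcases Nat.lt_or_ge (n + 1) (Nat.card V) with h1 | h1
          · exact h V h1
          · have h2 : Nat.card V = n + 1 := by omega
            by_contra h3
            have h4 : V ∈ Finset.univ.filter
                (fun V : Subgroup G => Nat.card V = n + 1 ∧ x V ≠ 0) := by
              rw [Finset.mem_filter]; exact ⟨Finset.mem_univ _, h2, h3⟩
            have h5 := Finset.card_pos.mpr ⟨V, h4⟩
            omega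
        | succ m ihm =>
          intro x hx h hm
          by_cases hS : ∃ K : Subgroup G, Nat.card K = n + 1 ∧ x K ≠ 0
          · obtain ⟨K, hK, hxK⟩ := hS
            have hd := mark_dvd_of_top hx K (by intro V hV; exact h V (by rw [← hK]; exact hV))
            obtain ⟨a, ha⟩ := hd
            have hmk : a • mark K ∈ BG G := zsmul_mem (mark_mem K) a
            have hg : Good (a • mark K) := good_of_mem _ hmk
            have key : x - a • mark K ∈ BG G := by
              apply ihm _ (hx.sub hg)
              · intro V hV
                rw [Pi.sub_apply, h V hV, Pi.smul_apply]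
                have : mark K V = 0 := by
                  by_contra h1
                  have := card_le_of_mark_ne_zero h1
                  omega
                rw [this]; simp
              · apply Nat.le_of_lt_succ
                refine lt_of_lt_of_le (Finset.card_lt_card ?_) hm
                rw [Finset.ssubset_iff_of_subset]
                · refine ⟨K, ?_, ?_⟩
                  · rw [Finset.mem_filter]; exact ⟨Finset.mem_univ _, hK, hxK⟩
                  · rw [Finset.mem_filter]
                    rintro ⟨_, _, h1⟩
                    apply h1
                    rw [Pi.sub_apply, Pi.smul_apply, ha, smul_eq_mul, mul_comm, sub_self]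
                · intro V hV
                  rw [Finset.mem_filter] at hV ⊢
                  refine ⟨Finset.mem_univ _, hV.2.1, ?_⟩
                  intro hxV
                  apply hV.2.2
                  rw [Pi.sub_apply, Pi.smul_apply, hxV]
                  have : mark K V = 0 := by
                    by_contra h1
                    obtain ⟨g, hg⟩ := cj_of_mark_ne_zero h1 (by rw [hK, hV.2.1])
                    rw [hg, hx.1] at hxV
                    exact hxK hxV
                  rw [this]; simp
            have := add_mem key hmk
            rwa [sub_add_cancel] at this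
          · push Not at hS
            apply ih x hx
            intro V hV
            rcases Nat.lt_or_ge (n + 1) (Nat.card V) with h1 | h1
            · exact h V h1
            · exact hS V (by omega)
      intro x hx h
      exact inner _ x hx h le_rfl
  apply main (Nat.card G) x hx
  intro V hV
  have := Subgroup.card_le_card_group V
  omega

end Pool.Agent.Helper542
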