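import Mathlib
import Pool.Agent.Helper542.Count

set_option autoImplicit false

namespace Pool.Agent.Helper542

open Subgroup
open scoped Classical

/-- Counting subgroups of index `p` containing a given proper subgroup. -/
theorem count_index_p {V : Type*} [Group V] [Finite V] {p : ℕ} (hp : p.Prime)
    (hV : IsPGroup p V) (N : Subgroup V) (hN : N ≠ ⊤) :
    ∃ m : ℕ, Nat.card {L : Subgroup V // N ≤ L ∧ L.index = p} = 1 + p * m := by
  have hpf := Fact.mk hp
  let C := Multiplicative (ZMod p)
  have hCcard : Nat.card C = p := by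
    show Nat.card (Multiplicative (ZMod p)) = p
    rw [Nat.card_congr Multiplicative.toAdd, Nat.card_zmod]
  have hCfin : Finite C := Nat.finite_of_card_ne_zero (by rw [hCcard]; exact hp.pos.ne')
  have hCcyc : ∀ c : C, c ≠ 1 → Subgroup.zpowers c = ⊤ := by
    intro c hc
    apply Subgroup.eq_top_of_card_eq
    rw [hCcard, Nat.card_zpowers]
    have h1 : orderOf c ∣ Nat.card C := orderOf_dvd_natCard c
    rw [hCcard] at h1
    rcases (Nat.dvd_prime hp).mp h1 with h2 | h2
    · exact absurd (orderOf_eq_one_iff.mp h2) hc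
    · exact h2
  have hfin : Finite (V →* C) := Finite.of_injective (fun φ => (φ : V → C)) DFunLike.coe_injective
  -- kernels have index p
  have hker : ∀ φ : V →* C, φ ≠ 1 → φ.ker.index = p := by
    intro φ hφ
    rw [Subgroup.index_ker]
    have h1 : φ.range = ⊤ := by
      have h2 : ∃ v, φ v ≠ 1 := by
        by_contra h3
        push Not at h3
        exact hφ (MonoidHom.ext h3)
      obtain ⟨v, hv⟩ := h2
      rw [eq_top_iff, ← hCcyc _ hv, Subgroup.zpowers_le]
      exact ⟨v, rfl⟩
    rw [h1, Nat.card_congr (Subgroup.topEquiv (G := C)).toEquiv, hCcard]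
  -- existence of homomorphisms with a given kernel
  have hex : ∀ L : Subgroup V, L.index = p → ∃ φ : V →* C, φ ≠ 1 ∧ φ.ker = L := by
    intro L hL
    have hn : L.Normal := normal_of_card_mul hp hV L hL
    have hQ : Nat.card (V ⧸ L) = p := by rw [← Subgroup.index_eq_card]; exact hL
    let e : V ⧸ L ≃* C := mulEquivOfPrimeCardEq hQ hCcard
    have hk : (e.toMonoidHom.comp (QuotientGroup.mk' L)).ker = L := by
      ext v
      rw [MonoidHom.mem_ker]
      show e (QuotientGroup.mk' L v) = 1 ↔ v ∈ L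
      rw [e.map_eq_one_iff]
      exact QuotientGroup.eq_one_iff v
    refine ⟨e.toMonoidHom.comp (QuotientGroup.mk' L), ?_, hk⟩
    intro h1
    rw [h1] at hk
    have h2 : (1 : V →* C).ker = ⊤ := by
      ext v; simp
    rw [h2] at hk
    rw [← hk, Subgroup.index_top] at hL
    exact hp.one_lt.ne hL
  -- fibers
  have hfib : ∀ L : Subgroup V, L.index = p →
      Nat.card {φ : V →* C // φ ≠ 1 ∧ φ.ker = L} = p - 1 := by
    intro L hL
    obtain ⟨φ0, hφ0, hk0⟩ := hex L hL
    have hne : ∃ a, a ∉ L := by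
      by_contra h
      push Not at h
      have : L = ⊤ := by rw [eq_top_iff]; intro x _; exact h x
      rw [this, Subgroup.index_top] at hL
      exact hp.one_lt.ne hL
    obtain ⟨a, ha⟩ := hne
    have h1 : Nat.card {c : C // c ≠ 1} = p - 1 := by
      have := Fintype.ofFinite C
      rw [Nat.card_eq_fintype_card, Fintype.card_subtype_compl, Fintype.card_subtype_eq,
        ← Nat.card_eq_fintype_card, hCcard]
    rw [← h1]
    have hmaps : ∀ φ : {φ : V →* C // φ ≠ 1 ∧ φ.ker = L}, φ.1 a ≠ 1 := by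
      intro φ h
      apply ha
      rw [← φ.2.2]
      exact h
    apply Nat.card_congr
    refine Equiv.ofBijective (fun φ => (⟨φ.1 a, hmaps φ⟩ : {c : C // c ≠ 1})) ⟨?_, ?_⟩
    · intro φ ψ h
      have h2 : φ.1 a = ψ.1 a := congrArg Subtype.val h
      apply Subtype.ext
      have hE : φ.1.eqLocus ψ.1 = ⊤ := by
        have hLE : L ≤ φ.1.eqLocus ψ.1 := by
          intro x hx
          show φ.1 x = ψ.1 x
          have h3 : x ∈ φ.1.ker := by rw [φ.2.2]; exact hx
          have h4 : x ∈ ψ.1.ker := by rw [ψ.2.2]; exact hx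
          rw [MonoidHom.mem_ker] at h3 h4
          rw [h3, h4]
        have h5 := Subgroup.relIndex_mul_index hLE
        rw [hL] at h5
        have h6 : (φ.1.eqLocus ψ.1).index ∣ p := Dvd.intro_left _ h5
        rcases (Nat.dvd_prime hp).mp h6 with h7 | h7
        · rwa [Subgroup.index_eq_one] at h7
        · exfalso
          rw [h7] at h5
          have h8 : L.relIndex (φ.1.eqLocus ψ.1) = 1 := by
            have : L.relIndex (φ.1.eqLocus ψ.1) * p = 1 * p := by rw [h5, one_mul]
            exact Nat.eq_of_mul_eq_mul_right hp.pos this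
          rw [Subgroup.relIndex_eq_one] at h8
          exact ha (h8 h2)
      ext x
      have : x ∈ φ.1.eqLocus ψ.1 := by rw [hE]; exact Subgroup.mem_top x
      exact congrArg _ this
    · rintro ⟨c, hc⟩
      have h2 : φ0 a ≠ 1 := by
        intro h; apply ha; rw [← hk0]; exact h
      have h3 : c ∈ Subgroup.zpowers (φ0 a) := by rw [hCcyc _ h2]; exact Subgroup.mem_top c
      obtain ⟨i, hi⟩ := Subgroup.mem_zpowers_iff.mp h3
      have h4 : (φ0 ^ i) a = c := by
        rw [← hi]; rfl
      have h5 : φ0 ^ i ≠ 1 := by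
        intro h; rw [h] at h4; exact hc h4.symm
      refine ⟨⟨φ0 ^ i, h5, ?_⟩, Subtype.ext h4⟩
      have h6 : L ≤ (φ0 ^ i).ker := by
        intro x hx
        rw [← hk0, MonoidHom.mem_ker] at hx
        rw [MonoidHom.mem_ker]
        show (φ0 x) ^ i = 1
        rw [hx, one_zpow]
      have h7 : (φ0 ^ i).ker.index = p := hker _ h5
      symm
      apply Subgroup.eq_of_le_of_card_ge h6
      have h8 := L.card_mul_index
      have h9 := (φ0 ^ i).ker.card_mul_index
      rw [hL] at h8
      rw [h7, ← h8] at h9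
      exact le_of_eq (Nat.eq_of_mul_eq_mul_right hp.pos h9)
  -- the group of homomorphisms killing N
  let A : Subgroup (V →* C) :=
    { carrier := {φ | N ≤ φ.ker}
      one_mem' := by
        intro x _
        rw [MonoidHom.mem_ker]; rfl
      mul_mem' := by
        intro φ ψ hφ hψ x hx
        rw [MonoidHom.mem_ker]
        show φ x * ψ x = 1
        rw [show φ x = 1 from hφ hx, show ψ x = 1 from hψ hx, one_mul]
      inv_mem' := by
        intro φ hφ x hx
        rw [MonoidHom.mem_ker]
        show (φ x)⁻¹ = 1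
        rw [show φ x = 1 from hφ hx, inv_one] }
  have hAmem : ∀ φ : V →* C, φ ∈ A ↔ N ≤ φ.ker := fun φ => Iff.rfl
  have hAp : IsPGroup p A := by
    intro φ
    refine ⟨1, ?_⟩
    apply Subtype.ext
    rw [pow_one]
    apply MonoidHom.ext
    intro x
    show (φ.1 x) ^ p = 1
    have := pow_card_eq_one' (x := φ.1 x)
    rwa [hCcard] at this
  obtain ⟨k, hk⟩ := IsPGroup.iff_card.mp hAp
  -- existence of a subgroup of index p containing N
  have hexN : ∃ L : Subgroup V, N ≤ L ∧ L.index = p := by
    obtain ⟨n, hn⟩ := IsPGroup.iff_card.mp hV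
    obtain ⟨j, hj⟩ := IsPGroup.iff_card.mp (hV.to_subgroup N)
    have hjn : j < n := by
      have h1 : Nat.card N < Nat.card V := by
        refine lt_of_le_of_ne (Subgroup.card_le_card_group N) ?_
        intro h
        exact hN (Subgroup.eq_top_of_card_eq N h)
      rw [hj, hn] at h1
      exact (Nat.pow_lt_pow_iff_right hp.one_lt).mp h1
    obtain ⟨L, hL, hNL⟩ := Sylow.exists_subgroup_card_pow_prime_le p (n := j) (m := n - 1)
      (by rw [hn]; exact pow_dvd_pow p (Nat.sub_le _ _)) N hj (by omega)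
    refine ⟨L, hNL, ?_⟩
    have h1 := L.card_mul_index
    rw [hL, hn] at h1
    have h2 : p ^ n = p ^ (n - 1) * p := by
      rw [← pow_succ]; congr 1; omega
    rw [h2] at h1
    exact Nat.eq_of_mul_eq_mul_left (pow_pos hp.pos _) h1
  have hk0 : k ≠ 0 := by
    rintro rfl
    rw [pow_zero] at hk
    obtain ⟨L, hNL, hL⟩ := hexN
    obtain ⟨φ, hφ, hφL⟩ := hex L hL
    have hφA : φ ∈ A := by rw [hAmem, hφL]; exact hNL
    have := (Nat.card_eq_one_iff_unique.mp hk).1
    have h1 : (⟨φ, hφA⟩ : A) = 1 := Subsingleton.elim _ _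
    exact hφ (congrArg Subtype.val h1)
  -- count
  let D := {L : Subgroup V // N ≤ L ∧ L.index = p}
  have hcount : Nat.card A = 1 + Nat.card D * (p - 1) := by
    let f : {φ : A // φ ≠ 1} → D :=
      fun φ => ⟨φ.1.1.ker, φ.1.2, hker _ (fun h => φ.2 (Subtype.ext h))⟩
    have hf : ∀ L : D, Nat.card {φ : {φ : A // φ ≠ 1} // f φ = L} = p - 1 := by
      intro L
      rw [← hfib L.1 L.2.2]
      apply Nat.card_congr
      exact
        { toFun := fun φ => ⟨φ.1.1.1, fun h => φ.1.2 (Subtype.ext h), congrArg Subtype.val φ.2⟩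
          invFun := fun z => ⟨⟨⟨z.1, by
            rw [hAmem, z.2.2]; exact L.2.1⟩, fun h => z.2.1 (congrArg Subtype.val h)⟩,
            Subtype.ext z.2.2⟩
          left_inv := fun φ => rfl
          right_inv := fun z => rfl }
    have := Fintype.ofFinite D
    have h1 : Nat.card {φ : A // φ ≠ 1} = Nat.card D * (p - 1) := by
      rw [Nat.card_congr (Equiv.sigmaFiberEquiv f).symm, Nat.card_sigma,
        Finset.sum_congr rfl (fun L _ => hf L),
        Finset.sum_const, Finset.card_univ, smul_eq_mul, Nat.card_eq_fintype_card]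
    have := Fintype.ofFinite A
    have h2 : Nat.card {φ : A // φ ≠ 1} = Nat.card A - 1 := by
      rw [Nat.card_eq_fintype_card, Fintype.card_subtype_compl, Fintype.card_subtype_eq,
        ← Nat.card_eq_fintype_card]
    have h3 : 0 < Nat.card A := Nat.card_pos
    omega
  -- conclude
  obtain ⟨k', rfl⟩ := Nat.exists_eq_succ_of_ne_zero hk0
  rw [hk] at hcount
  have h1 : p ∣ 1 + Nat.card D * (p - 1) := by
    rw [← hcount]; exact dvd_pow_self p (Nat.succ_ne_zero k')
  have hD : 0 < Nat.card D := by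
    obtain ⟨L, hL⟩ := hexN
    have : Nonempty D := ⟨⟨L, hL⟩⟩
    exact Nat.card_pos
  obtain ⟨q, hq⟩ : ∃ q, p = q + 1 := ⟨p - 1, by have := hp.pos; omega⟩
  obtain ⟨d, hd⟩ : ∃ d, Nat.card D = d + 1 := ⟨Nat.card D - 1, by omega⟩
  have h2 : p ∣ d := by
    have h3 : p ∣ (d + 1) * p - (1 + (d + 1) * (p - 1)) := by
      apply Nat.dvd_sub
      · exact Dvd.intro_left _ rfl
      · rw [← hd]; exact h1
    have h4 : (d + 1) * p - (1 + (d + 1) * (p - 1)) = d := by
      rw [hq, Nat.add_sub_cancel]
      have : (d + 1) * (q + 1) = (1 + (d + 1) * q) + d := by ring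
      omega
    rwa [h4] at h3
  obtain ⟨m, hm⟩ := h2
  refine ⟨m, ?_⟩
  show Nat.card D = _
  rw [hd, hm]; ring

end Pool.Agent.Helper542
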