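import Mathlib
import Pool.Agent.Helper542.FactC
import Pool.Agent.Helper542.Maxl

set_option autoImplicit false

namespace Pool.Agent.Helper542

open Subgroup
open scoped Classical

variable {G : Type} [Group G] [Fintype G]

theorem count_sub {p : ℕ} (hp : p.Prime) (hG : IsPGroup p G) {N V : Subgroup G} (hNV : N ≤ V)
    (hne : N ≠ V) :
    ∃ m : ℕ, Nat.card {L : Subgroup G // N ≤ L ∧ L ≤ V ∧ p * Nat.card L = Nat.card V}
      = 1 + p * m := by
  have hne' : N.subgroupOf V ≠ ⊤ := by
    intro h
    rw [Subgroup.subgroupOf_eq_top] at h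
    exact hne (le_antisymm hNV h)
  obtain ⟨m, hm⟩ := count_index_p hp (hG.to_subgroup V) (N.subgroupOf V) hne'
  refine ⟨m, ?_⟩
  rw [← hm]
  have hidx : ∀ L' : Subgroup V, L'.index = p ↔ p * Nat.card (L'.map V.subtype) = Nat.card V := by
    intro L'
    rw [Subgroup.card_map_of_injective V.subtype_injective]
    have h1 := L'.card_mul_index
    constructor
    · intro h
      rw [← h1, h, mul_comm]
    · intro h
      rw [← h1, mul_comm p] at h
      exact (Nat.eq_of_mul_eq_mul_left Nat.card_pos h).symm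
  apply Nat.card_congr
  exact
    { toFun := fun L => ⟨L.1.subgroupOf V, Subgroup.comap_mono L.2.1, by
        rw [hidx, Subgroup.subgroupOf_map_subtype, inf_eq_left.mpr L.2.2.1]
        exact L.2.2.2⟩
      invFun := fun L' => ⟨L'.1.map V.subtype, by
          have h1 := Subgroup.map_mono (f := V.subtype) L'.2.1
          rw [Subgroup.subgroupOf_map_subtype, inf_eq_left.mpr hNV] at h1
          exact h1,
        Subgroup.map_subtype_le L'.1, (hidx L'.1).mp L'.2.2⟩
      left_inv := by
        intro L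
        apply Subtype.ext
        show (L.1.subgroupOf V).map V.subtype = L.1
        rw [Subgroup.subgroupOf_map_subtype, inf_eq_left.mpr L.2.2.1]
      right_inv := by
        intro L'
        apply Subtype.ext
        show (L'.1.map V.subtype).subgroupOf V = L'.1
        exact Subgroup.comap_map_eq_self_of_injective V.subtype_injective _ }

/-- The family of subgroups of given order above `N`. -/
def fam (N : Subgroup G) (n : ℕ) : Subgroup G → Prop := fun L => N ≤ L ∧ Nat.card L = n

omit [Fintype G] in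
lemma CC_fam (N : Subgroup G) [hN : N.Normal] (n : ℕ) : CC (fam N n) := by
  intro g K hK
  refine ⟨?_, ?_⟩
  · rw [← cj_normal g N, cj_le_cj]; exact hK.1
  · rw [card_cj]; exact hK.2

variable [Fintype (Subgroup G)]

lemma TT_fam_not {N : Subgroup G} {n : ℕ} {V : Subgroup G} (h : ¬ N ≤ V) :
    TT (fam N n) V = 0 := by
  unfold TT
  apply Finset.sum_eq_zero
  intro L _
  by_cases hL : fam N n L
  · rw [if_pos hL]
    have : tt L V = 0 := by
      by_contra h1
      exact h (hL.1.trans (tt_le h1))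
    rw [this]; rfl
  · rw [if_neg hL]

lemma TT_fam {p : ℕ} (hp : p.Prime) (hG : IsPGroup p G) {N V : Subgroup G} (hNV : N ≤ V)
    (hne : N ≠ V) {n : ℕ} (hn : p * n = Nat.card V) :
    ∃ m : ℤ, (p : ℤ) * TT (fam N n) V = (1 + p * m) * ((p - 1) * (Nat.card V : ℤ)) := by
  obtain ⟨m, hm⟩ := count_sub hp hG hNV hne
  refine ⟨m, ?_⟩
  unfold TT
  rw [Finset.mul_sum]
  have h1 : ∀ L : Subgroup G, (p : ℤ) * (if fam N n L then (tt L V : ℤ) else 0)
      = if (N ≤ L ∧ L ≤ V ∧ p * Nat.card L = Nat.card V) then ((p - 1) * (Nat.card V : ℤ))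
        else 0 := by
    intro L
    by_cases hL : fam N n L
    · rw [if_pos hL]
      by_cases hLV : L ≤ V
      · have hc : p * Nat.card L = Nat.card V := by rw [hL.2]; exact hn
        rw [if_pos ⟨hL.1, hLV, hc⟩]
        have h2 := tt_index_p hp hG hLV hc
        have h3 : L ≠ V := by
          rintro rfl
          have h4 : 0 < Nat.card L := Nat.card_pos
          have := hp.two_le
          nlinarith
        have h5 := tt_count hp hG h3 h2
        have h6 : ((p * tt L V : ℕ) : ℤ) = (((p - 1) * Nat.card V : ℕ) : ℤ) := by rw [h5]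
        rw [Nat.cast_mul, Nat.cast_mul, Nat.cast_sub hp.one_lt.le] at h6
        exact_mod_cast h6
      · rw [if_neg (fun h => hLV h.2.1)]
        have : tt L V = 0 := by
          by_contra h1
          exact hLV (tt_le h1)
        rw [this]; simp
    · rw [if_neg hL, if_neg, mul_zero]
      rintro ⟨h2, _, h3⟩
      apply hL
      refine ⟨h2, ?_⟩
      rw [← hn] at h3
      exact Nat.eq_of_mul_eq_mul_left hp.pos h3
  rw [Finset.sum_congr rfl (fun L _ => h1 L), ← Finset.sum_filter, Finset.sum_const]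
  rw [Nat.card_eq_fintype_card (α := {L : Subgroup G // N ≤ L ∧ L ≤ V ∧
    p * Nat.card L = Nat.card V}), Fintype.card_subtype] at hm
  rw [hm]
  rw [nsmul_eq_mul]
  push_cast
  ring

/-- The star formula. -/
lemma star_formula {y : Subgroup G → ℤ} (hy : Good y) {C : Subgroup G → Prop} (hC : CC C)
    {n : ℕ} (hCn : ∀ L, C L → Nat.card L = n) (V : Subgroup G) (hV : n < Nat.card V)
    (hyp : ∀ V' : Subgroup G, n < Nat.card V' → TT C V' * y V' ≠ 0 → Cj V V') :
    (Nat.card G : ℤ) ∣ (n : ℤ) * (∑ L : Subgroup G, if C L then y L else 0)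
      + (cl V : ℤ) * (TT C V * y V) := by
  have h1 := hy.2 C hC
  have h2 : ∀ V' : Subgroup G, TT C V' * y V'
      = (n : ℤ) * (if C V' then y V' else 0) + (TT C V' * y V') * ind V V' := by
    intro V'
    rcases lt_trichotomy (Nat.card V') n with h | h | h
    · have h3 : ¬ C V' := fun h' => by rw [hCn V' h'] at h; exact lt_irrefl _ h
      rw [TT_lt hCn h, if_neg h3]; ring
    · have h3 : ¬ Cj V V' := fun h' => by rw [h'.card] at h; omega
      rw [ind, if_neg h3, mul_zero, add_zero, TT_eq hCn h]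
      by_cases h4 : C V'
      · rw [if_pos h4, if_pos h4, h]
      · rw [if_neg h4, if_neg h4]; ring
    · have h3 : ¬ C V' := fun h' => by rw [hCn V' h'] at h; exact lt_irrefl _ h
      rw [if_neg h3, mul_zero, zero_add, ind]
      by_cases h4 : Cj V V'
      · rw [if_pos h4, mul_one]
      · rw [if_neg h4, mul_zero]
        by_contra h5
        exact h4 (hyp V' h h5)
  rw [Finset.sum_congr rfl (fun V' _ => h2 V'), Finset.sum_add_distrib, ← Finset.mul_sum,
    sum_mul_class V (fun V' => TT C V' * y V') (fun g => by rw [TT_cj hC, hy.1])] at h1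
  exact h1

omit [Fintype (Subgroup G)] in
lemma mark_self_dvd {p k : ℕ} (hk : Nat.card G = p ^ k) (V : Subgroup G) :
    mark V V ∣ ((p : ℤ) ^ k) := by
  have h := cl_mul V
  rw [hk] at h
  refine ⟨(cl V : ℤ) * (Nat.card V : ℤ), ?_⟩
  push_cast at h
  rw [← h]; ring

/-- The basic divisibility. -/
lemma gamma {p : ℕ} (hp : p.Prime) (hG : IsPGroup p G) {y : Subgroup G → ℤ} (hy : Good y)
    (N V : Subgroup G) [N.Normal] (hNV : N ≤ V) (hne : N ≠ V)
    (hyp : ∀ L : Subgroup G, N ≤ L → Nat.card V ≤ p * Nat.card L → ¬ Cj V L → y L = 0) :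
    (p : ℤ) * mark V V ∣ y V := by
  have := Fact.mk hp
  obtain ⟨k, hk⟩ := IsPGroup.iff_card.mp hG
  obtain ⟨v, hv⟩ := IsPGroup.iff_card.mp (hG.to_subgroup V)
  have hv0 : v ≠ 0 := by
    rintro rfl
    rw [pow_zero] at hv
    apply hne
    have h1 : V = ⊥ := Subgroup.eq_bot_of_card_eq V hv
    rw [h1] at hNV ⊢
    exact le_bot_iff.mp hNV
  obtain ⟨n, hn⟩ : ∃ n, p * n = Nat.card V := by
    refine ⟨p ^ (v - 1), ?_⟩
    rw [hv, ← pow_succ']; congr 1; omega
  have hnV : n < Nat.card V := by
    have h1 : 0 < n := by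
      rcases Nat.eq_zero_or_pos n with h | h
      · rw [h, mul_zero] at hn
        exact absurd hn.symm (Nat.card_pos (α := V)).ne'
      · exact h
    have := hp.two_le
    nlinarith
  have h1 := star_formula hy (CC_fam N n) (fun L hL => hL.2) V hnV (by
    intro V' hV' h
    by_contra hc
    apply h
    by_cases hNV' : N ≤ V'
    · rw [hyp V' hNV' ?_ hc, mul_zero]
      rw [← hn]
      exact Nat.mul_le_mul_left p hV'.le
    · rw [TT_fam_not hNV', zero_mul])
  have h2 : (∑ L : Subgroup G, if fam N n L then y L else 0) = 0 := by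
    apply Finset.sum_eq_zero
    intro L _
    by_cases hL : fam N n L
    · rw [if_pos hL]
      apply hyp L hL.1
      · rw [hL.2, hn]
      · intro hc
        have := hc.card
        rw [hL.2] at this
        omega
    · rw [if_neg hL]
  rw [h2, mul_zero, zero_add] at h1
  obtain ⟨m, hm⟩ := TT_fam hp hG hNV hne hn
  have h3 : (p : ℤ) * (Nat.card G : ℤ) ∣ (p : ℤ) * ((cl V : ℤ) * (TT (fam N n) V * y V)) :=
    mul_dvd_mul_left _ h1
  have h4 : (p : ℤ) * ((cl V : ℤ) * (TT (fam N n) V * y V))
      = ((cl V : ℤ) * (Nat.card V : ℤ)) * ((1 + p * m) * (p - 1) * y V) := by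
    calc (p : ℤ) * ((cl V : ℤ) * (TT (fam N n) V * y V))
        = (cl V : ℤ) * (((p : ℤ) * TT (fam N n) V) * y V) := by ring
      _ = _ := by rw [hm]; ring
  have h5 : (p : ℤ) * (Nat.card G : ℤ)
      = ((cl V : ℤ) * (Nat.card V : ℤ)) * ((p : ℤ) * mark V V) := by
    rw [← cl_mul V]; ring
  rw [h4, h5] at h3
  have hpos : ((cl V : ℤ) * (Nat.card V : ℤ)) ≠ 0 := by
    apply mul_ne_zero
    · exact_mod_cast (cl_pos V).ne'
    · exact_mod_cast (Nat.card_pos (α := V)).ne'
  have h6 := (mul_dvd_mul_iff_left hpos).mp h3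
  have h7 : IsCoprime ((p : ℤ) * mark V V) ((1 + p * m) * (p - 1)) := by
    have h8 : IsCoprime ((p : ℤ) ^ (k + 1)) ((1 + p * m) * (p - 1)) := by
      apply IsCoprime.pow_left
      have e : ((1 + p * m) * (p - 1) : ℤ) = -1 + p * (1 + m * (p - 1)) := by ring
      rw [e]
      refine ⟨1 + m * (p - 1), -1, ?_⟩
      ring
    apply IsCoprime.of_isCoprime_of_dvd_left h8
    rw [pow_succ']
    exact mul_dvd_mul_left _ (mark_self_dvd hk V)
  exact h7.dvd_of_dvd_mul_left h6

end Pool.Agent.Helper542
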