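import Mathlib
import Pool.Agent.Helper542.Star

set_option autoImplicit false

namespace Pool.Agent.Helper542

open Subgroup
open scoped Classical

section Cond

variable {G : Type} [Group G] [Fintype G] [Fintype (Subgroup G)]

lemma card_dvd_TT {p : ℕ} (hp : p.Prime) (hG : IsPGroup p G) (C : Subgroup G → Prop)
    (K : Subgroup G) : (Nat.card K : ℤ) ∣ (p : ℤ) * TT C K := by
  unfold TT
  rw [Finset.mul_sum]
  apply Finset.dvd_sum
  intro L _
  by_cases hL : C L
  · rw [if_pos hL]
    by_cases h0 : tt L K = 0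
    · rw [h0]; simp
    · by_cases hLK : L = K
      · rw [hLK, tt_self]; exact Dvd.intro_left _ rfl
      · have h1 := tt_count hp hG hLK h0
        have h2 : ((p * tt L K : ℕ) : ℤ) = (((p - 1) * Nat.card K : ℕ) : ℤ) := by rw [h1]
        push_cast at h2
        rw [h2]
        exact Dvd.intro_left _ rfl
  · rw [if_neg hL, mul_zero]; exact dvd_zero _

lemma beta {p : ℕ} (hp : p.Prime) (hG : IsPGroup p G) (K : Subgroup G) :
    (fun V => ((p : ℤ) * mark K K) * ind K V) ∈ BG G := by
  apply mem_of_good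
  constructor
  · intro g V
    show ((p : ℤ) * mark K K) * ind K (cj g V) = ((p : ℤ) * mark K K) * ind K V
    rw [ind_cj]
  · intro C hC
    have h1 : ∑ V : Subgroup G, TT C V * (((p : ℤ) * mark K K) * ind K V)
        = (cl K : ℤ) * (TT C K * ((p : ℤ) * mark K K)) := by
      rw [← sum_mul_class K (fun V => TT C V * ((p : ℤ) * mark K K))
        (fun g => by rw [TT_cj hC])]
      apply Finset.sum_congr rfl
      intro V _
      ring
    rw [h1, ← cl_mul K]
    obtain ⟨q, hq⟩ := card_dvd_TT hp hG C K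
    refine ⟨q, ?_⟩
    calc (cl K : ℤ) * (TT C K * ((p : ℤ) * mark K K))
        = (cl K : ℤ) * mark K K * ((p : ℤ) * TT C K) := by ring
      _ = _ := by rw [hq]; ring

omit [Fintype G] [Fintype (Subgroup G)] in
lemma mark_bot_bot : mark (⊥ : Subgroup G) ⊥ = (Nat.card G : ℤ) := by
  have h := mark_mul_card (⊥ : Subgroup G) ⊥
  have h1 : Nat.card (⊥ : Subgroup G) = 1 := by simp
  rw [h1, Nat.cast_one, mul_one] at h
  rw [h]
  congr 1
  apply Nat.card_congr
  exact Equiv.subtypeUnivEquiv (fun g => bot_le)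

omit [Fintype (Subgroup G)] in
lemma mark_bot : mark (⊥ : Subgroup G) = fun V => (Nat.card G : ℤ) * ind ⊥ V := by
  funext V
  by_cases h : Cj ⊥ V
  · rw [ind, if_pos h, mul_one]
    obtain ⟨g, rfl⟩ := h
    rw [cj_bot, mark_bot_bot]
  · rw [ind, if_neg h, mul_zero]
    by_contra h1
    apply h
    apply cj_of_mark_ne_zero h1
    have h2 : Nat.card (⊥ : Subgroup G) = 1 := by simp
    rw [h2]; exact Nat.card_pos

/-- The conductor of a class. -/
noncomputable def cond (p : ℕ) (K : Subgroup G) : ℤ :=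
  if K = ⊥ then (Nat.card G : ℤ) else (p : ℤ) * mark K K

lemma cond_mem {p : ℕ} (hp : p.Prime) (hG : IsPGroup p G) (K : Subgroup G) :
    (fun V => cond p K * ind K V) ∈ BG G := by
  unfold cond
  by_cases h : K = ⊥
  · subst h
    rw [if_pos rfl, ← mark_bot]
    exact mark_mem _
  · rw [if_neg h]
    exact beta hp hG K

lemma cond_dvd {p : ℕ} (hp : p.Prime) (hG : IsPGroup p G) (K : Subgroup G) (m : ℤ)
    (hm : (fun V => m * ind K V) ∈ BG G) : cond p K ∣ m := by
  have hgood := good_of_mem _ hm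
  unfold cond
  by_cases h : K = ⊥
  · subst h
    rw [if_pos rfl, ← mark_bot_bot]
    have h1 := mark_dvd_of_top hgood (⊥ : Subgroup G) (by
      intro V hV
      have h2 : ¬ Cj ⊥ V := fun h' => by rw [h'.card] at hV; exact lt_irrefl _ hV
      simp only [ind, if_neg h2, mul_zero])
    simpa only [ind_self, mul_one] using h1
  · rw [if_neg h]
    have h1 := gamma hp hG hgood ⊥ K bot_le (Ne.symm h) (by
      intro L _ _ hc
      simp only [ind, if_neg hc, mul_zero])
    simpa only [ind_self, mul_one] using h1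

omit [Fintype (Subgroup G)] in
lemma cond_pos {p : ℕ} (hp : p.Prime) (K : Subgroup G) : 0 < cond p K := by
  unfold cond
  by_cases h : K = ⊥
  · rw [if_pos h]; exact_mod_cast Nat.card_pos
  · rw [if_neg h]
    exact mul_pos (by exact_mod_cast hp.pos) (mark_self_pos K)

end Cond

section Iso

variable {G H : Type} [Group G] [Group H] [Fintype G] [Fintype H]
  [Fintype (Subgroup G)] [Fintype (Subgroup H)]

/-- The coordinates `K` and `V` correspond under the isomorphism. -/
def Rel (Φ : BG G ≃+* BG H) (K : Subgroup G) (V : Subgroup H) : Prop :=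
  ∀ x : BG G, (Φ x : Subgroup H → ℤ) V = (x : Subgroup G → ℤ) K

omit [Fintype G] [Fintype H] [Fintype (Subgroup G)] [Fintype (Subgroup H)] in
lemma rel_symm {Φ : BG G ≃+* BG H} {K : Subgroup G} {V : Subgroup H} :
    Rel Φ.symm V K ↔ Rel Φ K V := by
  constructor
  · intro h x
    have := h (Φ x)
    rw [RingEquiv.symm_apply_apply] at this
    exact this.symm
  · intro h y
    have := h (Φ.symm y)
    rw [RingEquiv.apply_symm_apply] at this
    exact this.symm

omit [Fintype G] [Fintype H] [Fintype (Subgroup H)] in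
lemma rel_left (Φ : BG G ≃+* BG H) (V : Subgroup H) : ∃ K : Subgroup G, Rel Φ K V := by
  by_contra hcon
  unfold Rel at hcon
  push Not at hcon
  choose x hx using hcon
  let θ : BG G →+* ℤ :=
    (Pi.evalRingHom (fun _ : Subgroup H => ℤ) V).comp ((BG H).subtype.comp Φ.toRingHom)
  have hθ : ∀ y : BG G, θ y = (Φ y : Subgroup H → ℤ) V := fun y => rfl
  let z : BG G := ∏ K : Subgroup G, (x K - ((x K : Subgroup G → ℤ) K : BG G))
  have hz : z = 0 := by
    apply Subtype.ext
    funext K
    show (z : Subgroup G → ℤ) K = 0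
    have h1 : (z : Subgroup G → ℤ) K
        = ∏ K' : Subgroup G, ((x K' : Subgroup G → ℤ) K - (x K' : Subgroup G → ℤ) K') := by
      let ev : BG G →+* ℤ := (Pi.evalRingHom (fun _ : Subgroup G => ℤ) K).comp (BG G).subtype
      have h2 : (z : Subgroup G → ℤ) K = ev z := rfl
      rw [h2, map_prod]
      apply Finset.prod_congr rfl
      intro K' _
      rw [map_sub, map_intCast]
      rfl
    rw [h1]
    exact Finset.prod_eq_zero (Finset.mem_univ K) (sub_self _)
  have h3 : θ z ≠ 0 := by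
    show θ (∏ K : Subgroup G, (x K - ((x K : Subgroup G → ℤ) K : BG G))) ≠ 0
    rw [map_prod, Finset.prod_ne_zero_iff]
    intro K _
    rw [map_sub, map_intCast, hθ]
    intro h
    apply hx K
    have := sub_eq_zero.mp h
    simpa using this
  rw [hz, map_zero] at h3
  exact h3 rfl

omit [Fintype G] [Fintype H] [Fintype (Subgroup G)] in
lemma rel_right (Φ : BG G ≃+* BG H) (K : Subgroup G) : ∃ V : Subgroup H, Rel Φ K V := by
  obtain ⟨V, hV⟩ := rel_left Φ.symm K
  exact ⟨V, rel_symm.mp hV⟩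

omit [Fintype (Subgroup G)] in
lemma sep {K K' : Subgroup G} (h : ∀ x ∈ BG G, x K = x K') : Cj K K' := by
  have h1 : mark K K' ≠ 0 := by
    rw [← h _ (mark_mem K)]; exact (mark_self_pos K).ne'
  have h2 : mark K' K ≠ 0 := by
    rw [h _ (mark_mem K')]; exact (mark_self_pos K').ne'
  exact cj_of_mark_ne_zero h1 (card_le_of_mark_ne_zero h2)

lemma inv_of_cj {K K' : Subgroup G} (h : Cj K K') (x : BG G) :
    (x : Subgroup G → ℤ) K' = (x : Subgroup G → ℤ) K := by
  obtain ⟨g, rfl⟩ := h
  exact (good_of_mem _ x.2).1 g K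

omit [Fintype (Subgroup H)] in
lemma rel_cj_right {Φ : BG G ≃+* BG H} {K K' : Subgroup G} {V V' : Subgroup H}
    (h : Rel Φ K V) (h' : Rel Φ K' V') (hK : Cj K K') : Cj V V' := by
  apply sep
  intro y hy
  obtain ⟨x, hx⟩ := Φ.surjective ⟨y, hy⟩
  have h1 := h x
  have h2 := h' x
  rw [hx] at h1 h2
  have h3 := inv_of_cj hK x
  calc y V = (x : Subgroup G → ℤ) K := h1
    _ = (x : Subgroup G → ℤ) K' := h3.symm
    _ = y V' := h2.symm

lemma rel_cj_iff {Φ : BG G ≃+* BG H} {K K' : Subgroup G} {V V' : Subgroup H}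
    (h : Rel Φ K V) (h' : Rel Φ K' V') : Cj K K' ↔ Cj V V' :=
  ⟨rel_cj_right h h', rel_cj_right (rel_symm.mpr h) (rel_symm.mpr h')⟩

lemma rel_mono {Φ : BG G ≃+* BG H} {K K' : Subgroup G} {V V' : Subgroup H}
    (h : Rel Φ K V) (hK : Cj K K') (hV : Cj V V') : Rel Φ K' V' := by
  intro x
  rw [inv_of_cj hK x, inv_of_cj hV (Φ x)]
  exact h x

lemma map_ind {Φ : BG G ≃+* BG H} {K : Subgroup G} {V : Subgroup H} (h : Rel Φ K V) (m : ℤ)
    (hm : (fun W => m * ind K W) ∈ BG G) :
    (Φ ⟨_, hm⟩ : Subgroup H → ℤ) = fun W => m * ind V W := by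
  funext W
  obtain ⟨K', hK'⟩ := rel_left Φ W
  rw [hK' ⟨_, hm⟩]
  show m * ind K K' = m * ind V W
  unfold ind
  rw [if_congr (rel_cj_iff h hK') rfl rfl]

lemma cond_dvd_of_rel {p : ℕ} (hp : p.Prime) (hG : IsPGroup p G) (hH : IsPGroup p H)
    {Φ : BG G ≃+* BG H} {K : Subgroup G} {V : Subgroup H} (h : Rel Φ K V) :
    cond p V ∣ cond p K := by
  apply cond_dvd hp hH
  have h1 := map_ind h _ (cond_mem hp hG K)
  rw [← h1]
  exact (Φ _).2

lemma cond_eq {p : ℕ} (hp : p.Prime) (hG : IsPGroup p G) (hH : IsPGroup p H)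
    {Φ : BG G ≃+* BG H} {K : Subgroup G} {V : Subgroup H} (h : Rel Φ K V) :
    cond p K = cond p V := by
  apply Int.dvd_antisymm (cond_pos hp K).le (cond_pos hp V).le
  · exact cond_dvd_of_rel hp hH hG (rel_symm.mpr h)
  · exact cond_dvd_of_rel hp hG hH h

end Iso

end Pool.Agent.Helper542
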