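import Mathlib
import Pool.Agent.Helper542.Iso

set_option autoImplicit false

namespace Pool.Agent.Helper542

open Subgroup
open scoped Classical

section Iso

variable {G H : Type} [Group G] [Group H] [Fintype G] [Fintype H]
  [Fintype (Subgroup G)] [Fintype (Subgroup H)]

lemma card_rel_right {Φ : BG G ≃+* BG H} {K : Subgroup G} {V : Subgroup H} (h : Rel Φ K V) :
    (Finset.univ.filter (fun V' : Subgroup H => Rel Φ K V')).card = cl V := by
  rw [cl, Nat.card_eq_fintype_card, Fintype.card_subtype]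
  congr 1
  apply Finset.filter_congr
  intro V' _
  constructor
  · intro h'
    exact rel_cj_right h h' (Cj.refl K)
  · intro h'
    exact rel_mono h (Cj.refl K) h'

lemma card_rel_left {Φ : BG G ≃+* BG H} {K : Subgroup G} {V : Subgroup H} (h : Rel Φ K V) :
    (Finset.univ.filter (fun K' : Subgroup G => Rel Φ K' V)).card = cl K := by
  rw [← card_rel_right (rel_symm.mpr h)]
  congr 1
  apply Finset.filter_congr
  intro K' _
  exact rel_symm.symm

/-- Transfer of weighted sums. -/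
lemma transfer (Φ : BG G ≃+* BG H) (w : Subgroup G → ℤ) (w' : Subgroup H → ℤ)
    (hw : ∀ K V, Rel Φ K V → w K = w' V)
    (hcl : ∀ K V, Rel Φ K V → w K ≠ 0 → cl K = cl V) (x : BG G) :
    ∑ K : Subgroup G, w K * (x : Subgroup G → ℤ) K
      = ∑ V : Subgroup H, w' V * (Φ x : Subgroup H → ℤ) V := by
  let f : Subgroup G → Subgroup H → ℚ := fun K V =>
    if Rel Φ K V then ((w K * (x : Subgroup G → ℤ) K : ℤ) : ℚ) / (cl K : ℚ) else 0
  have h1 : ∀ K : Subgroup G, ∑ V : Subgroup H, f K V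
      = ((w K * (x : Subgroup G → ℤ) K : ℤ) : ℚ) := by
    intro K
    obtain ⟨V, hV⟩ := rel_right Φ K
    show ∑ V : Subgroup H, (if Rel Φ K V then
      ((w K * (x : Subgroup G → ℤ) K : ℤ) : ℚ) / (cl K : ℚ) else 0) = _
    rw [← Finset.sum_filter, Finset.sum_const, card_rel_right hV, nsmul_eq_mul]
    by_cases h0 : w K = 0
    · rw [h0]; simp
    · rw [← hcl K V hV h0]
      have : (cl K : ℚ) ≠ 0 := by exact_mod_cast (cl_pos K).ne'
      field_simp
  have h2 : ∀ V : Subgroup H, ∑ K : Subgroup G, f K V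
      = ((w' V * (Φ x : Subgroup H → ℤ) V : ℤ) : ℚ) := by
    intro V
    obtain ⟨K, hK⟩ := rel_left Φ V
    show ∑ K : Subgroup G, (if Rel Φ K V then
      ((w K * (x : Subgroup G → ℤ) K : ℤ) : ℚ) / (cl K : ℚ) else 0) = _
    rw [← Finset.sum_filter]
    have h3 : ∀ K' ∈ Finset.univ.filter (fun K' : Subgroup G => Rel Φ K' V),
        ((w K' * (x : Subgroup G → ℤ) K' : ℤ) : ℚ) / (cl K' : ℚ)
        = ((w' V * (Φ x : Subgroup H → ℤ) V : ℤ) : ℚ) / (cl K : ℚ) := by
      intro K' hK'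
      rw [Finset.mem_filter] at hK'
      have h4 : Cj K K' := (rel_cj_iff hK hK'.2).mpr (Cj.refl V)
      have h5 : cl K' = cl K := by
        obtain ⟨g, rfl⟩ := h4
        exact cl_cj g K
      rw [h5, hw K' V hK'.2, hK'.2 x]
    rw [Finset.sum_congr rfl h3, Finset.sum_const, card_rel_left hK, nsmul_eq_mul]
    have : (cl K : ℚ) ≠ 0 := by exact_mod_cast (cl_pos K).ne'
    field_simp
  have h3 := Finset.sum_comm (s := (Finset.univ : Finset (Subgroup G)))
    (t := (Finset.univ : Finset (Subgroup H))) (f := f)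
  rw [Finset.sum_congr rfl (fun K _ => h1 K), Finset.sum_congr rfl (fun V _ => h2 V)] at h3
  exact_mod_cast h3

/-! ### orders of the groups -/

omit [Fintype (Subgroup G)] in
lemma mark_mul_card_le (K : Subgroup G) : mark K K * (Nat.card K : ℤ) ≤ (Nat.card G : ℤ) := by
  rw [mark_mul_card]
  exact_mod_cast Finite.card_subtype_le _

omit [Fintype (Subgroup G)] in
lemma card_ge_p {p : ℕ} (hp : p.Prime) (hG : IsPGroup p G) {K : Subgroup G} (hK : K ≠ ⊥) :
    p ≤ Nat.card K := by
  have := Fact.mk hp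
  obtain ⟨k, hk⟩ := IsPGroup.iff_card.mp (hG.to_subgroup K)
  have hk0 : k ≠ 0 := by
    rintro rfl
    rw [pow_zero] at hk
    exact hK (Subgroup.eq_bot_of_card_eq K hk)
  rw [hk]
  calc p = p ^ 1 := (pow_one p).symm
    _ ≤ p ^ k := Nat.pow_le_pow_right hp.pos (Nat.one_le_iff_ne_zero.mpr hk0)

omit [Fintype (Subgroup G)] in
lemma cond_le {p : ℕ} (hp : p.Prime) (hG : IsPGroup p G) (K : Subgroup G) :
    cond p K ≤ (Nat.card G : ℤ) := by
  unfold cond
  by_cases h : K = ⊥
  · rw [if_pos h]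
  · rw [if_neg h]
    have h1 := mark_mul_card_le K
    have h2 : (p : ℤ) ≤ (Nat.card K : ℤ) := by exact_mod_cast card_ge_p hp hG h
    have h3 := mark_self_pos K
    nlinarith

lemma card_eq_of_iso {p : ℕ} (hp : p.Prime) (hG : IsPGroup p G) (hH : IsPGroup p H)
    (Φ : BG G ≃+* BG H) : Nat.card G = Nat.card H := by
  have h1 : ∀ {G H : Type} [Group G] [Group H] [Fintype G] [Fintype H]
    [Fintype (Subgroup G)] [Fintype (Subgroup H)] (_ : IsPGroup p G) (_ : IsPGroup p H)
    (_ : BG G ≃+* BG H), Nat.card G ≤ Nat.card H := by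
    intro G H _ _ _ _ _ _ hG hH Φ
    obtain ⟨V, hV⟩ := rel_right Φ ⊥
    have h2 := cond_eq hp hG hH hV
    have h3 := cond_le hp hH V
    rw [← h2, cond, if_pos rfl] at h3
    exact_mod_cast h3
  exact le_antisymm (h1 hG hH Φ) (h1 hH hG Φ.symm)

omit [Fintype (Subgroup G)] in
/-- A nontrivial class with maximal conductor is normal of order `p`. -/
lemma normal_of_cond {p : ℕ} (hp : p.Prime) (hG : IsPGroup p G) {K : Subgroup G} (hK : K ≠ ⊥)
    (h : cond p K = (Nat.card G : ℤ)) : K.Normal ∧ Nat.card K = p := by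
  rw [cond, if_neg hK] at h
  have h1 := mark_mul_card_le K
  have h2 : (p : ℤ) ≤ (Nat.card K : ℤ) := by exact_mod_cast card_ge_p hp hG hK
  have h3 := mark_self_pos K
  have h4 : (Nat.card K : ℤ) = p := by nlinarith
  refine ⟨?_, by exact_mod_cast h4⟩
  have h5 := mark_mul_card K K
  rw [h4, mul_comm, h] at h5
  have h6 : Nat.card {g : G // K ≤ cj g K} = Nat.card G := by exact_mod_cast h5.symm
  apply normal_of_cj
  intro g
  apply cj_eq_of_le
  by_contra hg
  have h7 : Nat.card {g : G // K ≤ cj g K} < Nat.card G := by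
    rw [Nat.card_eq_fintype_card, Nat.card_eq_fintype_card]
    exact Fintype.card_subtype_lt hg
  omega

/-- class sizes -/
lemma cl_eq {p : ℕ} (hp : p.Prime) (hG : IsPGroup p G) (hH : IsPGroup p H)
    {Φ : BG G ≃+* BG H} {K : Subgroup G} {V : Subgroup H} (h : Rel Φ K V) (hK : K ≠ ⊥)
    (hV : V ≠ ⊥) (hc : Nat.card K = Nat.card V) : mark K K = mark V V ∧ cl K = cl V := by
  have h1 := cond_eq hp hG hH h
  rw [cond, cond, if_neg hK, if_neg hV] at h1
  have hp0 : (p : ℤ) ≠ 0 := by exact_mod_cast hp.pos.ne'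
  have h2 : mark K K = mark V V := mul_left_cancel₀ hp0 h1
  refine ⟨h2, ?_⟩
  have h3 := cl_mul K
  have h4 := cl_mul V
  rw [card_eq_of_iso hp hG hH Φ, ← h4, hc, h2] at h3
  have h5 : mark V V * (Nat.card V : ℤ) ≠ 0 :=
    mul_ne_zero (mark_self_pos V).ne' (by exact_mod_cast (Nat.card_pos (α := V)).ne')
  exact_mod_cast mul_right_cancel₀ h5 h3

end Iso

end Pool.Agent.Helper542
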