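import Mathlib
import Pool.Agent.Helper542.Transfer

set_option autoImplicit false

namespace Pool.Agent.Helper542

open Subgroup
open scoped Classical

section A

variable {G : Type} [Group G] [Fintype G]

lemma mark_bot_right (L : Subgroup G) : mark L ⊥ * (Nat.card L : ℤ) = (Nat.card G : ℤ) := by
  rw [mark_mul_card]
  congr 1
  apply Nat.card_congr
  exact Equiv.subtypeUnivEquiv (fun g => bot_le)

lemma eq_of_Cj_normal {K L : Subgroup G} [hK : K.Normal] (h : Cj K L) : L = K := by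
  obtain ⟨g, rfl⟩ := h
  exact cj_normal g K

lemma eq_of_Cj_normal' {K L : Subgroup G} [hK : K.Normal] (h : Cj L K) : L = K :=
  eq_of_Cj_normal h.symm

lemma TT_bot [Fintype (Subgroup G)] (V : Subgroup G) :
    TT (fam (⊥ : Subgroup G) 1) V = (tt ⊥ V : ℤ) := by
  unfold TT
  rw [Finset.sum_eq_single (⊥ : Subgroup G)]
  · rw [if_pos]
    exact ⟨le_rfl, by simp⟩
  · intro L _ hL
    rw [if_neg]
    intro h
    exact hL (Subgroup.eq_bot_of_card_eq L h.2)
  · intro h
    exact absurd (Finset.mem_univ _) h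

end A

section Iso

variable {G H : Type} [Group G] [Group H] [Fintype G] [Fintype H]
  [Fintype (Subgroup G)] [Fintype (Subgroup H)]

/-- Standing assumptions for a non-normalised isomorphism. -/
structure Bad (p : ℕ) (Φ : BG G ≃+* BG H) (P : Subgroup G) (Q : Subgroup H) : Prop where
  hp : p.Prime
  hG : IsPGroup p G
  hH : IsPGroup p H
  relP : Rel Φ P ⊥
  relQ : Rel Φ ⊥ Q
  Pn : P.Normal
  Qn : Q.Normal
  Pc : Nat.card P = p
  Qc : Nat.card Q = p

omit [Fintype G] [Fintype H] [Fintype (Subgroup G)] [Fintype (Subgroup H)] in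
lemma Bad.symm {p : ℕ} {Φ : BG G ≃+* BG H} {P : Subgroup G} {Q : Subgroup H}
    (B : Bad p Φ P Q) : Bad p Φ.symm Q P :=
  ⟨B.hp, B.hH, B.hG, rel_symm.mpr B.relQ, rel_symm.mpr B.relP, B.Qn, B.Pn, B.Qc, B.Pc⟩

lemma delta1 {p : ℕ} {Φ : BG G ≃+* BG H} {P : Subgroup G} {Q : Subgroup H}
    (B : Bad p Φ P Q) {U : Subgroup G} {V : Subgroup H} (hR : Rel Φ U V)
    (hU : Nat.card U = p) (hUP : U ≠ P) : p = 2 ∧ Nat.card V = 2 := by
  obtain ⟨hp, hG, hH, hP, hQ, hPn, hQn, hPc, hQc⟩ := B
  have hcard := card_eq_of_iso hp hG hH Φ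
  have hQb : Q ≠ ⊥ := by
    rintro rfl
    rw [Subgroup.card_bot] at hQc
    exact hp.one_lt.ne hQc
  have hUb : U ≠ ⊥ := by
    rintro rfl
    rw [Subgroup.card_bot] at hU
    exact hp.one_lt.ne hU
  have hVb : V ≠ ⊥ := by
    rintro rfl
    have h1 : Cj P U := (rel_cj_iff hP hR).mpr (Cj.refl _)
    exact hUP (eq_of_Cj_normal h1)
  have hVQ : V ≠ Q := by
    rintro rfl
    have h1 : Cj ⊥ U := (rel_cj_iff hQ hR).mpr (Cj.refl _)
    exact hUb (eq_of_Cj_normal h1)
  have hcond := cond_eq hp hG hH hR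
  rw [cond, cond, if_neg hUb, if_neg hVb] at hcond
  have hp0 : (p : ℤ) ≠ 0 := by exact_mod_cast hp.pos.ne'
  have hmk : mark U U = mark V V := mul_left_cancel₀ hp0 hcond
  set x : BG G := ⟨mark U, mark_mem U⟩ with hx
  set y : Subgroup H → ℤ := (Φ x : Subgroup H → ℤ) with hy
  have hgood : Good y := good_of_mem y (Φ x).2
  have hyV : y V = mark V V := by rw [← hmk]; exact hR x
  have hyQ : (p : ℤ) * y Q = (Nat.card G : ℤ) := by
    have h1 : y Q = mark U ⊥ := hQ x
    rw [h1, ← mark_bot_right U, hU, mul_comm]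
  have hsupp : ∀ W : Subgroup H, y W ≠ 0 → W = Q ∨ Cj V W := by
    intro W hW
    obtain ⟨K, hK⟩ := rel_left Φ W
    have h1 : y W = mark U K := hK x
    rw [h1] at hW
    obtain ⟨g, hg⟩ := (mark_ne_zero_iff U K).mp hW
    have h2 : Nat.card K ∣ p := by
      rw [← hU, ← card_cj g U]
      exact Subgroup.card_dvd_of_le hg
    rcases (Nat.dvd_prime hp).mp h2 with h3 | h3
    · left
      have h4 : K = ⊥ := Subgroup.eq_bot_of_card_eq K h3
      subst h4
      have h5 : Cj Q W := (rel_cj_iff hQ hK).mp (Cj.refl _)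
      exact eq_of_Cj_normal h5
    · right
      have h4 : Cj U K := ⟨g, Subgroup.eq_of_le_of_card_ge hg (by rw [card_cj, h3, hU])⟩
      exact (rel_cj_iff hR hK).mp h4
  have hVQ' : ¬ Cj V Q := fun h => hVQ (eq_of_Cj_normal' h)
  -- congruence at the trivial subgroup
  have hp2 : p = 2 := by
    have h1 := hgood.2 (fam (⊥ : Subgroup H) 1) (CC_fam ⊥ 1)
    have h2 : ∀ W : Subgroup H, TT (fam (⊥ : Subgroup H) 1) W * y W
        = (if W = Q then TT (fam (⊥ : Subgroup H) 1) Q * y Q else 0)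
          + (TT (fam (⊥ : Subgroup H) 1) W * y W) * ind V W := by
      intro W
      by_cases hWQ : W = Q
      · subst hWQ
        rw [if_pos rfl, ind, if_neg hVQ']; ring
      · rw [if_neg hWQ, ind]
        by_cases hVW : Cj V W
        · rw [if_pos hVW]; ring
        · rw [if_neg hVW]
          have : y W = 0 := by
            by_contra h3
            rcases hsupp W h3 with h4 | h4
            · exact hWQ h4
            · exact hVW h4
          rw [this]; ring
    rw [Finset.sum_congr rfl (fun W _ => h2 W), Finset.sum_add_distrib,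
      Finset.sum_ite_eq' Finset.univ Q, if_pos (Finset.mem_univ _),
      sum_mul_class V (fun W => TT (fam (⊥ : Subgroup H) 1) W * y W)
        (fun g => by rw [TT_cj (CC_fam ⊥ 1), hgood.1])] at h1
    obtain ⟨m, hm⟩ := TT_fam hp hH (bot_le : (⊥ : Subgroup H) ≤ Q) (Ne.symm hQb) (n := 1)
      (by rw [mul_one, hQc])
    have hε : ∃ ε : ℤ, (ε = 0 ∨ ε = 1) ∧
        (p : ℤ) * TT (fam (⊥ : Subgroup H) 1) V = ε * ((p - 1) * (Nat.card V : ℤ)) := by
      rw [TT_bot]
      by_cases h0 : tt ⊥ V = 0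
      · exact ⟨0, Or.inl rfl, by rw [h0]; simp⟩
      · refine ⟨1, Or.inr rfl, ?_⟩
        have h3 := tt_count hp hH (Ne.symm hVb) h0
        have h4 : ((p * tt ⊥ V : ℕ) : ℤ) = (((p - 1) * Nat.card V : ℕ) : ℤ) := by rw [h3]
        rw [Nat.cast_mul, Nat.cast_mul, Nat.cast_sub hp.one_lt.le] at h4
        rw [one_mul]
        exact_mod_cast h4
    obtain ⟨ε, hε1, hε2⟩ := hε
    have h5 : (p : ℤ) * (Nat.card H : ℤ) ∣ (p : ℤ) * (TT (fam (⊥ : Subgroup H) 1) Q * y Q
        + (cl V : ℤ) * (TT (fam (⊥ : Subgroup H) 1) V * y V)) := mul_dvd_mul_left _ h1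
    have h6 : (p : ℤ) * (TT (fam (⊥ : Subgroup H) 1) Q * y Q
        + (cl V : ℤ) * (TT (fam (⊥ : Subgroup H) 1) V * y V))
        = ((p - 1) * (1 + p * m + ε)) * (Nat.card H : ℤ) := by
      calc (p : ℤ) * (TT (fam (⊥ : Subgroup H) 1) Q * y Q
            + (cl V : ℤ) * (TT (fam (⊥ : Subgroup H) 1) V * y V))
          = ((p : ℤ) * TT (fam (⊥ : Subgroup H) 1) Q) * y Q
            + (cl V : ℤ) * (((p : ℤ) * TT (fam (⊥ : Subgroup H) 1) V) * y V) := by ring
        _ = (1 + p * m) * (p - 1) * (p * y Q)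
            + ε * (p - 1) * ((cl V : ℤ) * (mark V V * (Nat.card V : ℤ))) := by
            rw [hm, hε2, hQc, hyV]; ring
        _ = _ := by rw [hyQ, cl_mul, hcard]; ring
    rw [h6] at h5
    have hH0 : (Nat.card H : ℤ) ≠ 0 := by exact_mod_cast (Nat.card_pos (α := H)).ne'
    have h7 : (p : ℤ) ∣ (p - 1) * (1 + p * m + ε) := (mul_dvd_mul_iff_right hH0).mp h5
    have h8 : (p : ℤ) ∣ 1 + ε := by
      have h9 : (1 + ε : ℤ) = p * (m * (p - 1) + (1 + ε)) - (p - 1) * (1 + p * m + ε) := by ring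
      rw [h9]
      exact dvd_sub (Dvd.intro _ rfl) h7
    have h10 := hp.two_le
    rcases hε1 with rfl | rfl
    · have := Int.le_of_dvd (by norm_num) h8
      omega
    · have := Int.le_of_dvd (by norm_num) h8
      omega
  refine ⟨hp2, ?_⟩
  subst hp2
  by_contra hV2
  have := Fact.mk hp
  obtain ⟨v, hv⟩ := IsPGroup.iff_card.mp (hH.to_subgroup V)
  have hv0 : v ≠ 0 := by
    rintro rfl
    exact hVb (Subgroup.eq_bot_of_card_eq V (by rw [hv, pow_zero]))
  obtain ⟨n, hn⟩ : ∃ n, 2 * n = Nat.card V :=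
    ⟨2 ^ (v - 1), by rw [hv, ← pow_succ']; congr 1; omega⟩
  have hn2 : 2 ≤ n := by
    have : 0 < Nat.card V := Nat.card_pos
    omega
  have h1 := star_formula hgood (CC_fam (⊥ : Subgroup H) n) (fun L hL => hL.2) V (by omega) (by
    intro V' hV' h
    have h2 : y V' ≠ 0 := right_ne_zero_of_mul h
    rcases hsupp V' h2 with h3 | h3
    · rw [h3, hQc] at hV'; omega
    · exact h3)
  have h2 : (Nat.card H : ℤ) ∣ (n : ℤ) * (∑ L : Subgroup H, if fam ⊥ n L then y L else 0) := by
    by_cases hn' : n = 2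
    · have h3 : (∑ L : Subgroup H, if fam ⊥ n L then y L else 0) = y Q := by
        rw [Finset.sum_eq_single Q]
        · rw [if_pos]; exact ⟨bot_le, by rw [hQc, hn']⟩
        · intro L _ hL
          by_cases h4 : fam ⊥ n L
          · rw [if_pos h4]
            by_contra h5
            rcases hsupp L h5 with h6 | h6
            · exact hL h6
            · have := h6.card
              rw [h4.2] at this
              omega
          · rw [if_neg h4]
        · intro h; exact absurd (Finset.mem_univ _) h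
      rw [h3, hn', ← hcard]
      exact ⟨1, by rw [mul_one]; exact_mod_cast hyQ⟩
    · have h3 : (∑ L : Subgroup H, if fam ⊥ n L then y L else 0) = 0 := by
        apply Finset.sum_eq_zero
        intro L _
        by_cases h4 : fam ⊥ n L
        · rw [if_pos h4]
          by_contra h5
          rcases hsupp L h5 with h6 | h6
          · have h7 := h4.2
            rw [h6, hQc] at h7
            exact hn' h7.symm
          · have := h6.card
            rw [h4.2] at this
            omega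
        · rw [if_neg h4]
      rw [h3, mul_zero]; exact dvd_zero _
  have h3 := (dvd_add_right h2).mp h1
  obtain ⟨m, hm⟩ := TT_fam hp hH (bot_le : (⊥ : Subgroup H) ≤ V) (Ne.symm hVb) hn
  have h4 : (2 : ℤ) * (Nat.card H : ℤ) ∣ (2 : ℤ) * ((cl V : ℤ) * (TT (fam ⊥ n) V * y V)) :=
    mul_dvd_mul_left _ h3
  have h5 : (2 : ℤ) * ((cl V : ℤ) * (TT (fam ⊥ n) V * y V))
      = (1 + 2 * m) * (Nat.card H : ℤ) := by
    calc (2 : ℤ) * ((cl V : ℤ) * (TT (fam ⊥ n) V * y V))
        = (cl V : ℤ) * ((((2 : ℕ) : ℤ) * TT (fam ⊥ n) V) * y V) := by push_cast; ring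
      _ = (1 + 2 * m) * ((cl V : ℤ) * (mark V V * (Nat.card V : ℤ))) := by
          rw [hm, hyV]; push_cast; ring
      _ = _ := by rw [cl_mul]
  rw [h5] at h4
  have hH0 : (Nat.card H : ℤ) ≠ 0 := by exact_mod_cast (Nat.card_pos (α := H)).ne'
  have h7 : (2 : ℤ) ∣ (1 + 2 * m) := (mul_dvd_mul_iff_right hH0).mp h4
  omega

end Iso

end Pool.Agent.Helper542
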