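import Mathlib
import Pool.Agent.Helper542.Norm

set_option autoImplicit false

namespace Pool.Agent.Helper542

open Subgroup
open scoped Classical

section A

variable {G : Type} [Group G] [Fintype G]

/-- subgroups of order two different from `P` -/
def two (P : Subgroup G) : Subgroup G → Prop := fun L => Nat.card L = 2 ∧ L ≠ P

omit [Fintype G] in
lemma CC_two (P : Subgroup G) [hP : P.Normal] : CC (two P) := by
  intro g K hK
  refine ⟨by rw [card_cj]; exact hK.1, ?_⟩
  intro h
  apply hK.2
  have h1 := congrArg (cj g⁻¹) h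
  rw [cj_inv_cj, cj_normal] at h1
  exact h1

lemma TT_two [Fintype (Subgroup G)] {P : Subgroup G} (hP : Nat.card P = 2) (V : Subgroup G) :
    TT (two P) V = TT (fam ⊥ 2) V - (tt P V : ℤ) := by
  unfold TT
  have h : (tt P V : ℤ) = ∑ L : Subgroup G, if L = P then (tt P V : ℤ) else 0 := by
    rw [Finset.sum_ite_eq' Finset.univ P, if_pos (Finset.mem_univ _)]
  rw [h, ← Finset.sum_sub_distrib]
  apply Finset.sum_congr rfl
  intro L _
  by_cases h1 : L = P
  · subst h1
    have h2 : ¬ two L L := fun h => h.2 rfl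
    have h3 : fam ⊥ 2 L := ⟨bot_le, hP⟩
    rw [if_neg h2, if_pos h3, if_pos rfl, sub_self]
  · rw [if_neg h1, sub_zero]
    by_cases h2 : Nat.card L = 2
    · have h3 : two P L := ⟨h2, h1⟩
      have h4 : fam ⊥ 2 L := ⟨bot_le, h2⟩
      rw [if_pos h3, if_pos h4]
    · have h3 : ¬ two P L := fun h => h2 h.1
      have h4 : ¬ fam ⊥ 2 L := fun h => h2 h.2
      rw [if_neg h3, if_neg h4]

end A

section Iso

variable {G H : Type} [Group G] [Group H] [Fintype G] [Fintype H]
  [Fintype (Subgroup G)] [Fintype (Subgroup H)]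

lemma delta2 {Φ : BG G ≃+* BG H} {P : Subgroup G} {Q : Subgroup H}
    (B : Bad 2 Φ P Q) {U : Subgroup G} (hU : Nat.card U = 4) : P ≤ U := by
  by_contra hPU
  obtain ⟨hp, hG, hH, hP, hQ, hPn, hQn, hPc, hQc⟩ := id B
  obtain ⟨V, hR⟩ := rel_right Φ U
  have hcard := card_eq_of_iso hp hG hH Φ
  have hQb : Q ≠ ⊥ := by
    rintro rfl
    rw [Subgroup.card_bot] at hQc
    omega
  have hUb : U ≠ ⊥ := by
    rintro rfl
    rw [Subgroup.card_bot] at hU
    omega
  have hUP : U ≠ P := by
    rintro rfl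
    exact hPU le_rfl
  have hVb : V ≠ ⊥ := by
    rintro rfl
    have h1 : Cj P U := (rel_cj_iff hP hR).mpr (Cj.refl _)
    exact hUP (eq_of_Cj_normal h1)
  have hVQ : V ≠ Q := by
    rintro rfl
    have h1 : Cj ⊥ U := (rel_cj_iff hQ hR).mpr (Cj.refl _)
    exact hUb (eq_of_Cj_normal h1)
  have hV2 : Nat.card V ≠ 2 := by
    intro h
    have h1 := (delta1 B.symm (rel_symm.mpr hR) h hVQ).2
    omega
  have hcond := cond_eq hp hG hH hR
  rw [cond, cond, if_neg hUb, if_neg hVb] at hcond
  have hp0 : ((2 : ℕ) : ℤ) ≠ 0 := by norm_num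
  have hmk : mark U U = mark V V := mul_left_cancel₀ hp0 hcond
  set x : BG G := ⟨mark U, mark_mem U⟩ with hx
  set y : Subgroup H → ℤ := (Φ x : Subgroup H → ℤ) with hy
  have hgoodx : Good (mark U) := good_of_mem _ x.2
  have hgood : Good y := good_of_mem y (Φ x).2
  have hyV : y V = mark V V := by rw [← hmk]; exact hR x
  have hyQ : (4 : ℤ) * y Q = (Nat.card G : ℤ) := by
    have h1 : y Q = mark U ⊥ := hQ x
    rw [h1, ← mark_bot_right U, hU, mul_comm]; rfl
  -- support of `mark U`
  have hmU : ∀ K : Subgroup G, mark U K ≠ 0 → K = ⊥ ∨ two P K ∨ Cj U K := by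
    intro K hK
    obtain ⟨g, hg⟩ := (mark_ne_zero_iff U K).mp hK
    have h2 : Nat.card K ∣ 4 := by
      rw [← hU, ← card_cj g U]
      exact Subgroup.card_dvd_of_le hg
    have h3 : Nat.card K = 1 ∨ Nat.card K = 2 ∨ Nat.card K = 4 := by
      have h4 : Nat.card K ≤ 4 := Nat.le_of_dvd (by norm_num) h2
      have h5 : 0 < Nat.card K := Nat.card_pos
      interval_cases h : Nat.card K
      · left; rfl
      · right; left; rfl
      · omega
      · right; right; rfl
    rcases h3 with h3 | h3 | h3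
    · left; exact Subgroup.eq_bot_of_card_eq K h3
    · right; left
      refine ⟨h3, ?_⟩
      rintro rfl
      apply hPU
      rwa [← cj_normal g K, cj_le_cj] at hg
    · right; right
      exact ⟨g, Subgroup.eq_of_le_of_card_ge hg (by rw [card_cj, h3, hU])⟩
  have hcompat : ∀ K V' , Rel Φ K V' → two P K → two Q V' := by
    intro K V' hKV hK
    obtain ⟨h1, h2⟩ := hK
    refine ⟨(delta1 B hKV h1 h2).2, ?_⟩
    rintro rfl
    have h3 : Cj ⊥ K := (rel_cj_iff hQ hKV).mpr (Cj.refl _)
    have h4 := eq_of_Cj_normal h3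
    rw [h4, Subgroup.card_bot] at h1
    omega
  have hcompat' : ∀ K V' , Rel Φ K V' → two Q V' → two P K := by
    intro K V' hKV hK
    obtain ⟨h1, h2⟩ := hK
    refine ⟨(delta1 B.symm (rel_symm.mpr hKV) h1 h2).2, ?_⟩
    rintro rfl
    have h3 : Cj ⊥ V' := (rel_cj_iff hP hKV).mp (Cj.refl _)
    have h4 := eq_of_Cj_normal h3
    rw [h4, Subgroup.card_bot] at h1
    omega
  have hsupp : ∀ W : Subgroup H, y W ≠ 0 → Nat.card W = 2 ∨ Cj V W := by
    intro W hW
    obtain ⟨K, hK⟩ := rel_left Φ W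
    have h1 : y W = mark U K := hK x
    rw [h1] at hW
    rcases hmU K hW with h2 | h2 | h2
    · subst h2
      left
      have h5 : Cj Q W := (rel_cj_iff hQ hK).mp (Cj.refl _)
      rw [eq_of_Cj_normal h5, hQc]
    · left
      exact (hcompat K W hK h2).1
    · right
      exact (rel_cj_iff hR hK).mp h2
  have := Fact.mk hp
  obtain ⟨v, hv⟩ := IsPGroup.iff_card.mp (hH.to_subgroup V)
  have hv0 : v ≠ 0 := by
    rintro rfl
    exact hVb (Subgroup.eq_bot_of_card_eq V (by rw [hv, pow_zero]))
  have hv1 : v ≠ 1 := by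
    rintro rfl
    exact hV2 (by rw [hv, pow_one])
  obtain ⟨j, rfl⟩ : ∃ j, v = j + 2 := ⟨v - 2, by omega⟩
  have hV4 : 2 < Nat.card V := by
    rw [hv, pow_add]
    have : 0 < 2 ^ j := by positivity
    omega
  have hH0 : (Nat.card H : ℤ) ≠ 0 := by exact_mod_cast (Nat.card_pos (α := H)).ne'
  have hHpos : (0 : ℤ) < (Nat.card H : ℤ) := by exact_mod_cast (Nat.card_pos (α := H))
  -- (a)
  have hQV : Q ≤ V := by
    by_contra hQV
    have h1 := star_formula hgood (CC_fam Q 2) (fun L hL => hL.2) V hV4 (by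
      intro V' hV' h
      have h2 : y V' ≠ 0 := right_ne_zero_of_mul h
      rcases hsupp V' h2 with h3 | h3
      · omega
      · exact h3)
    rw [TT_fam_not hQV, zero_mul, mul_zero, add_zero] at h1
    have h3 : (∑ L : Subgroup H, if fam Q 2 L then y L else 0) = y Q := by
      rw [Finset.sum_eq_single Q]
      · rw [if_pos]; exact ⟨le_rfl, hQc⟩
      · intro L _ hL
        rw [if_neg]
        intro h
        exact hL (Subgroup.eq_of_le_of_card_ge h.1 (by rw [h.2, hQc])).symm
      · intro h; exact absurd (Finset.mem_univ _) h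
    rw [h3, ← hcard] at h1
    obtain ⟨c, hc⟩ := h1
    have h4 : (Nat.card G : ℤ) * 1 = (Nat.card G : ℤ) * (2 * c) := by
      push_cast at hc
      linarith
    rw [hcard] at h4
    have h5 := mul_left_cancel₀ hH0 h4
    omega
  -- (b)
  have hj0 : j = 0 := by
    by_contra hj
    have h1 : ((2 : ℕ) : ℤ) * mark V V ∣ y V := by
      apply gamma hp hH hgood Q V hQV (Ne.symm hVQ)
      intro L hQL hL hc
      by_contra h2
      rcases hsupp L h2 with h3 | h3
      · rw [h3, hv] at hL
        obtain ⟨i, rfl⟩ : ∃ i, j = i + 1 := ⟨j - 1, by omega⟩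
        rw [show i + 1 + 2 = i + 3 by ring, pow_add] at hL
        have : 0 < 2 ^ i := by positivity
        omega
      · exact hc h3
    rw [hyV] at h1
    obtain ⟨c, hc⟩ := h1
    have h3 : mark V V * 1 = mark V V * (2 * c) := by
      push_cast at hc
      linarith
    have h4 := mul_left_cancel₀ (mark_self_pos V).ne' h3
    omega
  subst hj0
  have hV4' : Nat.card V = 4 := by rw [hv]; norm_num
  -- (c)
  have key : (Nat.card H : ℤ) ∣ ((2 : ℕ) : ℤ) * (∑ L : Subgroup H, if two Q L then y L else 0) := by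
    have h1 := star_formula hgood (CC_two Q) (fun L hL => hL.1) V hV4 (by
      intro V' hV' h
      have h2 : y V' ≠ 0 := right_ne_zero_of_mul h
      rcases hsupp V' h2 with h3 | h3
      · omega
      · exact h3)
    obtain ⟨m, hm⟩ := TT_fam hp hH (bot_le : (⊥ : Subgroup H) ≤ V) (Ne.symm hVb) (n := 2)
      (by rw [hV4'])
    have h3 := tt_count hp hH (Ne.symm hVQ) (tt_index_p hp hH hQV (by rw [hQc, hV4']))
    have h4 : (2 : ℤ) * (tt Q V : ℤ) = (Nat.card V : ℤ) := by
      have : ((2 * tt Q V : ℕ) : ℤ) = (((2 - 1) * Nat.card V : ℕ) : ℤ) := by rw [h3]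
      push_cast at this
      simpa using this
    have h5 : TT (two Q) V = m * (Nat.card V : ℤ) := by
      rw [TT_two hQc]
      push_cast at hm
      linarith
    have h6 : (Nat.card H : ℤ) ∣ (cl V : ℤ) * (TT (two Q) V * y V) := by
      rw [h5, hyV, ← cl_mul V]
      exact ⟨m, by ring⟩
    exact (dvd_add_left h6).mp h1
  have htr := transfer Φ (fun K => if two P K then 1 else 0) (fun V => if two Q V then 1 else 0)
    (by
      intro K V' hKV
      show (if two P K then (1 : ℤ) else 0) = if two Q V' then 1 else 0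
      by_cases h1 : two P K
      · rw [if_pos h1, if_pos (hcompat K V' hKV h1)]
      · rw [if_neg h1, if_neg (fun h => h1 (hcompat' K V' hKV h))])
    (by
      intro K V' hKV h
      have h1 : two P K := by
        by_contra h2
        apply h
        show (if two P K then (1 : ℤ) else 0) = 0
        rw [if_neg h2]
      have h2 := hcompat K V' hKV h1
      have h3 : K ≠ ⊥ := by
        rintro rfl
        have := h1.1
        rw [Subgroup.card_bot] at this
        omega
      have h4 : V' ≠ ⊥ := by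
        rintro rfl
        have := h2.1
        rw [Subgroup.card_bot] at this
        omega
      exact (cl_eq hp hG hH hKV h3 h4 (by rw [h1.1, h2.1])).2) x
  have htr' : (∑ L : Subgroup G, if two P L then mark U L else 0)
      = ∑ L : Subgroup H, if two Q L then y L else 0 := by
    have e1 : (∑ L : Subgroup G, if two P L then mark U L else 0)
        = ∑ K : Subgroup G, (fun K => if two P K then (1 : ℤ) else 0) K
          * (x : Subgroup G → ℤ) K := by
      apply Finset.sum_congr rfl
      intro L _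
      show _ = (if two P L then (1 : ℤ) else 0) * mark U L
      by_cases h : two P L
      · rw [if_pos h, if_pos h, one_mul]
      · rw [if_neg h, if_neg h, zero_mul]
    have e2 : (∑ L : Subgroup H, if two Q L then y L else 0)
        = ∑ K : Subgroup H, (fun K => if two Q K then (1 : ℤ) else 0) K
          * (Φ x : Subgroup H → ℤ) K := by
      apply Finset.sum_congr rfl
      intro L _
      show _ = (if two Q L then (1 : ℤ) else 0) * y L
      by_cases h : two Q L
      · rw [if_pos h, if_pos h, one_mul]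
      · rw [if_neg h, if_neg h, zero_mul]
    rw [e1, e2, htr]
  rw [← htr', ← hcard] at key
  have h1 := star_formula hgoodx (CC_two P) (fun L hL => hL.1) U (by rw [hU]; norm_num) (by
      intro V' hV' h
      have h2 : mark U V' ≠ 0 := right_ne_zero_of_mul h
      rcases hmU V' h2 with h3 | h3 | h3
      · rw [h3, Subgroup.card_bot] at hV'; omega
      · rw [h3.1] at hV'; omega
      · exact h3)
  have h2 := (dvd_add_right key).mp h1
  have h3 : tt P U = 0 := by
    by_contra h3
    exact hPU (tt_le h3)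
  obtain ⟨m, hm⟩ := TT_fam hp hG (bot_le : (⊥ : Subgroup G) ≤ U) (Ne.symm hUb) (n := 2)
      (by rw [hU])
  have h4 : (2 : ℤ) * TT (two P) U = (1 + 2 * m) * (Nat.card U : ℤ) := by
    rw [TT_two hPc, h3]
    push_cast at hm ⊢
    linarith
  have h5 : (2 : ℤ) * (Nat.card G : ℤ) ∣ (1 + 2 * m) * (Nat.card G : ℤ) := by
    have h6 : (2 : ℤ) * (Nat.card G : ℤ) ∣ (2 : ℤ) * ((cl U : ℤ) * (TT (two P) U * mark U U)) :=
      mul_dvd_mul_left _ h2
    have h7 : (2 : ℤ) * ((cl U : ℤ) * (TT (two P) U * mark U U))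
        = (1 + 2 * m) * (Nat.card G : ℤ) := by
      calc (2 : ℤ) * ((cl U : ℤ) * (TT (two P) U * mark U U))
          = (cl U : ℤ) * (((2 : ℤ) * TT (two P) U) * mark U U) := by ring
        _ = (1 + 2 * m) * ((cl U : ℤ) * (mark U U * (Nat.card U : ℤ))) := by rw [h4]; ring
        _ = _ := by rw [cl_mul]
    rwa [h7] at h6
  rw [hcard] at h5
  have h7 : (2 : ℤ) ∣ (1 + 2 * m) := (mul_dvd_mul_iff_right hH0).mp h5
  omega

omit [Fintype (Subgroup G)] in
lemma exists_sub {p : ℕ} (hp : p.Prime) (hG : IsPGroup p G) (U : Subgroup G) {n : ℕ}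
    (hn : p ^ n ≤ Nat.card U) : ∃ K : Subgroup G, K ≤ U ∧ Nat.card K = p ^ n := by
  have := Fact.mk hp
  obtain ⟨k, hk⟩ := IsPGroup.iff_card.mp (hG.to_subgroup U)
  have hnk : n ≤ k := by
    rw [hk] at hn
    exact (Nat.pow_le_pow_iff_right hp.one_lt).mp hn
  obtain ⟨K, hK⟩ := Sylow.exists_subgroup_card_pow_prime (G := U) p (n := n)
    (by rw [hk]; exact pow_dvd_pow p hnk)
  refine ⟨K.map U.subtype, Subgroup.map_subtype_le K, ?_⟩
  rw [Subgroup.card_map_of_injective U.subtype_injective, hK]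

theorem delta {p : ℕ} {Φ : BG G ≃+* BG H} {P : Subgroup G} {Q : Subgroup H}
    (B : Bad p Φ P Q) {U : Subgroup G} (hPU : ¬ P ≤ U) (hU : U ≠ ⊥) :
    p = 2 ∧ Nat.card U = 2 := by
  have hp := B.hp
  have hG := B.hG
  have h1 : p = 2 := by
    have h2 := card_ge_p hp hG hU
    obtain ⟨K, hKU, hK⟩ := exists_sub hp hG U (n := 1) (by rw [pow_one]; exact h2)
    rw [pow_one] at hK
    obtain ⟨V, hV⟩ := rel_right Φ K
    exact (delta1 B hV hK (by rintro rfl; exact hPU hKU)).1
  subst h1
  refine ⟨rfl, ?_⟩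
  by_contra h2
  have h3 : 2 ^ 2 ≤ Nat.card U := by
    have := Fact.mk hp
    obtain ⟨k, hk⟩ := IsPGroup.iff_card.mp (hG.to_subgroup U)
    rw [hk] at h2 ⊢
    apply Nat.pow_le_pow_right (by norm_num)
    by_contra h4
    have h5 : k = 0 ∨ k = 1 := by omega
    rcases h5 with rfl | rfl
    · rw [pow_zero] at hk
      exact hU (Subgroup.eq_bot_of_card_eq U hk)
    · exact h2 (pow_one 2)
  obtain ⟨K, hKU, hK⟩ := exists_sub hp hG U (n := 2) h3
  exact hPU ((delta2 B (by rw [hK]; norm_num)).trans hKU)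

end Iso

end Pool.Agent.Helper542
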