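import Mathlib
import Pool.Agent.Helper542.Norm2

set_option autoImplicit false

namespace Pool.Agent.Helper542

open Subgroup
open scoped Classical

section A

variable {G : Type} [Group G]

/-- exchange of the two coordinates `⊥` and `P` -/
noncomputable def sw (P : Subgroup G) (K : Subgroup G) : Subgroup G :=
  if K = ⊥ then P else if K = P then ⊥ else K

lemma sw_bot (P : Subgroup G) : sw P ⊥ = P := if_pos rfl

lemma sw_self (P : Subgroup G) : sw P P = ⊥ := by
  unfold sw
  by_cases h : P = ⊥
  · rw [if_pos h, h]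
  · rw [if_neg h, if_pos rfl]

lemma sw_of_ne {P K : Subgroup G} (h1 : K ≠ ⊥) (h2 : K ≠ P) : sw P K = K := by
  rw [sw, if_neg h1, if_neg h2]

lemma sw_sw (P K : Subgroup G) : sw P (sw P K) = K := by
  by_cases h1 : K = ⊥
  · rw [h1, sw_bot, sw_self]
  · by_cases h2 : K = P
    · rw [h2, sw_self, sw_bot]
    · rw [sw_of_ne h1 h2, sw_of_ne h1 h2]

/-- composition with the swap, on all functions -/
noncomputable def swHom (P : Subgroup G) : (Subgroup G → ℤ) →+* (Subgroup G → ℤ) where
  toFun x := fun K => x (sw P K)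
  map_one' := rfl
  map_mul' := fun _ _ => rfl
  map_zero' := rfl
  map_add' := fun _ _ => rfl

lemma swHom_apply (P : Subgroup G) (x : Subgroup G → ℤ) (K : Subgroup G) :
    swHom P x K = x (sw P K) := rfl

lemma swHom_mem (P : Subgroup G) (h : ∀ L : Subgroup G, swHom P (mark L) ∈ BG G)
    {x : Subgroup G → ℤ} (hx : x ∈ BG G) : swHom P x ∈ BG G := by
  have h1 : BG G ≤ (BG G).comap (swHom P) := by
    unfold BG
    rw [Subring.closure_le]
    rintro _ ⟨L, rfl⟩
    exact h L
  exact h1 hx

/-- the automorphism of the Burnside ring -/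
noncomputable def swEquiv (P : Subgroup G) (h : ∀ L : Subgroup G, swHom P (mark L) ∈ BG G) :
    BG G ≃+* BG G where
  toFun x := ⟨swHom P x, swHom_mem P h x.2⟩
  invFun x := ⟨swHom P x, swHom_mem P h x.2⟩
  left_inv := by
    intro x
    apply Subtype.ext
    funext K
    show (x : Subgroup G → ℤ) (sw P (sw P K)) = (x : Subgroup G → ℤ) K
    rw [sw_sw]
  right_inv := by
    intro x
    apply Subtype.ext
    funext K
    show (x : Subgroup G → ℤ) (sw P (sw P K)) = (x : Subgroup G → ℤ) K
    rw [sw_sw]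
  map_mul' := by
    intro x y
    apply Subtype.ext
    rfl
  map_add' := by
    intro x y
    apply Subtype.ext
    rfl

end A

section B

variable {G : Type} [Group G] [Fintype G] [Fintype (Subgroup G)]

omit [Fintype (Subgroup G)] in
lemma mark_normal_of_le {P L : Subgroup G} (hP : P.Normal) (h : P ≤ L) :
    mark L P = mark L ⊥ := by
  have h1 := mark_mul_card L P
  have h2 := mark_mul_card L ⊥
  have h3 : Nat.card {g : G // P ≤ cj g L} = Nat.card {g : G // ⊥ ≤ cj g L} := by
    apply Nat.card_congr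
    apply Equiv.subtypeEquivRight
    intro g
    constructor
    · intro _; exact bot_le
    · intro _
      rw [← cj_normal g P, cj_le_cj]; exact h
  rw [h3, ← h2] at h1
  exact mul_right_cancel₀ (by exact_mod_cast (Nat.card_pos (α := L)).ne') h1

omit [Fintype (Subgroup G)] in
lemma mark_normal_of_not_le {P L : Subgroup G} (hP : P.Normal) (h : ¬ P ≤ L) :
    mark L P = 0 := by
  by_contra h1
  obtain ⟨g, hg⟩ := (mark_ne_zero_iff L P).mp h1
  rw [← cj_normal g P, cj_le_cj] at hg
  exact h hg

omit [Fintype (Subgroup G)] in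
lemma mark_normal_self {P : Subgroup G} (hP : P.Normal) :
    mark P P * (Nat.card P : ℤ) = (Nat.card G : ℤ) := by
  rw [mark_normal_of_le hP le_rfl]
  exact mark_bot_right P

lemma sw_mark_mem {p : ℕ} (hp : p.Prime) (hG : IsPGroup p G) {P : Subgroup G} (hP : P.Normal)
    (hPc : Nat.card P = p)
    (hδ : ∀ U : Subgroup G, ¬ P ≤ U → U ≠ ⊥ → p = 2 ∧ Nat.card U = 2) (L : Subgroup G) :
    swHom P (mark L) ∈ BG G := by
  have hPb : P ≠ ⊥ := by
    rintro rfl
    rw [Subgroup.card_bot] at hPc
    exact hp.one_lt.ne hPc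
  by_cases hPL : P ≤ L
  · have : swHom P (mark L) = mark L := by
      funext K
      rw [swHom_apply]
      by_cases h1 : K = ⊥
      · rw [h1, sw_bot, mark_normal_of_le hP hPL]
      · by_cases h2 : K = P
        · rw [h2, sw_self, mark_normal_of_le hP hPL]
        · rw [sw_of_ne h1 h2]
    rw [this]
    exact mark_mem L
  by_cases hLb : L = ⊥
  · subst hLb
    have h1 := beta hp hG P
    convert h1 using 1
    funext K
    rw [swHom_apply, mark_bot]
    show (Nat.card G : ℤ) * ind ⊥ (sw P K) = (p : ℤ) * mark P P * ind P K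
    have h2 : (p : ℤ) * mark P P = (Nat.card G : ℤ) := by
      rw [← mark_normal_self hP, hPc, mul_comm]
    rw [h2]
    congr 1
    unfold ind
    have h3 : Cj ⊥ (sw P K) ↔ Cj P K := by
      constructor
      · intro h
        have h4 := eq_of_Cj_normal h
        have h5 : K = P := by
          rw [← sw_sw P K, h4, sw_bot]
        rw [h5]; exact Cj.refl P
      · intro h
        rw [eq_of_Cj_normal h, sw_self]
        exact Cj.refl _
    rw [if_congr h3 rfl rfl]
  obtain ⟨hp2, hL2⟩ := hδ L hPL hLb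
  subst hp2
  have h1 : swHom P (mark L) = mark L + (mark P - mark ⊥) := by
    have hPb1 : mark P P = mark P ⊥ := mark_normal_of_le hP le_rfl
    have hbP : mark (⊥ : Subgroup G) P = 0 :=
      mark_normal_of_not_le hP (fun h => hPb (le_bot_iff.mp h))
    have hLP : mark L P = 0 := mark_normal_of_not_le hP hPL
    have h2 : mark P ⊥ * 2 = (Nat.card G : ℤ) := by
      have := mark_bot_right P
      rw [hPc] at this
      exact_mod_cast this
    have h3 : mark L ⊥ * 2 = (Nat.card G : ℤ) := by
      have := mark_bot_right L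
      rw [hL2] at this
      exact_mod_cast this
    have h4 : mark (⊥ : Subgroup G) ⊥ = (Nat.card G : ℤ) := mark_bot_bot
    funext K
    rw [swHom_apply, Pi.add_apply, Pi.sub_apply]
    by_cases h5 : K = ⊥
    · rw [h5, sw_bot, h4, hLP]
      omega
    · by_cases h6 : K = P
      · rw [h6, sw_self, hLP, hbP, hPb1]
        omega
      · rw [sw_of_ne h5 h6]
        have h7 : mark P K = 0 := by
          by_contra h8
          obtain ⟨g, hg⟩ := (mark_ne_zero_iff P K).mp h8
          rw [cj_normal] at hg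
          have h9 : Nat.card K ∣ 2 := by
            rw [← hPc]; exact Subgroup.card_dvd_of_le hg
          rcases (Nat.dvd_prime hp).mp h9 with h10 | h10
          · exact h5 (Subgroup.eq_bot_of_card_eq K h10)
          · exact h6 (Subgroup.eq_of_le_of_card_ge hg (by rw [hPc, h10]))
        have h8 : mark (⊥ : Subgroup G) K = 0 := by
          by_contra h8
          obtain ⟨g, hg⟩ := (mark_ne_zero_iff (⊥ : Subgroup G) K).mp h8
          rw [cj_bot] at hg
          exact h5 (le_bot_iff.mp hg)
        rw [h7, h8]; ring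
  rw [h1]
  exact add_mem (mark_mem L) (sub_mem (mark_mem P) (mark_mem ⊥))

end B

section Iso

variable {G H : Type} [Group G] [Group H] [Fintype G] [Fintype H]
  [Fintype (Subgroup G)] [Fintype (Subgroup H)]

/-- Normalisation. -/
theorem normalise {p : ℕ} (hp : p.Prime) (hG : IsPGroup p G) (hH : IsPGroup p H)
    (Φ : BG G ≃+* BG H) : ∃ Φ' : BG G ≃+* BG H, Rel Φ' ⊥ ⊥ := by
  obtain ⟨Q, hQ⟩ := rel_right Φ ⊥
  by_cases hQb : Q = ⊥
  · subst hQb
    exact ⟨Φ, hQ⟩
  obtain ⟨P, hP⟩ := rel_left Φ ⊥
  have hPb : P ≠ ⊥ := by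
    rintro rfl
    have h1 : Cj ⊥ Q := (rel_cj_iff hP hQ).mp (Cj.refl _)
    exact hQb (eq_of_Cj_normal h1)
  have hcard := card_eq_of_iso hp hG hH Φ
  have hcQ : cond p Q = (Nat.card H : ℤ) := by
    rw [← cond_eq hp hG hH hQ, cond, if_pos rfl, hcard]
  have hcP : cond p P = (Nat.card G : ℤ) := by
    rw [cond_eq hp hG hH hP, cond, if_pos rfl, hcard]
  obtain ⟨hQn, hQc⟩ := normal_of_cond hp hH hQb hcQ
  obtain ⟨hPn, hPc⟩ := normal_of_cond hp hG hPb hcP
  have B : Bad p Φ P Q := ⟨hp, hG, hH, hP, hQ, hPn, hQn, hPc, hQc⟩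
  have hsw := sw_mark_mem hp hG hPn hPc (fun U h1 h2 => delta B h1 h2)
  refine ⟨(swEquiv P hsw).trans Φ, ?_⟩
  intro x
  have h1 := hP (swEquiv P hsw x)
  rw [RingEquiv.trans_apply, h1]
  show (x : Subgroup G → ℤ) (sw P P) = _
  rw [sw_self]

end Iso

end Pool.Agent.Helper542
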