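import Mathlib
import Pool.Agent.Helper542.Swap

set_option autoImplicit false

namespace Pool.Agent.Helper542

open Subgroup
open scoped Classical

section Iso

variable {G H : Type} [Group G] [Group H] [Fintype G] [Fintype H]
  [Fintype (Subgroup G)] [Fintype (Subgroup H)]

/-- comparison of two powers of `p` -/
lemma pow_step {p a b : ℕ} (hp : p.Prime) (h : p ^ a < p ^ b) : p * p ^ a ≤ p ^ b := by
  rw [← pow_succ']
  exact Nat.pow_le_pow_right hp.pos ((Nat.pow_lt_pow_iff_right hp.one_lt).mp h)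

omit [Fintype (Subgroup G)] in
lemma mark_supp {p : ℕ} (hp : p.Prime) (hG : IsPGroup p G) {K K' : Subgroup G}
    (h : mark K K' ≠ 0) : Cj K K' ∨ p * Nat.card K' ≤ Nat.card K := by
  have := Fact.mk hp
  rcases Nat.lt_or_ge (Nat.card K') (Nat.card K) with h1 | h1
  · right
    obtain ⟨a, ha⟩ := IsPGroup.iff_card.mp (hG.to_subgroup K')
    obtain ⟨b, hb⟩ := IsPGroup.iff_card.mp (hG.to_subgroup K)
    rw [ha, hb] at h1 ⊢
    exact pow_step hp h1
  · left
    exact cj_of_mark_ne_zero h h1

/-- induction step for the equality of orders -/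
lemma order_step {p : ℕ} (hp : p.Prime) (hG : IsPGroup p G) (hH : IsPGroup p H)
    {Φ : BG G ≃+* BG H} (h0 : Rel Φ ⊥ ⊥) (n : ℕ)
    (ih : ∀ K V, Rel Φ K V → (Nat.card K < n ∨ Nat.card V < n) → Nat.card K = Nat.card V)
    {K : Subgroup G} {V : Subgroup H} (hR : Rel Φ K V) (hK : Nat.card K = n) :
    Nat.card K = Nat.card V := by
  have := Fact.mk hp
  rcases lt_trichotomy (Nat.card V) n with h | h | h
  · exact ih K V hR (Or.inr h)
  · rw [hK, h]
  · exfalso
    have hVb : V ≠ ⊥ := by
      rintro rfl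
      rw [Subgroup.card_bot] at h
      have : 0 < Nat.card K := Nat.card_pos
      omega
    have hKb : K ≠ ⊥ := by
      rintro rfl
      have h1 : Cj ⊥ V := (rel_cj_iff h0 hR).mp (Cj.refl _)
      exact hVb (eq_of_Cj_normal h1)
    have hcond := cond_eq hp hG hH hR
    rw [cond, cond, if_neg hKb, if_neg hVb] at hcond
    have hp0 : (p : ℤ) ≠ 0 := by exact_mod_cast hp.pos.ne'
    have hmk : mark K K = mark V V := mul_left_cancel₀ hp0 hcond
    set x : BG G := ⟨mark K, mark_mem K⟩ with hx
    have hgood : Good (Φ x : Subgroup H → ℤ) := good_of_mem _ (Φ x).2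
    have hyV : (Φ x : Subgroup H → ℤ) V = mark V V := by rw [← hmk]; exact hR x
    have h1 : (p : ℤ) * mark V V ∣ (Φ x : Subgroup H → ℤ) V := by
      apply gamma hp hH hgood ⊥ V bot_le (Ne.symm hVb)
      intro L _ hL hc
      by_contra h2
      obtain ⟨K', hK'⟩ := rel_left Φ L
      have h3 : (Φ x : Subgroup H → ℤ) L = mark K K' := hK' x
      rw [h3] at h2
      rcases mark_supp hp hG h2 with h4 | h4
      · exact hc ((rel_cj_iff hR hK').mp h4)
      · have h5 : Nat.card K' < n := by
          have h6 : 0 < Nat.card K' := Nat.card_pos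
          have := hp.two_le
          nlinarith
        have h6 := ih K' L hK' (Or.inl h5)
        rw [h6, hK] at h4
        omega
    rw [hyV] at h1
    obtain ⟨c, hc⟩ := h1
    have h3 : mark V V * 1 = mark V V * (p * c) := by
      linarith
    have h4 := mul_left_cancel₀ (mark_self_pos V).ne' h3
    have h5 : (p : ℤ) ∣ 1 := ⟨c, h4⟩
    have h6 := Int.le_of_dvd (by norm_num) h5
    have := hp.two_le
    omega

theorem order_eq {p : ℕ} (hp : p.Prime) (hG : IsPGroup p G) (hH : IsPGroup p H)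
    {Φ : BG G ≃+* BG H} (h0 : Rel Φ ⊥ ⊥) {K : Subgroup G} {V : Subgroup H} (hR : Rel Φ K V) :
    Nat.card K = Nat.card V := by
  have main : ∀ n : ℕ, ∀ K V, Rel Φ K V → (Nat.card K < n ∨ Nat.card V < n) →
      Nat.card K = Nat.card V := by
    intro n
    induction n with
    | zero =>
      intro K V _ h
      omega
    | succ n ih =>
      intro K V hR h
      by_cases h1 : Nat.card K < n ∨ Nat.card V < n
      · exact ih K V hR h1
      · have h2 : Nat.card K = n ∨ Nat.card V = n := by omega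
        rcases h2 with h2 | h2
        · exact order_step hp hG hH h0 n ih hR h2
        · have ih' : ∀ V' K', Rel Φ.symm V' K' → (Nat.card V' < n ∨ Nat.card K' < n) →
              Nat.card V' = Nat.card K' := by
            intro V' K' hR' h'
            exact (ih K' V' (rel_symm.mp hR') (Or.symm h')).symm
          exact (order_step hp hH hG (rel_symm.mpr h0) n ih' (rel_symm.mpr hR) h2).symm
  exact main (Nat.card K + 1) K V hR (Or.inl (Nat.lt_succ_self _))

omit [Fintype (Subgroup G)] in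
lemma cl_normal {K : Subgroup G} (hK : K.Normal) : cl K = 1 := by
  rw [cl, Nat.card_eq_one_iff_unique]
  constructor
  · constructor
    intro a b
    apply Subtype.ext
    rw [eq_of_Cj_normal a.2, eq_of_Cj_normal b.2]
  · exact ⟨⟨K, Cj.refl K⟩⟩

/-- marks and class sizes agree -/
theorem mk_cl_eq {p : ℕ} (hp : p.Prime) (hG : IsPGroup p G) (hH : IsPGroup p H)
    {Φ : BG G ≃+* BG H} (h0 : Rel Φ ⊥ ⊥) {K : Subgroup G} {V : Subgroup H} (hR : Rel Φ K V) :
    mark K K = mark V V ∧ cl K = cl V := by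
  have hc := order_eq hp hG hH h0 hR
  have hcard := card_eq_of_iso hp hG hH Φ
  by_cases hK : K = ⊥
  · subst hK
    have hV : V = ⊥ := by
      apply Subgroup.eq_bot_of_card_eq
      rw [← hc, Subgroup.card_bot]
    subst hV
    refine ⟨by rw [mark_bot_bot, mark_bot_bot, hcard], ?_⟩
    rw [cl_normal (inferInstance : (⊥ : Subgroup G).Normal),
      cl_normal (inferInstance : (⊥ : Subgroup H).Normal)]
  · have hV : V ≠ ⊥ := by
      rintro rfl
      rw [Subgroup.card_bot] at hc
      exact hK (Subgroup.eq_bot_of_card_eq K hc)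
    exact cl_eq hp hG hH hR hK hV hc

omit [Fintype (Subgroup G)] in
lemma normal_of_cl {K : Subgroup G} (h : cl K = 1) : K.Normal := by
  rw [cl, Nat.card_eq_one_iff_unique] at h
  have h1 := h.1
  apply normal_of_cj
  intro g
  have h2 : (⟨cj g K, ⟨g, rfl⟩⟩ : {K' : Subgroup G // Cj K K'}) = ⟨K, Cj.refl K⟩ :=
    Subsingleton.elim _ _
  exact congrArg Subtype.val h2

/-- normality corresponds -/
theorem normal_rel {p : ℕ} (hp : p.Prime) (hG : IsPGroup p G) (hH : IsPGroup p H)
    {Φ : BG G ≃+* BG H} (h0 : Rel Φ ⊥ ⊥) {K : Subgroup G} {V : Subgroup H} (hR : Rel Φ K V)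
    (hK : K.Normal) : V.Normal := by
  apply normal_of_cl
  rw [← (mk_cl_eq hp hG hH h0 hR).2]
  exact cl_normal hK

/-- transfer with weights, in the normalised case -/
lemma transfer' {p : ℕ} (hp : p.Prime) (hG : IsPGroup p G) (hH : IsPGroup p H)
    {Φ : BG G ≃+* BG H} (h0 : Rel Φ ⊥ ⊥) (w : Subgroup G → ℤ) (w' : Subgroup H → ℤ)
    (hw : ∀ K V, Rel Φ K V → w K = w' V) (x : BG G) :
    ∑ K : Subgroup G, w K * (x : Subgroup G → ℤ) K
      = ∑ V : Subgroup H, w' V * (Φ x : Subgroup H → ℤ) V :=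
  transfer Φ w w' hw (fun _ _ hR _ => (mk_cl_eq hp hG hH h0 hR).2) x

omit [Fintype (Subgroup G)] in
lemma half {p : ℕ} (hp : p.Prime) (hG : IsPGroup p G) {K : Subgroup G} (hK : K ≠ ⊥) :
    ∃ n, p * n = Nat.card K := by
  have := Fact.mk hp
  obtain ⟨v, hv⟩ := IsPGroup.iff_card.mp (hG.to_subgroup K)
  have hv0 : v ≠ 0 := by
    rintro rfl
    exact hK (Subgroup.eq_bot_of_card_eq K (by rw [hv, pow_zero]))
  exact ⟨p ^ (v - 1), by rw [hv, ← pow_succ']; congr 1; omega⟩

lemma not_dvd_aux {p : ℕ} (hp : p.Prime) {g m : ℤ} (hg : g ≠ 0) :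
    ¬ (p : ℤ) * g ∣ (1 + p * m) * (p - 1) * g := by
  intro h
  have h1 : (p : ℤ) ∣ (1 + p * m) * (p - 1) := (mul_dvd_mul_iff_right hg).mp h
  have h2 : (p : ℤ) ∣ 1 := by
    have h3 : (1 : ℤ) = p * (1 + m * (p - 1)) - (1 + p * m) * (p - 1) := by ring
    rw [h3]
    exact dvd_sub (Dvd.intro _ rfl) h1
  have h3 := Int.le_of_dvd (by norm_num) h2
  have := hp.two_le
  omega

/-- one direction of the inclusion statement, induction step -/
lemma incl_step {p : ℕ} (hp : p.Prime) (hG : IsPGroup p G) (hH : IsPGroup p H)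
    {Φ : BG G ≃+* BG H} (h0 : Rel Φ ⊥ ⊥) {N : Subgroup G} {M : Subgroup H} (hN : N.Normal)
    (hM : M.Normal) (hNM : Rel Φ N M) (k : ℕ)
    (ih : ∀ K V, Rel Φ K V → Nat.card K < k → (N ≤ K ↔ M ≤ V))
    {K : Subgroup G} {V : Subgroup H} (hR : Rel Φ K V) (hk : Nat.card K = k) (hNK : N ≤ K) :
    M ≤ V := by
  have := Fact.mk hp
  by_cases hNeq : N = K
  · subst hNeq
    have h1 : Cj M V := (rel_cj_iff hNM hR).mp (Cj.refl _)
    rw [eq_of_Cj_normal h1]
  by_contra hMV
  have hcard := card_eq_of_iso hp hG hH Φ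
  have hKV := order_eq hp hG hH h0 hR
  obtain ⟨hmk, hcl⟩ := mk_cl_eq hp hG hH h0 hR
  have hKb : K ≠ ⊥ := by
    rintro rfl
    exact hNeq (le_bot_iff.mp hNK)
  obtain ⟨n, hn⟩ := half hp hG hKb
  have hnpos : 0 < n := by
    rcases Nat.eq_zero_or_pos n with h | h
    · rw [h, mul_zero] at hn
      exact absurd hn.symm (Nat.card_pos (α := K)).ne'
    · exact h
  have hnK : n < Nat.card K := by
    have := hp.two_le
    nlinarith
  set x : BG G := ⟨mark K, mark_mem K⟩ with hx
  have hgoodx : Good (mark K) := good_of_mem _ x.2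
  have hgood : Good (Φ x : Subgroup H → ℤ) := good_of_mem _ (Φ x).2
  have hyV : (Φ x : Subgroup H → ℤ) V = mark K K := hR x
  have h1 := star_formula hgoodx (CC_fam N n) (fun L hL => hL.2) K hnK (by
    intro V' hV' h
    have h2 : mark K V' ≠ 0 := right_ne_zero_of_mul h
    rcases mark_supp hp hG h2 with h3 | h3
    · exact h3
    · rw [← hn] at h3
      have := Nat.le_of_mul_le_mul_left h3 hp.pos
      omega)
  have h2 := star_formula hgood (CC_fam M n) (fun L hL => hL.2) V (by rw [← hKV]; exact hnK) (by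
    intro V' hV' h
    have h2 : (Φ x : Subgroup H → ℤ) V' ≠ 0 := right_ne_zero_of_mul h
    obtain ⟨K', hK'⟩ := rel_left Φ V'
    have h3 : (Φ x : Subgroup H → ℤ) V' = mark K K' := hK' x
    rw [h3] at h2
    rcases mark_supp hp hG h2 with h4 | h4
    · exact (rel_cj_iff hR hK').mp h4
    · rw [← hn, order_eq hp hG hH h0 hK'] at h4
      have := Nat.le_of_mul_le_mul_left h4 hp.pos
      omega)
  have htr := transfer' hp hG hH h0 (fun K => if fam N n K then 1 else 0)
    (fun V => if fam M n V then 1 else 0) (by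
      intro K' V' hKV'
      show (if fam N n K' then (1 : ℤ) else 0) = if fam M n V' then 1 else 0
      have h3 : fam N n K' ↔ fam M n V' := by
        unfold fam
        rw [order_eq hp hG hH h0 hKV']
        constructor
        · rintro ⟨h4, h5⟩
          exact ⟨(ih K' V' hKV' (by rw [order_eq hp hG hH h0 hKV']; omega)).mp h4, h5⟩
        · rintro ⟨h4, h5⟩
          exact ⟨(ih K' V' hKV' (by rw [order_eq hp hG hH h0 hKV']; omega)).mpr h4, h5⟩
      rw [if_congr h3 rfl rfl]) x
  have htr' : (∑ L : Subgroup G, if fam N n L then mark K L else 0)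
      = ∑ L : Subgroup H, if fam M n L then (Φ x : Subgroup H → ℤ) L else 0 := by
    have e1 : (∑ L : Subgroup G, if fam N n L then mark K L else 0)
        = ∑ K' : Subgroup G, (fun K => if fam N n K then (1 : ℤ) else 0) K'
          * (x : Subgroup G → ℤ) K' := by
      apply Finset.sum_congr rfl
      intro L _
      show _ = (if fam N n L then (1 : ℤ) else 0) * mark K L
      by_cases h : fam N n L
      · rw [if_pos h, if_pos h, one_mul]
      · rw [if_neg h, if_neg h, zero_mul]
    have e2 : (∑ L : Subgroup H, if fam M n L then (Φ x : Subgroup H → ℤ) L else 0)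
        = ∑ K' : Subgroup H, (fun K => if fam M n K then (1 : ℤ) else 0) K'
          * (Φ x : Subgroup H → ℤ) K' := by
      apply Finset.sum_congr rfl
      intro L _
      show _ = (if fam M n L then (1 : ℤ) else 0) * (Φ x : Subgroup H → ℤ) L
      by_cases h : fam M n L
      · rw [if_pos h, if_pos h, one_mul]
      · rw [if_neg h, if_neg h, zero_mul]
    rw [e1, e2, htr]
  rw [TT_fam_not hMV, zero_mul, mul_zero, add_zero, ← htr', ← hcard] at h2
  have h3 := (dvd_add_right h2).mp h1
  obtain ⟨m, hm⟩ := TT_fam hp hG hNK hNeq hn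
  have h4 : (p : ℤ) * (Nat.card G : ℤ) ∣ (p : ℤ) * ((cl K : ℤ) * (TT (fam N n) K * mark K K)) :=
    mul_dvd_mul_left _ h3
  have h5 : (p : ℤ) * ((cl K : ℤ) * (TT (fam N n) K * mark K K))
      = (1 + p * m) * (p - 1) * (Nat.card G : ℤ) := by
    calc (p : ℤ) * ((cl K : ℤ) * (TT (fam N n) K * mark K K))
        = (cl K : ℤ) * (((p : ℤ) * TT (fam N n) K) * mark K K) := by ring
      _ = (1 + p * m) * (p - 1) * ((cl K : ℤ) * (mark K K * (Nat.card K : ℤ))) := by
          rw [hm]; ring
      _ = _ := by rw [cl_mul]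
  rw [h5] at h4
  exact not_dvd_aux hp (by exact_mod_cast (Nat.card_pos (α := G)).ne') h4

theorem incl_iff {p : ℕ} (hp : p.Prime) (hG : IsPGroup p G) (hH : IsPGroup p H)
    {Φ : BG G ≃+* BG H} (h0 : Rel Φ ⊥ ⊥) {N : Subgroup G} {M : Subgroup H} (hN : N.Normal)
    (hNM : Rel Φ N M) {K : Subgroup G} {V : Subgroup H} (hR : Rel Φ K V) : N ≤ K ↔ M ≤ V := by
  have hM : M.Normal := normal_rel hp hG hH h0 hNM hN
  have main : ∀ n : ℕ, ∀ K V, Rel Φ K V → Nat.card K < n → (N ≤ K ↔ M ≤ V) := by
    intro n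
    induction n with
    | zero => intro K V _ h; omega
    | succ n ih =>
      intro K V hR h
      by_cases h1 : Nat.card K < n
      · exact ih K V hR h1
      · have h2 : Nat.card K = n := by omega
        constructor
        · exact incl_step hp hG hH h0 hN hM hNM n ih hR h2
        · have ih' : ∀ V' K', Rel Φ.symm V' K' → Nat.card V' < n → (M ≤ V' ↔ N ≤ K') := by
            intro V' K' hR' h'
            have hR'' := rel_symm.mp hR'
            exact (ih K' V' hR'' (by rw [order_eq hp hG hH h0 hR'']; exact h')).symm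
          exact incl_step hp hH hG (rel_symm.mpr h0) hM hN (rel_symm.mpr hNM) n ih'
            (rel_symm.mpr hR) (by rw [← order_eq hp hG hH h0 hR]; exact h2)
  exact main (Nat.card K + 1) K V hR (Nat.lt_succ_self _)

end Iso

end Pool.Agent.Helper542
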