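import Mathlib
import Pool.Agent.Helper542.Orders
import Pool.Agent.Helper542.Lattice

set_option autoImplicit false

namespace Pool.Agent.Helper542

open Subgroup
open scoped Classical

section A

variable {G : Type} [Group G] [Fintype G] [Fintype (Subgroup G)]

lemma TT_single (N V : Subgroup G) : TT (fun L => L = N) V = (tt N V : ℤ) := by
  unfold TT
  rw [Finset.sum_ite_eq' Finset.univ N, if_pos (Finset.mem_univ _)]

omit [Fintype G] [Fintype (Subgroup G)] in
lemma CC_single (N : Subgroup G) [hN : N.Normal] : CC (fun L => L = N) := by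
  intro g K hK
  show cj g K = N
  have hK' : K = N := hK
  rw [hK', cj_normal]

/-- the congruence for a single normal subgroup, evaluated on a mark -/
lemma single_formula {N : Subgroup G} (hN : N.Normal)
    {y : Subgroup G → ℤ} (hy : Good y) (V : Subgroup G)
    (hyp : ∀ V' : Subgroup G, Nat.card V ≤ Nat.card V' → y V' ≠ 0 → Cj V V') :
    (Nat.card G : ℤ) ∣ (∑ V' : Subgroup G,
        (if Nat.card V' < Nat.card V then (tt N V' : ℤ) else 0) * y V')
      + (cl V : ℤ) * ((tt N V : ℤ) * y V) := by
  have h1 := hy.2 _ (CC_single N)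
  have h2 : ∀ V' : Subgroup G, TT (fun L => L = N) V' * y V'
      = (if Nat.card V' < Nat.card V then (tt N V' : ℤ) else 0) * y V'
        + (TT (fun L => L = N) V' * y V') * ind V V' := by
    intro V'
    rcases Nat.lt_or_ge (Nat.card V') (Nat.card V) with h | h
    · have h3 : ¬ Cj V V' := fun h' => by rw [h'.card] at h; exact lt_irrefl _ h
      rw [ind, if_neg h3, if_pos h, TT_single]; ring
    · rw [if_neg (not_lt_of_ge h), zero_mul, zero_add, ind]
      by_cases h4 : Cj V V'
      · rw [if_pos h4, mul_one]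
      · rw [if_neg h4, mul_zero]
        by_contra h5
        exact h4 (hyp V' h (right_ne_zero_of_mul h5))
  rw [Finset.sum_congr rfl (fun V' _ => h2 V'), Finset.sum_add_distrib,
    sum_mul_class V (fun V' => TT (fun L => L = N) V' * y V')
      (fun g => by rw [TT_cj (CC_single N), hy.1])] at h1
  simp only [TT_single] at h1
  exact h1

end A

section Iso

variable {G H : Type} [Group G] [Group H] [Fintype G] [Fintype H]
  [Fintype (Subgroup G)] [Fintype (Subgroup H)]

lemma gen_step {p : ℕ} (hp : p.Prime) (hG : IsPGroup p G) (hH : IsPGroup p H)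
    {Φ : BG G ≃+* BG H} (h0 : Rel Φ ⊥ ⊥) {N : Subgroup G} {M : Subgroup H} (hN : N.Normal)
    (hM : M.Normal) (hNM : Rel Φ N M) (k : ℕ)
    (ih : ∀ K V, Rel Φ K V → Nat.card K < k → tt N K = tt M V)
    {K : Subgroup G} {V : Subgroup H} (hR : Rel Φ K V) (hk : Nat.card K = k)
    (hne : tt N K ≠ 0) : tt M V ≠ 0 := by
  by_cases hNeq : N = K
  · subst hNeq
    have h1 : Cj M V := (rel_cj_iff hNM hR).mp (Cj.refl _)
    rw [eq_of_Cj_normal h1, tt_self]
    exact (Nat.card_pos (α := M)).ne'
  intro hMV
  have hcard := card_eq_of_iso hp hG hH Φ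
  have hKV := order_eq hp hG hH h0 hR
  set x : BG G := ⟨mark K, mark_mem K⟩ with hx
  have hgoodx : Good (mark K) := good_of_mem _ x.2
  have hgood : Good (Φ x : Subgroup H → ℤ) := good_of_mem _ (Φ x).2
  have h1 := single_formula hN hgoodx K (by
    intro V' hV' h
    exact cj_of_mark_ne_zero h hV')
  have h2 := single_formula hM hgood V (by
    intro V' hV' h
    obtain ⟨K', hK'⟩ := rel_left Φ V'
    have h3 : (Φ x : Subgroup H → ℤ) V' = mark K K' := hK' x
    rw [h3] at h
    apply (rel_cj_iff hR hK').mp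
    apply cj_of_mark_ne_zero h
    rw [hKV, order_eq hp hG hH h0 hK']
    exact hV')
  have htr := transfer' hp hG hH h0
    (fun K' => if Nat.card K' < Nat.card K then (tt N K' : ℤ) else 0)
    (fun V' => if Nat.card V' < Nat.card V then (tt M V' : ℤ) else 0) (by
      intro K' V' hKV'
      show (if Nat.card K' < Nat.card K then (tt N K' : ℤ) else 0)
        = if Nat.card V' < Nat.card V then (tt M V' : ℤ) else 0
      rw [← hKV, ← order_eq hp hG hH h0 hKV']
      by_cases h : Nat.card K' < Nat.card K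
      · rw [if_pos h, if_pos h, ih K' V' hKV' (by rw [← hk]; exact h)]
      · rw [if_neg h, if_neg h]) x
  have htr' : (∑ V' : Subgroup G,
        (if Nat.card V' < Nat.card K then (tt N V' : ℤ) else 0) * mark K V')
      = ∑ V' : Subgroup H,
        (if Nat.card V' < Nat.card V then (tt M V' : ℤ) else 0) * (Φ x : Subgroup H → ℤ) V' := htr
  rw [hMV, Nat.cast_zero, zero_mul, mul_zero, add_zero, ← htr', ← hcard] at h2
  have h3 := (dvd_add_right h2).mp h1
  have h4 := tt_count hp hG hNeq hne
  have h5 : (p : ℤ) * (tt N K : ℤ) = (p - 1) * (Nat.card K : ℤ) := by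
    have : ((p * tt N K : ℕ) : ℤ) = (((p - 1) * Nat.card K : ℕ) : ℤ) := by rw [h4]
    rw [Nat.cast_mul, Nat.cast_mul, Nat.cast_sub hp.one_lt.le] at this
    exact_mod_cast this
  have h6 : (p : ℤ) * (Nat.card G : ℤ) ∣ (p : ℤ) * ((cl K : ℤ) * ((tt N K : ℤ) * mark K K)) :=
    mul_dvd_mul_left _ h3
  have h7 : (p : ℤ) * ((cl K : ℤ) * ((tt N K : ℤ) * mark K K))
      = (1 + p * 0) * (p - 1) * (Nat.card G : ℤ) := by
    calc (p : ℤ) * ((cl K : ℤ) * ((tt N K : ℤ) * mark K K))
        = (cl K : ℤ) * (((p : ℤ) * (tt N K : ℤ)) * mark K K) := by ring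
      _ = (1 + p * 0) * (p - 1) * ((cl K : ℤ) * (mark K K * (Nat.card K : ℤ))) := by
          rw [h5]; ring
      _ = _ := by rw [cl_mul]
  rw [h7] at h6
  exact not_dvd_aux hp (by exact_mod_cast (Nat.card_pos (α := G)).ne') h6

theorem gen_eq {p : ℕ} (hp : p.Prime) (hG : IsPGroup p G) (hH : IsPGroup p H)
    {Φ : BG G ≃+* BG H} (h0 : Rel Φ ⊥ ⊥) {N : Subgroup G} {M : Subgroup H} (hN : N.Normal)
    (hNM : Rel Φ N M) {K : Subgroup G} {V : Subgroup H} (hR : Rel Φ K V) :
    tt N K = tt M V := by
  have hM : M.Normal := normal_rel hp hG hH h0 hNM hN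
  have main : ∀ n : ℕ, ∀ K V, Rel Φ K V → Nat.card K < n → tt N K = tt M V := by
    intro n
    induction n with
    | zero => intro K V _ h; omega
    | succ n ih =>
      intro K V hR h
      by_cases h1 : Nat.card K < n
      · exact ih K V hR h1
      · have h2 : Nat.card K = n := by omega
        have hKV := order_eq hp hG hH h0 hR
        have d1 : tt N K ≠ 0 → tt M V ≠ 0 := gen_step hp hG hH h0 hN hM hNM n ih hR h2
        have d2 : tt M V ≠ 0 → tt N K ≠ 0 := by
          have ih' : ∀ V' K', Rel Φ.symm V' K' → Nat.card V' < n → tt M V' = tt N K' := by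
            intro V' K' hR' h'
            have hR'' := rel_symm.mp hR'
            exact (ih K' V' hR'' (by rw [order_eq hp hG hH h0 hR'']; exact h')).symm
          exact gen_step hp hH hG (rel_symm.mpr h0) hM hN (rel_symm.mpr hNM) n ih'
            (rel_symm.mpr hR) (by rw [← hKV]; exact h2)
        by_cases h3 : tt N K = 0
        · have h4 : tt M V = 0 := by
            by_contra h4
            exact d2 h4 h3
          rw [h3, h4]
        · have h4 := d1 h3
          by_cases hNK : N = K
          · subst hNK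
            have h5 : Cj M V := (rel_cj_iff hNM hR).mp (Cj.refl _)
            rw [eq_of_Cj_normal h5, tt_self, tt_self]
            exact order_eq hp hG hH h0 hNM
          · have hMV : M ≠ V := by
              rintro rfl
              have h5 : Cj N K := (rel_cj_iff hNM hR).mpr (Cj.refl _)
              exact hNK (eq_of_Cj_normal h5).symm
            have h5 := tt_count hp hG hNK h3
            have h6 := tt_count hp hH hMV h4
            rw [hKV, ← h6] at h5
            exact Nat.eq_of_mul_eq_mul_left hp.pos h5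
  exact main (Nat.card K + 1) K V hR (Nat.lt_succ_self _)

/-- The data on normal subgroups obtained from an isomorphism of Burnside rings. -/
theorem latIso_of_iso {p : ℕ} (hp : p.Prime) (hG : IsPGroup p G) (hH : IsPGroup p H)
    (Φ : BG G ≃+* BG H) : Nonempty (LatIso G H) := by
  obtain ⟨Φ', h0⟩ := normalise hp hG hH Φ
  choose f hf using rel_right Φ'
  choose g hg using rel_left Φ'
  have h0' : Rel Φ'.symm ⊥ ⊥ := rel_symm.mpr h0
  have hfn : ∀ N : Subgroup G, N.Normal → (f N).Normal := fun N hN =>
    normal_rel hp hG hH h0 (hf N) hN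
  have hgn : ∀ M : Subgroup H, M.Normal → (g M).Normal := fun M hM =>
    normal_rel hp hH hG h0' (rel_symm.mpr (hg M)) hM
  refine ⟨⟨
    { toFun := fun N => ⟨f N.1, hfn N.1 N.2⟩
      invFun := fun M => ⟨g M.1, hgn M.1 M.2⟩
      left_inv := ?_
      right_inv := ?_
      map_rel_iff' := ?_ }, ?_, ?_⟩⟩
  · intro N
    apply Subtype.ext
    show g (f N.1) = N.1
    have hN := N.2
    have h1 : Cj N.1 (g (f N.1)) := (rel_cj_iff (hf N.1) (hg (f N.1))).mpr (Cj.refl _)
    exact eq_of_Cj_normal h1
  · intro M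
    apply Subtype.ext
    show f (g M.1) = M.1
    have hM := M.2
    have h1 : Cj M.1 (f (g M.1)) := (rel_cj_iff (hg M.1) (hf (g M.1))).mp (Cj.refl _)
    exact eq_of_Cj_normal h1
  · intro N K
    show f N.1 ≤ f K.1 ↔ N.1 ≤ K.1
    exact (incl_iff hp hG hH h0 N.2 (hf N.1) (hf K.1)).symm
  · intro N
    show Nat.card (f N.1) = Nat.card N.1
    exact (order_eq hp hG hH h0 (hf N.1)).symm
  · intro N K _ h
    show ∃ v : H, f N.1 ⊔ Subgroup.zpowers v = f K.1
    obtain ⟨k, hk⟩ := h
    have hN := N.2
    have h1 : tt N.1 K.1 ≠ 0 := by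
      intro h2
      unfold tt at h2
      rw [Finset.card_eq_zero] at h2
      have h3 : k ∈ Finset.univ.filter
          (fun g : G => cj g N.1 = N.1 ∧ N.1 ⊔ Subgroup.zpowers g = K.1) := by
        rw [Finset.mem_filter]
        exact ⟨Finset.mem_univ _, cj_normal k N.1, hk⟩
      rw [h2] at h3
      exact absurd h3 (Finset.notMem_empty _)
    rw [gen_eq hp hG hH h0 N.2 (hf N.1) (hf K.1)] at h1
    obtain ⟨v, _, hv⟩ := tt_ne_zero h1
    exact ⟨v, hv⟩

end Iso

/-- The main theorem. -/
theorem class_le {p : ℕ} (hp : p.Prime) (G H : Type) [Group G] [Group H] [Finite G] [Finite H]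
    [Group.IsNilpotent G] [Group.IsNilpotent H] (hG : IsPGroup p G) (hH : IsPGroup p H)
    (Φ : BG G ≃+* BG H) : Group.nilpotencyClass H ≤ bound (Group.nilpotencyClass G) := by
  have := Fintype.ofFinite G
  have := Fintype.ofFinite H
  have := Fintype.ofFinite (Subgroup G)
  have := Fintype.ofFinite (Subgroup H)
  obtain ⟨I⟩ := latIso_of_iso hp hG hH Φ
  have h1 := class_bound hp hG hH I (Group.nilpotencyClass G) ⟨⊥, inferInstance⟩
    (by
      show _ ≤ (⊥ : Subgroup G)
      rw [le_bot_iff]
      exact Subgroup.lowerCentralSeries_nilpotencyClass)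
  have h2 : (I.ψ ⟨⊥, inferInstance⟩).1 = ⊥ := by
    apply Subgroup.eq_bot_of_card_eq
    rw [I.card_eq]
    exact Subgroup.card_bot
  rw [h2, le_bot_iff] at h1
  exact Subgroup.lowerCentralSeries_eq_bot_iff_nilpotencyClass_le.mp h1

end Pool.Agent.Helper542
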